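import Mathlib

/-!
# Three elementary summation lemmas
-/

set_option autoImplicit false

namespace Pool.Agent.H70.NC

open Finset

lemma geom_bound {θ : ℝ} (hθ : 0 < θ) (n : ℕ) :
    ∑ j ∈ range n, Real.exp (-θ * (j + 1)) ≤ 1 / θ := by
  set r := Real.exp (-θ) with hr
  have hr0 : 0 < r := Real.exp_pos _
  have h1 : r * (1 + θ) ≤ 1 := by
    have h2 : 1 + θ ≤ Real.exp θ := by linarith [Real.add_one_le_exp θ]
    have h3 : r * Real.exp θ = 1 := by rw [hr, ← Real.exp_add]; simp
    calc r * (1 + θ) ≤ r * Real.exp θ := by gcongr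
      _ = 1 := h3
  have key : ∀ n : ℕ, ∑ j ∈ range n, Real.exp (-θ * (j + 1)) ≤ (1 - r ^ n) / θ := by
    intro n
    induction n with
    | zero => simp
    | succ n ih =>
      rw [Finset.sum_range_succ]
      have h4 : Real.exp (-θ * (n + 1)) = r ^ (n + 1) := by
        rw [hr, ← Real.exp_nat_mul]; push_cast; ring_nf
      rw [h4]
      have h5 : r ^ (n + 1) ≤ (r ^ n - r ^ (n + 1)) / θ := by
        rw [le_div_iff₀ hθ, pow_succ]
        have : 0 < r ^ n := by positivity
        nlinarith
      calc _ ≤ (1 - r ^ n) / θ + (r ^ n - r ^ (n + 1)) / θ := add_le_add ih h5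
        _ = (1 - r ^ (n + 1)) / θ := by ring
  refine (key n).trans ?_
  have : 0 < r ^ n := by positivity
  gcongr
  linarith

lemma sum_rank_ge {θ : ℝ} (S : Finset ℕ) :
    ∑ a ∈ S, Real.exp (-θ * ((S.filter (fun w => a ≤ w)).card : ℝ)) =
      ∑ j ∈ range S.card, Real.exp (-θ * (j + 1)) := by
  induction S using Finset.induction_on_min with
  | empty => simp
  | insert a s ha ih =>
    have has : a ∉ s := fun h => lt_irrefl _ (ha a h)
    rw [Finset.sum_insert has, Finset.card_insert_of_notMem has, Finset.sum_range_succ, ← ih, add_comm]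
    congr 1
    · refine Finset.sum_congr rfl fun x hx => ?_
      have : (insert a s).filter (fun w => x ≤ w) = s.filter (fun w => x ≤ w) := by
        rw [Finset.filter_insert, if_neg]
        exact not_le.mpr (ha x hx)
      rw [this]
    · have : (insert a s).filter (fun w => a ≤ w) = insert a s := by
        rw [Finset.filter_true_of_mem]
        intro w hw
        rcases Finset.mem_insert.mp hw with h | h
        · exact h.ge
        · exact (ha w h).le
      rw [this, Finset.card_insert_of_notMem has]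
      push_cast; rfl

lemma sum_rank_le {θ : ℝ} (S : Finset ℕ) :
    ∑ a ∈ S, Real.exp (-θ * ((S.filter (fun w => w ≤ a)).card : ℝ)) =
      ∑ j ∈ range S.card, Real.exp (-θ * (j + 1)) := by
  induction S using Finset.induction_on_max with
  | empty => simp
  | insert a s ha ih =>
    have has : a ∉ s := fun h => lt_irrefl _ (ha a h)
    rw [Finset.sum_insert has, Finset.card_insert_of_notMem has, Finset.sum_range_succ, ← ih, add_comm]
    congr 1
    · refine Finset.sum_congr rfl fun x hx => ?_
      have : (insert a s).filter (fun w => w ≤ x) = s.filter (fun w => w ≤ x) := by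
        rw [Finset.filter_insert, if_neg]
        exact not_le.mpr (ha x hx)
      rw [this]
    · have : (insert a s).filter (fun w => w ≤ a) = insert a s := by
        rw [Finset.filter_true_of_mem]
        intro w hw
        rcases Finset.mem_insert.mp hw with h | h
        · exact h.le
        · exact (ha w h).le
      rw [this, Finset.card_insert_of_notMem has]
      push_cast; rfl

/-- outer sum -/
lemma outer_sum {θ : ℝ} (hθ : 0 < θ) (F : Finset ℕ) (Y : ℕ) (hF : ∀ w ∈ F, w < Y) :
    ∑ a ∈ F, ∑ d ∈ F.filter (fun d => a < d),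
      ((d - a : ℕ) : ℝ) * Real.exp (-θ * ((F.filter (fun w => a ≤ w ∧ w ≤ d)).card : ℝ)) ≤
      Y * (1 / θ) ^ 2 := by
  classical
  -- expand d - a
  have h1 : ∀ a ∈ F, ∀ d ∈ F.filter (fun d => a < d), ((d - a : ℕ) : ℝ) =
      ∑ x ∈ range Y, if a ≤ x ∧ x < d then (1 : ℝ) else 0 := by
    intro a _ d hd
    rw [mem_filter] at hd
    have hdY := hF d hd.1
    have : (range Y).filter (fun x => a ≤ x ∧ x < d) = Ico a d := by
      ext x; simp only [mem_filter, mem_range, mem_Ico]; omega
    rw [← Finset.sum_filter, this]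
    simp
  have h2 : ∑ a ∈ F, ∑ d ∈ F.filter (fun d => a < d),
      ((d - a : ℕ) : ℝ) * Real.exp (-θ * ((F.filter (fun w => a ≤ w ∧ w ≤ d)).card : ℝ)) =
      ∑ x ∈ range Y, (∑ a ∈ F.filter (fun a => a ≤ x), ∑ d ∈ F.filter (fun d => x < d),
        Real.exp (-θ * ((F.filter (fun w => a ≤ w ∧ w ≤ d)).card : ℝ))) := by
    have e1 : ∀ x ∈ range Y, (∑ a ∈ F.filter (fun a => a ≤ x), ∑ d ∈ F.filter (fun d => x < d),
        Real.exp (-θ * ((F.filter (fun w => a ≤ w ∧ w ≤ d)).card : ℝ))) =
        ∑ a ∈ F, ∑ d ∈ F.filter (fun d => a < d), (if a ≤ x ∧ x < d then (1 : ℝ) else 0) *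
        Real.exp (-θ * ((F.filter (fun w => a ≤ w ∧ w ≤ d)).card : ℝ)) := by
      intro x _
      rw [Finset.sum_filter]
      refine Finset.sum_congr rfl fun a _ => ?_
      by_cases hax : a ≤ x
      · rw [if_pos hax, Finset.sum_filter, Finset.sum_filter]
        refine Finset.sum_congr rfl fun d _ => ?_
        by_cases hxd : x < d
        · rw [if_pos hxd, if_pos (by omega), if_pos ⟨hax, hxd⟩, one_mul]
        · rw [if_neg hxd]
          split_ifs with h1 h2
          · exact absurd h2.2 hxd
          · simp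
          · rfl
      · rw [if_neg hax]
        symm
        refine Finset.sum_eq_zero fun d _ => ?_
        rw [if_neg (fun h => hax h.1), zero_mul]
    rw [Finset.sum_congr rfl e1, Finset.sum_comm]
    refine Finset.sum_congr rfl fun a ha => ?_
    rw [Finset.sum_comm]
    refine Finset.sum_congr rfl fun d hd => ?_
    rw [h1 a ha d hd, Finset.sum_mul]
  rw [h2]
  have h3 : ∀ x ∈ range Y, (∑ a ∈ F.filter (fun a => a ≤ x), ∑ d ∈ F.filter (fun d => x < d),
        Real.exp (-θ * ((F.filter (fun w => a ≤ w ∧ w ≤ d)).card : ℝ))) ≤ (1 / θ) ^ 2 := by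
    intro x _
    have e2 : ∀ a ∈ F.filter (fun a => a ≤ x), ∀ d ∈ F.filter (fun d => x < d),
        Real.exp (-θ * ((F.filter (fun w => a ≤ w ∧ w ≤ d)).card : ℝ)) =
        Real.exp (-θ * (((F.filter (fun a => a ≤ x)).filter (fun w => a ≤ w)).card : ℝ)) *
        Real.exp (-θ * (((F.filter (fun d => x < d)).filter (fun w => w ≤ d)).card : ℝ)) := by
      intro a ha d hd
      rw [mem_filter] at ha hd
      rw [← Real.exp_add, ← mul_add]
      congr 2
      have : F.filter (fun w => a ≤ w ∧ w ≤ d) =
          (F.filter (fun a => a ≤ x)).filter (fun w => a ≤ w) ∪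
          (F.filter (fun d => x < d)).filter (fun w => w ≤ d) := by
        ext w
        simp only [mem_filter, mem_union]
        constructor
        · rintro ⟨h1, h2, h3⟩
          rcases Nat.lt_or_ge x w with h4 | h4
          · exact Or.inr ⟨⟨h1, h4⟩, h3⟩
          · exact Or.inl ⟨⟨h1, h4⟩, h2⟩
        · rintro (⟨⟨h1, h2⟩, h3⟩ | ⟨⟨h1, h2⟩, h3⟩)
          · exact ⟨h1, h3, by omega⟩
          · exact ⟨h1, by omega, h3⟩
      rw [this, Finset.card_union_of_disjoint]
      · push_cast; rfl
      · rw [Finset.disjoint_left]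
        intro w hw hw'
        simp only [mem_filter] at hw hw'
        omega
    have e3 : (∑ a ∈ F.filter (fun a => a ≤ x), ∑ d ∈ F.filter (fun d => x < d),
        Real.exp (-θ * ((F.filter (fun w => a ≤ w ∧ w ≤ d)).card : ℝ))) =
        (∑ a ∈ F.filter (fun a => a ≤ x),
          Real.exp (-θ * (((F.filter (fun a => a ≤ x)).filter (fun w => a ≤ w)).card : ℝ))) *
        (∑ d ∈ F.filter (fun d => x < d),
          Real.exp (-θ * (((F.filter (fun d => x < d)).filter (fun w => w ≤ d)).card : ℝ))) := by
      rw [Finset.sum_mul_sum]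
      exact Finset.sum_congr rfl fun a ha => Finset.sum_congr rfl fun d hd => e2 a ha d hd
    rw [e3, sum_rank_ge, sum_rank_le, sq]
    apply mul_le_mul (geom_bound hθ _) (geom_bound hθ _)
    · exact Finset.sum_nonneg fun _ _ => (Real.exp_pos _).le
    · positivity
  calc _ ≤ ∑ x ∈ range Y, (1 / θ) ^ 2 := Finset.sum_le_sum h3
    _ = Y * (1 / θ) ^ 2 := by rw [Finset.sum_const, card_range, nsmul_eq_mul]

/-- inner sum -/
lemma inner_sum {l : ℝ} (hl : 0 < l) (hl1 : l ≤ 1) (u : ℕ → ℝ) (n : ℕ)
    (h0 : ∀ v < n, 0 ≤ u v) (h1 : ∀ v < n, u v ≤ 1) :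
    ∑ c ∈ range n, u c * Real.exp (-l * ∑ v ∈ range c, u v) ≤ 2 / l := by
  have key : ∀ m ≤ n, ∑ c ∈ range m, u c * Real.exp (-l * ∑ v ∈ range c, u v) ≤
      2 / l * (1 - Real.exp (-l * ∑ v ∈ range m, u v)) := by
    intro m
    induction m with
    | zero => intro _; simp
    | succ m ih =>
      intro hm
      rw [Finset.sum_range_succ]
      refine (add_le_add_left (ih (by omega)) _).trans ?_
      rw [Finset.sum_range_succ, mul_add, Real.exp_add]
      set E := Real.exp (-l * ∑ v ∈ range m, u v) with hE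
      have hEp : 0 < E := Real.exp_pos _
      have hu0 := h0 m (by omega)
      have hu1 := h1 m (by omega)
      set x := l * u m with hx
      have hx0 : 0 ≤ x := by positivity
      have hx1 : x ≤ 1 := by
        calc x ≤ 1 * 1 := mul_le_mul hl1 hu1 hu0 zero_le_one
          _ = 1 := one_mul 1
      have hexp : Real.exp (-l * u m) ≤ 1 - x / 2 := by
        have e1 : Real.exp (-l * u m) = 1 / Real.exp x := by
          rw [neg_mul, Real.exp_neg, ← hx, one_div]
        rw [e1, div_le_iff₀ (Real.exp_pos _)]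
        have e2 : 1 + x ≤ Real.exp x := by linarith [Real.add_one_le_exp x]
        have e3 : 1 ≤ (1 - x / 2) * (1 + x) := by nlinarith
        refine e3.trans (mul_le_mul_of_nonneg_left e2 (by linarith))
      have e4 : u m = 2 / l * (x / 2) := by rw [hx]; field_simp
      have e5 : u m * E ≤ 2 / l * (E - E * Real.exp (-l * u m)) := by
        rw [e4]
        have : E - E * Real.exp (-l * (2 / l * (x / 2))) = E * (1 - Real.exp (-l * u m)) := by
          rw [← e4]; ring
        rw [this, mul_assoc]
        refine mul_le_mul_of_nonneg_left ?_ (by positivity)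
        rw [mul_comm]
        refine mul_le_mul_of_nonneg_left (by linarith) hEp.le
      calc 2 / l * (1 - E) + u m * E ≤ 2 / l * (1 - E) + 2 / l * (E - E * Real.exp (-l * u m)) := by
            linarith
        _ = 2 / l * (1 - E * Real.exp (-l * u m)) := by ring
  refine (key n le_rfl).trans ?_
  have : 0 < Real.exp (-l * ∑ v ∈ range n, u v) := Real.exp_pos _
  calc 2 / l * (1 - Real.exp (-l * ∑ v ∈ range n, u v)) ≤ 2 / l * 1 := by
        refine mul_le_mul_of_nonneg_left (by linarith) (by positivity)
    _ = 2 / l := mul_one _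

end Pool.Agent.H70.NC
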