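import Mathlib

/-!
# Basic definitions for the clique counting (internal to the proof)

Edges are quintuples `a < b < c < d < y`. `Cmp f e` is what is known about a pair of edges with
`f.y < e.y` in a `P`-clique.
-/

set_option autoImplicit false

namespace Pool.Agent.H70.NC

open Finset
open scoped Classical

/-- an edge -/
@[ext] structure Ed where
  a : ℕ
  b : ℕ
  c : ℕ
  d : ℕ
  y : ℕ

noncomputable instance : DecidableEq Ed := Classical.decEq _

/-- compatibility of a lower edge `f` with a higher edge `e` -/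
def Cmp (f e : Ed) : Prop :=
  f.d < e.a ∨ e.d < f.a ∨ (e.a < f.a ∧ f.d < e.d ∧ ¬ (f.a < e.c ∧ e.c < f.b) ∧
    (f.a < e.c → e.c < f.c → e.b < f.a))

/-- ordered edges below `N` -/
def Ord (N : ℕ) (e : Ed) : Prop := e.a < e.b ∧ e.b < e.c ∧ e.c < e.d ∧ e.d < e.y ∧ e.y < N

/-- abstract cliques -/
structure Cl (N : ℕ) (C : Finset Ed) : Prop where
  ord : ∀ e ∈ C, Ord N e
  inj : ∀ e ∈ C, ∀ f ∈ C, e.y = f.y → e = f
  cmp : ∀ f ∈ C, ∀ e ∈ C, f.y < e.y → Cmp f e

/-- the edges of `C` lower than `e` -/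
noncomputable def low (C : Finset Ed) (e : Ed) : Finset Ed := C.filter (fun f => f.y < e.y)

def Alive (D : Finset Ed) (w : ℕ) : Prop := ∀ f ∈ D, ¬ (f.a < w ∧ w < f.b)

def Free (D : Finset Ed) (w : ℕ) : Prop := ∀ f ∈ D, ¬ (f.a ≤ w ∧ w ≤ f.d)

def Unc (D : Finset Ed) (x v : ℕ) : Prop := ∀ f ∈ D, ¬ (f.a < x ∧ v < f.c)

/-- alive positions strictly between `x` and `y` -/
noncomputable def alv (D : Finset Ed) (x y : ℕ) : Finset ℕ := (Ioo x y).filter (Alive D)

def Cheap (q : ℕ) (D : Finset Ed) (a x : ℕ) : Prop := (alv D a x).card ≤ q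

/-- the pairs charged to an edge with vertices `a`, `c` -/
noncomputable def pr (q : ℕ) (D : Finset Ed) (a c : ℕ) : Finset (ℕ × ℕ) :=
  ((Ioo a c) ×ˢ (Ioo a c)).filter
    (fun p => p.1 < p.2 ∧ Alive D p.2 ∧ Cheap q D a p.1 ∧ Unc D p.1 p.2)

/-- the third resource -/
noncomputable def Tr (q H0 : ℕ) (D : Finset Ed) (a c d : ℕ) : ℝ :=
  if H0 ≤ d - a then ((pr q D a c).card : ℝ) / ((d - a : ℕ) : ℝ) else 0

end Pool.Agent.H70.NC
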