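import Pool.Agent.H70.NC.TLemma
import Pool.Agent.H70.NC.Analytic

/-!
# Counting cliques
-/

set_option autoImplicit false

namespace Pool.Agent.H70.NC

open Finset
open scoped Classical

/-- free positions below `Y` -/
noncomputable def FF (D : Finset Ed) (Y : ℕ) : Finset ℕ := (range Y).filter (Free D)

/-- first resource -/
noncomputable def ph (D : Finset Ed) (Y a d : ℕ) : ℕ :=
  ((FF D Y).filter (fun w => a ≤ w ∧ w ≤ d)).card

/-- weight of adding `e` to the set `D` -/
noncomputable def wt (θ L : ℝ) (q H0 : ℕ) (D : Finset Ed) (e : Ed) : ℝ :=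
  Real.exp (-θ * (ph D e.y e.a e.d : ℝ)) *
    (Real.exp (-θ * ((alv D e.a e.b).card : ℝ)) * Real.exp (-θ * (Tr q H0 D e.a e.c e.d / L)))

/-- possible positions of `b, c` -/
noncomputable def BC (D : Finset Ed) (a d : ℕ) : Finset (ℕ × ℕ) :=
  ((Ioo a d) ×ˢ (Ioo a d)).filter (fun p => p.1 < p.2 ∧ Alive D p.2 ∧ Unc D p.1 p.2)

lemma card_BC (D : Finset Ed) (a d : ℕ) : ((BC D a d).card : ℝ) ≤ ((d - a : ℕ) : ℝ) * ((d - a : ℕ) : ℝ) := by
  have h1 : (BC D a d).card ≤ (d - a) * (d - a) := by
    calc (BC D a d).card ≤ ((Ioo a d) ×ˢ (Ioo a d)).card := card_filter_le _ _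
      _ = (Ioo a d).card * (Ioo a d).card := card_product _ _
      _ ≤ (d - a) * (d - a) := by
        rw [Nat.card_Ioo]
        exact Nat.mul_le_mul (by omega) (by omega)
  exact_mod_cast h1

lemma Tr_nonneg (q H0 : ℕ) (D : Finset Ed) (a c d : ℕ) : 0 ≤ Tr q H0 D a c d := by
  unfold Tr; split_ifs
  · positivity
  · exact le_refl _

lemma inner_bound {θ L : ℝ} {q H0 N : ℕ} (hθ : 0 < θ) (hL : θ ≤ L)
    (hq : N * Real.exp (-θ * q) ≤ L / θ) (hH : (H0 : ℝ) ≤ L / θ) (D : Finset Ed) {a d : ℕ}
    (had : a < d) (hd : d ≤ N) :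
    ∑ p ∈ BC D a d, (Real.exp (-θ * ((alv D a p.1).card : ℝ)) *
      Real.exp (-θ * (Tr q H0 D a p.2 d / L))) ≤ 3 * ((d - a : ℕ) : ℝ) * (L / θ) := by
  have hLp : 0 < L := lt_of_lt_of_le hθ hL
  set h : ℝ := ((d - a : ℕ) : ℝ) with hh
  have hhp : 0 < h := by
    rw [hh]
    have : 0 < d - a := by omega
    exact_mod_cast this
  have hhN : h ≤ N := by
    rw [hh]
    have : d - a ≤ N := by omega
    exact_mod_cast this
  have hle1 : ∀ x : ℝ, 0 ≤ x → Real.exp (-θ * x) ≤ 1 := by
    intro x hx
    rw [← Real.exp_zero]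
    apply Real.exp_le_exp.mpr
    nlinarith
  rw [← Finset.sum_filter_add_sum_filter_not (BC D a d) (fun p => Cheap q D a p.1)]
  -- expensive part
  have hexp : ∑ p ∈ (BC D a d).filter (fun p => ¬ Cheap q D a p.1),
      (Real.exp (-θ * ((alv D a p.1).card : ℝ)) * Real.exp (-θ * (Tr q H0 D a p.2 d / L))) ≤
      h * (L / θ) := by
    calc _ ≤ ∑ p ∈ (BC D a d).filter (fun p => ¬ Cheap q D a p.1), Real.exp (-θ * q) := by
          refine Finset.sum_le_sum fun p hp => ?_
          rw [mem_filter] at hp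
          have h1 : (q : ℝ) ≤ (alv D a p.1).card := by
            have := hp.2
            unfold Cheap at this
            push Not at this
            exact_mod_cast this.le
          have h2 : Real.exp (-θ * ((alv D a p.1).card : ℝ)) ≤ Real.exp (-θ * q) := by
            apply Real.exp_le_exp.mpr
            nlinarith
          have h3 := hle1 (Tr q H0 D a p.2 d / L) (div_nonneg (Tr_nonneg _ _ _ _ _ _) hLp.le)
          calc _ ≤ Real.exp (-θ * q) * 1 := mul_le_mul h2 h3 (Real.exp_pos _).le (Real.exp_pos _).le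
            _ = _ := mul_one _
      _ = (((BC D a d).filter (fun p => ¬ Cheap q D a p.1)).card : ℝ) * Real.exp (-θ * q) := by
          rw [Finset.sum_const, nsmul_eq_mul]
      _ ≤ (h * h) * Real.exp (-θ * q) := by
          refine mul_le_mul_of_nonneg_right ?_ (Real.exp_pos _).le
          refine le_trans ?_ (card_BC D a d)
          exact_mod_cast card_filter_le _ _
      _ ≤ h * (N * Real.exp (-θ * q)) := by
          rw [mul_assoc]
          refine mul_le_mul_of_nonneg_left ?_ hhp.le
          exact mul_le_mul_of_nonneg_right hhN (Real.exp_pos _).le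
      _ ≤ h * (L / θ) := mul_le_mul_of_nonneg_left hq hhp.le
  -- cheap part
  have hcheap : ∑ p ∈ (BC D a d).filter (fun p => Cheap q D a p.1),
      (Real.exp (-θ * ((alv D a p.1).card : ℝ)) * Real.exp (-θ * (Tr q H0 D a p.2 d / L))) ≤
      2 * h * (L / θ) := by
    set B := (BC D a d).filter (fun p => Cheap q D a p.1) with hB
    by_cases hlong : H0 ≤ d - a
    · set g : ℕ → ℝ := fun v => ((B.filter (fun p => p.2 = v)).card : ℝ) with hg
      have hpr : ∀ c ≤ d, ((pr q D a c).card : ℝ) = ∑ v ∈ range c, g v := by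
        intro c hc
        have h1 : pr q D a c = B.filter (fun p => p.2 < c) := by
          ext p
          rw [mem_pr]
          simp only [hB, BC, mem_filter, mem_product, mem_Ioo]
          constructor
          · rintro ⟨h1, h2, h3, h4, h5, h6⟩
            exact ⟨⟨⟨⟨⟨h1, by omega⟩, by omega, by omega⟩, h2, h4, h6⟩, h5⟩, h3⟩
          · rintro ⟨⟨⟨⟨⟨h1, -⟩, -, -⟩, h2, h4, h6⟩, h5⟩, h3⟩
            exact ⟨h1, h2, h3, h4, h5, h6⟩
        rw [h1, Finset.card_eq_sum_card_fiberwise (f := fun p => p.2) (t := range c)]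
        · push_cast
          refine Finset.sum_congr rfl fun v hv => ?_
          rw [mem_range] at hv
          simp only [hg]
          congr 2
          ext p
          simp only [mem_filter]
          constructor
          · rintro ⟨⟨h1, h2⟩, h3⟩; exact ⟨h1, h3⟩
          · rintro ⟨h1, h3⟩; exact ⟨⟨h1, by omega⟩, h3⟩
        · intro p hp
          rw [Finset.mem_coe, mem_filter] at hp
          rw [Finset.mem_coe, mem_range]; exact hp.2
      have hgb : ∀ v, g v ≤ h := by
        intro v
        simp only [hg, hh]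
        have : (B.filter (fun p => p.2 = v)).card ≤ (Ioo a d).card := by
          refine Finset.card_le_card_of_injOn (fun p => p.1) ?_ ?_
          · intro p hp
            rw [Finset.mem_coe, mem_filter, hB, mem_filter, BC, mem_filter, mem_product] at hp
            exact Finset.mem_coe.mpr hp.1.1.1.1
          · intro p hp p' hp' hpp
            rw [Finset.mem_coe, mem_filter] at hp hp'
            exact Prod.ext hpp (by rw [hp.2, hp'.2])
        rw [Nat.card_Ioo] at this
        have h2 : (B.filter (fun p => p.2 = v)).card ≤ d - a := by omega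
        exact_mod_cast h2
      have hin := inner_sum (l := θ / L) (by positivity) (by rw [div_le_one hLp]; exact hL)
        (fun v => g v / h) d (fun v _ => by simp only [hg]; positivity)
        (fun v _ => by rw [div_le_one hhp]; exact hgb v)
      calc _ ≤ ∑ p ∈ B, Real.exp (-(θ / L) * ∑ v ∈ range p.2, g v / h) := by
            refine Finset.sum_le_sum fun p hp => ?_
            have hpd : p.2 ≤ d := by
              simp only [hB, BC, mem_filter, mem_product, mem_Ioo] at hp
              omega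
            have h1 : Real.exp (-θ * ((alv D a p.1).card : ℝ)) ≤ 1 := hle1 _ (by positivity)
            have h2 : -θ * (Tr q H0 D a p.2 d / L) = -(θ / L) * ∑ v ∈ range p.2, g v / h := by
              unfold Tr
              rw [if_pos hlong, hpr p.2 hpd, ← Finset.sum_div]
              ring
            rw [h2]
            calc _ ≤ 1 * Real.exp (-(θ / L) * ∑ v ∈ range p.2, g v / h) :=
                  mul_le_mul_of_nonneg_right h1 (Real.exp_pos _).le
              _ = _ := one_mul _
        _ = ∑ c ∈ range d, ∑ p ∈ B.filter (fun p => p.2 = c),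
              Real.exp (-(θ / L) * ∑ v ∈ range p.2, g v / h) := by
            rw [Finset.sum_fiberwise_of_maps_to]
            intro p hp
            simp only [hB, BC, mem_filter, mem_product, mem_Ioo] at hp
            rw [mem_range]; omega
        _ = ∑ c ∈ range d, h * ((g c / h) * Real.exp (-(θ / L) * ∑ v ∈ range c, g v / h)) := by
            refine Finset.sum_congr rfl fun c _ => ?_
            rw [Finset.sum_congr rfl (g := fun _ => Real.exp (-(θ / L) * ∑ v ∈ range c, g v / h))
              (fun p hp => by rw [mem_filter] at hp; rw [hp.2]), Finset.sum_const, nsmul_eq_mul,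
              ← mul_assoc, mul_div_cancel₀ _ hhp.ne']
        _ = h * ∑ c ∈ range d, ((g c / h) * Real.exp (-(θ / L) * ∑ v ∈ range c, g v / h)) := by
            rw [Finset.mul_sum]
        _ ≤ h * (2 / (θ / L)) := mul_le_mul_of_nonneg_left hin hhp.le
        _ = 2 * h * (L / θ) := by field_simp
    · calc _ ≤ ∑ p ∈ B, (1 : ℝ) := by
            refine Finset.sum_le_sum fun p _ => ?_
            have h1 : Real.exp (-θ * ((alv D a p.1).card : ℝ)) ≤ 1 := hle1 _ (by positivity)
            have h3 := hle1 (Tr q H0 D a p.2 d / L) (div_nonneg (Tr_nonneg _ _ _ _ _ _) hLp.le)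
            calc _ ≤ (1 : ℝ) * 1 := mul_le_mul h1 h3 (Real.exp_pos _).le zero_le_one
              _ = 1 := mul_one _
        _ = (B.card : ℝ) := by rw [Finset.sum_const, nsmul_eq_mul, mul_one]
        _ ≤ h * h := by
            refine le_trans ?_ (card_BC D a d)
            exact_mod_cast card_filter_le _ _
        _ ≤ h * (L / θ) := by
            refine mul_le_mul_of_nonneg_left ?_ hhp.le
            refine le_trans ?_ hH
            rw [hh]
            have : d - a ≤ H0 := by omega
            exact_mod_cast this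
        _ ≤ 2 * h * (L / θ) := by
            have : 0 ≤ h * (L / θ) := by positivity
            linarith
  linarith

/-- candidates for a new top edge -/
noncomputable def Top (D : Finset Ed) (Y : ℕ) : Finset Ed :=
  (((FF D Y).sigma (fun a => (FF D Y).filter (fun d => a < d))).sigma
    (fun p => BC D p.1 p.2)).image (fun p => (⟨p.1.1, p.2.1, p.2.2, p.1.2, Y⟩ : Ed))

lemma Top_y {D : Finset Ed} {Y : ℕ} {e : Ed} (he : e ∈ Top D Y) : e.y = Y := by
  simp only [Top, mem_image] at he
  obtain ⟨p, -, rfl⟩ := he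
  rfl

lemma mem_Top {N : ℕ} {D : Finset Ed} {e : Ed} (he : Ord N e) (hD : ∀ f ∈ D, Ord N f)
    (hcmp : ∀ f ∈ D, Cmp f e) : e ∈ Top D e.y := by
  simp only [Top, mem_image, mem_sigma, FF, mem_filter, mem_range, BC, mem_product, mem_Ioo]
  unfold Ord at he
  refine ⟨⟨⟨e.a, e.d⟩, (e.b, e.c)⟩, ⟨⟨⟨by simp only; omega, ?_⟩, ⟨by simp only; omega, ?_⟩, by simp only; omega⟩,
    ⟨by simp only; omega, by simp only; omega⟩, by simp only; omega, ?_, ?_⟩, rfl⟩
  · intro f hf hw
    simp only at hw
    rcases hcmp f hf with h1 | h1 | h1 <;> omega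
  · intro f hf hw
    simp only at hw
    rcases hcmp f hf with h1 | h1 | h1 <;> omega
  · intro f hf hw
    simp only at hw
    have hf' := hD f hf
    unfold Ord at hf'
    rcases hcmp f hf with h1 | h1 | h1
    · omega
    · omega
    · exact h1.2.2.1 hw
  · intro f hf hw
    simp only at hw
    have hf' := hD f hf
    unfold Ord at hf'
    rcases hcmp f hf with h1 | h1 | h1
    · omega
    · omega
    · have := h1.2.2.2 (by omega) (by omega)
      omega

lemma sum_Top {θ L : ℝ} {q H0 N : ℕ} (hθ : 0 < θ) (hL : θ ≤ L)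
    (hq : N * Real.exp (-θ * q) ≤ L / θ) (hH : (H0 : ℝ) ≤ L / θ) (D : Finset Ed) {Y : ℕ}
    (hY : Y ≤ N) : ∑ e ∈ Top D Y, wt θ L q H0 D e ≤ 3 * N * L / θ ^ 3 := by
  have hLp : 0 < L := lt_of_lt_of_le hθ hL
  unfold Top
  rw [Finset.sum_image]
  · rw [Finset.sum_sigma, Finset.sum_sigma]
    calc _ ≤ ∑ a ∈ FF D Y, ∑ d ∈ (FF D Y).filter (fun d => a < d),
          Real.exp (-θ * ((((FF D Y).filter (fun w => a ≤ w ∧ w ≤ d)).card : ℕ) : ℝ)) *
            (3 * ((d - a : ℕ) : ℝ) * (L / θ)) := by
          refine Finset.sum_le_sum fun a ha => Finset.sum_le_sum fun d hd => ?_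
          rw [mem_filter] at hd
          have hdY : d < Y := by
            have := hd.1
            rw [FF, mem_filter, mem_range] at this
            exact this.1
          simp only [wt, ph]
          rw [← Finset.mul_sum]
          refine mul_le_mul_of_nonneg_left ?_ (Real.exp_pos _).le
          exact inner_bound hθ hL hq hH D hd.2 (by omega)
      _ = 3 * (L / θ) * ∑ a ∈ FF D Y, ∑ d ∈ (FF D Y).filter (fun d => a < d),
          ((d - a : ℕ) : ℝ) * Real.exp (-θ * ((((FF D Y).filter (fun w => a ≤ w ∧ w ≤ d)).card : ℕ) : ℝ))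
            := by
          rw [Finset.mul_sum]
          refine Finset.sum_congr rfl fun a _ => ?_
          rw [Finset.mul_sum]
          refine Finset.sum_congr rfl fun d _ => ?_
          ring
      _ ≤ 3 * (L / θ) * (Y * (1 / θ) ^ 2) := by
          refine mul_le_mul_of_nonneg_left (outer_sum hθ (FF D Y) Y ?_) (by positivity)
          intro w hw
          rw [FF, mem_filter, mem_range] at hw
          exact hw.1
      _ ≤ 3 * (L / θ) * (N * (1 / θ) ^ 2) := by
          have : (Y : ℝ) ≤ N := by exact_mod_cast hY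
          gcongr
      _ = 3 * N * L / θ ^ 3 := by field_simp
  · rintro ⟨⟨a, d⟩, b, c⟩ - ⟨⟨a', d'⟩, b', c'⟩ - heq
    simp only [Ed.mk.injEq] at heq
    obtain ⟨rfl, rfl, rfl, rfl, -⟩ := heq
    rfl

/-- all edges below `N` -/
noncomputable def univE (N : ℕ) : Finset Ed :=
  ((range N ×ˢ range N) ×ˢ (range N ×ˢ range N) ×ˢ range N).image
    (fun p => (⟨p.1.1, p.1.2, p.2.1.1, p.2.1.2, p.2.2⟩ : Ed))

lemma mem_univE {N : ℕ} {e : Ed} (he : Ord N e) : e ∈ univE N := by
  unfold Ord at he
  simp only [univE, mem_image, mem_product, mem_range]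
  exact ⟨((e.a, e.b), (e.c, e.d), e.y), by simp only; omega, rfl⟩

/-- the cliques of size `k` with top below `Y` -/
noncomputable def CC (N k Y : ℕ) : Finset (Finset Ed) :=
  (univE N).powerset.filter (fun C => Cl N C ∧ C.card = k ∧ ∀ e ∈ C, e.y < Y)

lemma mem_CC {N k Y : ℕ} {C : Finset Ed} :
    C ∈ CC N k Y ↔ Cl N C ∧ C.card = k ∧ ∀ e ∈ C, e.y < Y := by
  rw [CC, mem_filter, mem_powerset]
  constructor
  · rintro ⟨-, h⟩; exact h
  · intro h; exact ⟨fun e he => mem_univE (h.1.ord e he), h⟩

noncomputable def WW (θ L : ℝ) (q H0 : ℕ) (C : Finset Ed) : ℝ := ∏ e ∈ C, wt θ L q H0 (low C e) e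

lemma wt_pos (θ L : ℝ) (q H0 : ℕ) (D : Finset Ed) (e : Ed) : 0 < wt θ L q H0 D e := by
  unfold wt; positivity

lemma WW_pos (θ L : ℝ) (q H0 : ℕ) (C : Finset Ed) : 0 < WW θ L q H0 C :=
  Finset.prod_pos fun _ _ => wt_pos _ _ _ _ _ _

lemma Cl.sub {N : ℕ} {C C' : Finset Ed} (h : Cl N C) (hs : C' ⊆ C) : Cl N C' :=
  ⟨fun e he => h.ord e (hs he), fun e he f hf => h.inj e (hs he) f (hs hf),
    fun f hf e he => h.cmp f (hs hf) e (hs he)⟩

lemma WW_insert (θ L : ℝ) (q H0 : ℕ) {D : Finset Ed} {e : Ed} (hD : ∀ f ∈ D, f.y < e.y) :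
    WW θ L q H0 (insert e D) = wt θ L q H0 D e * WW θ L q H0 D := by
  have he : e ∉ D := fun h => lt_irrefl _ (hD e h)
  unfold WW
  rw [Finset.prod_insert he]
  have h1 : low (insert e D) e = D := by
    ext f
    rw [mem_low, mem_insert]
    constructor
    · rintro ⟨rfl | h, h2⟩
      · exact absurd h2 (lt_irrefl _)
      · exact h
    · intro h; exact ⟨Or.inr h, hD f h⟩
  rw [h1]
  congr 1
  refine Finset.prod_congr rfl fun f hf => ?_
  have h2 : low (insert e D) f = low D f := by
    ext x
    rw [mem_low, mem_low, mem_insert]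
    constructor
    · rintro ⟨rfl | h, h2⟩
      · have := hD f hf
        omega
      · exact ⟨h, h2⟩
    · rintro ⟨h, h2⟩; exact ⟨Or.inr h, h2⟩
  rw [h2]

lemma CC_zero (N Y : ℕ) : CC N 0 Y = {∅} := by
  ext C
  rw [mem_CC, mem_singleton, card_eq_zero]
  constructor
  · rintro ⟨-, h, -⟩; exact h
  · rintro rfl
    exact ⟨⟨by simp, by simp, by simp⟩, rfl, by simp⟩

lemma CC_succ (N k Y : ℕ) : CC N (k + 1) (Y + 1) ⊆ CC N (k + 1) Y ∪
    ((CC N k Y).sigma (fun D => Top D Y)).image (fun p => insert p.2 p.1) := by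
  intro C hC
  rw [mem_CC] at hC
  obtain ⟨hCl, hcard, hy⟩ := hC
  rw [mem_union]
  by_cases htop : ∃ e ∈ C, e.y = Y
  · right
    obtain ⟨e, he, hey⟩ := htop
    rw [mem_image]
    refine ⟨⟨C.erase e, e⟩, ?_, Finset.insert_erase he⟩
    rw [mem_sigma]
    have hlt : ∀ f ∈ C.erase e, f.y < Y := by
      intro f hf
      rw [mem_erase] at hf
      have h1 := hy f hf.2
      have h2 : f.y ≠ Y := fun h => hf.1 (hCl.inj f hf.2 e he (by omega))
      omega
    constructor
    · rw [mem_CC]
      refine ⟨hCl.sub (erase_subset _ _), ?_, hlt⟩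
      rw [card_erase_of_mem he, hcard]; rfl
    · simp only
      rw [← hey]
      refine mem_Top (hCl.ord e he) (fun f hf => hCl.ord f (mem_of_mem_erase hf)) fun f hf => ?_
      exact hCl.cmp f (mem_of_mem_erase hf) e he (by rw [hey]; exact hlt f hf)
  · left
    push Not at htop
    rw [mem_CC]
    exact ⟨hCl, hcard, fun e he => by have := hy e he; have := htop e he; omega⟩

lemma sum_CC {θ L : ℝ} {q H0 N : ℕ} (hθ : 0 < θ) (hL : θ ≤ L)
    (hq : N * Real.exp (-θ * q) ≤ L / θ) (hH : (H0 : ℝ) ≤ L / θ) (Y : ℕ) : ∀ k, Y ≤ N →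
    ∑ C ∈ CC N k Y, WW θ L q H0 C ≤ (Y.choose k : ℝ) * (3 * N * L / θ ^ 3) ^ k := by
  have hLp : 0 < L := lt_of_lt_of_le hθ hL
  set Λ := 3 * N * L / θ ^ 3 with hΛ
  have hΛ0 : 0 ≤ Λ := by positivity
  induction Y with
  | zero =>
    intro k _
    rcases k with _ | k
    · rw [CC_zero]; simp [WW]
    · have : CC N (k + 1) 0 = ∅ := by
        rw [Finset.eq_empty_iff_forall_notMem]
        intro C hC
        rw [mem_CC] at hC
        obtain ⟨-, h1, h2⟩ := hC
        obtain ⟨e, he⟩ := Finset.card_pos.mp (by omega : 0 < C.card)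
        exact absurd (h2 e he) (Nat.not_lt_zero _)
      rw [this]; simp
  | succ Y ih =>
    intro k hY
    rcases k with _ | k
    · rw [CC_zero]; simp [WW]
    · have hg : ∑ C ∈ ((CC N k Y).sigma (fun D => Top D Y)).image (fun p => insert p.2 p.1),
          WW θ L q H0 C ≤ (Y.choose k : ℝ) * Λ ^ k * Λ := by
        have hinj : Set.InjOn (fun p : (_ : Finset Ed) × Ed => insert p.2 p.1)
            ((CC N k Y).sigma (fun D => Top D Y) : Set ((_ : Finset Ed) × Ed)) := by
          rintro ⟨D, e⟩ h1 ⟨D', e'⟩ h2 heq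
          rw [Finset.mem_coe, mem_sigma, mem_CC] at h1 h2
          simp only at h1 h2 heq
          have hy := Top_y h1.2
          have hy' := Top_y h2.2
          have hD : D = D' := by
            ext f
            constructor
            · intro hf
              have h3 : f ∈ insert e' D' := by rw [← heq]; exact mem_insert_of_mem hf
              rcases mem_insert.mp h3 with h4 | h4
              · have := h1.1.2.2 f hf
                rw [h4] at this; omega
              · exact h4
            · intro hf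
              have h3 : f ∈ insert e D := by rw [heq]; exact mem_insert_of_mem hf
              rcases mem_insert.mp h3 with h4 | h4
              · have := h2.1.2.2 f hf
                rw [h4] at this; omega
              · exact h4
          subst hD
          have he : e = e' := by
            have h3 : e ∈ insert e' D := by rw [← heq]; exact mem_insert_self _ _
            rcases mem_insert.mp h3 with h4 | h4
            · exact h4
            · have := h1.1.2.2 e h4
              omega
          rw [he]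
        rw [Finset.sum_image hinj, Finset.sum_sigma]
        calc _ = ∑ D ∈ CC N k Y, WW θ L q H0 D * ∑ e ∈ Top D Y, wt θ L q H0 D e := by
              refine Finset.sum_congr rfl fun D hD => ?_
              rw [Finset.mul_sum]
              refine Finset.sum_congr rfl fun e he => ?_
              simp only
              rw [WW_insert, mul_comm]
              intro f hf
              rw [Top_y he]
              rw [mem_CC] at hD
              exact hD.2.2 f hf
          _ ≤ ∑ D ∈ CC N k Y, WW θ L q H0 D * Λ := by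
              refine Finset.sum_le_sum fun D _ => ?_
              exact mul_le_mul_of_nonneg_left (sum_Top hθ hL hq hH D (by omega)) (WW_pos _ _ _ _ _).le
          _ = (∑ D ∈ CC N k Y, WW θ L q H0 D) * Λ := by rw [Finset.sum_mul]
          _ ≤ (Y.choose k : ℝ) * Λ ^ k * Λ := mul_le_mul_of_nonneg_right (ih k (by omega)) hΛ0
      calc ∑ C ∈ CC N (k + 1) (Y + 1), WW θ L q H0 C
          ≤ ∑ C ∈ CC N (k + 1) Y ∪
            ((CC N k Y).sigma (fun D => Top D Y)).image (fun p => insert p.2 p.1), WW θ L q H0 C :=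
            Finset.sum_le_sum_of_subset_of_nonneg (CC_succ N k Y) fun _ _ _ => (WW_pos _ _ _ _ _).le
        _ ≤ ∑ C ∈ CC N (k + 1) Y, WW θ L q H0 C + ∑ C ∈
            ((CC N k Y).sigma (fun D => Top D Y)).image (fun p => insert p.2 p.1), WW θ L q H0 C := by
            rw [← Finset.sum_union_inter]
            have : 0 ≤ ∑ C ∈ CC N (k + 1) Y ∩ ((CC N k Y).sigma (fun D => Top D Y)).image
              (fun p => insert p.2 p.1), WW θ L q H0 C :=
              Finset.sum_nonneg fun _ _ => (WW_pos _ _ _ _ _).le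
            linarith
        _ ≤ (Y.choose (k + 1) : ℝ) * Λ ^ (k + 1) + (Y.choose k : ℝ) * Λ ^ k * Λ :=
            add_le_add (ih (k + 1) (by omega)) hg
        _ = ((Y + 1).choose (k + 1) : ℝ) * Λ ^ (k + 1) := by
            rw [Nat.choose_succ_succ]; push_cast; ring

/-! ### total resources -/

lemma sum_ph {N : ℕ} {C : Finset Ed} (h : Cl N C) : ∑ e ∈ C, ph (low C e) e.y e.a e.d ≤ N := by
  have : ∑ e ∈ C, ph (low C e) e.y e.a e.d =
      (C.biUnion (fun e => (FF (low C e) e.y).filter (fun w => e.a ≤ w ∧ w ≤ e.d))).card := by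
    rw [Finset.card_biUnion]
    · rfl
    · intro e he f hf hne
      rw [Finset.mem_coe] at he hf
      have key : ∀ e ∈ C, ∀ f ∈ C, f.y < e.y →
          Disjoint ((FF (low C e) e.y).filter (fun w => e.a ≤ w ∧ w ≤ e.d))
            ((FF (low C f) f.y).filter (fun w => f.a ≤ w ∧ w ≤ f.d)) := by
        intro e _ f hf hy
        rw [Finset.disjoint_left]
        intro w hw hw'
        simp only [FF, mem_filter, mem_range] at hw hw'
        exact hw.1.2 f (mem_low.mpr ⟨hf, hy⟩) hw'.2
      rcases Nat.lt_trichotomy e.y f.y with h1 | h1 | h1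
      · exact (key f hf e he h1).symm
      · exact absurd (h.inj e he f hf h1) hne
      · exact key e he f hf h1
  rw [this]
  calc _ ≤ (range N).card := by
        refine card_le_card fun w hw => ?_
        simp only [mem_biUnion, FF, mem_filter, mem_range] at hw
        obtain ⟨e, he, hw, -⟩ := hw
        have := (h.ord e he).2.2.2.2
        rw [mem_range]; omega
    _ = N := card_range N

lemma sum_alv {N : ℕ} {C : Finset Ed} (h : Cl N C) :
    ∑ e ∈ C, (alv (low C e) e.a e.b).card ≤ N := by
  rw [← Finset.card_biUnion]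
  · calc _ ≤ (range N).card := by
          refine card_le_card fun w hw => ?_
          simp only [mem_biUnion, alv, mem_filter, mem_Ioo] at hw
          obtain ⟨e, he, hw, -⟩ := hw
          have := h.ord e he
          unfold Ord at this
          rw [mem_range]; omega
      _ = N := card_range N
  · intro e he f hf hne
    rw [Finset.mem_coe] at he hf
    have key : ∀ e ∈ C, ∀ f ∈ C, f.y < e.y →
        Disjoint (alv (low C e) e.a e.b) (alv (low C f) f.a f.b) := by
      intro e _ f hf hy
      rw [Finset.disjoint_left]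
      intro w hw hw'
      simp only [alv, mem_filter, mem_Ioo] at hw hw'
      exact hw.2 f (mem_low.mpr ⟨hf, hy⟩) hw'.1
    rcases Nat.lt_trichotomy e.y f.y with h1 | h1 | h1
    · exact (key f hf e he h1).symm
    · exact absurd (h.inj e he f hf h1) hne
    · exact key e he f hf h1

lemma WW_ge {θ L : ℝ} {q H0 N : ℕ} (hθ : 0 < θ) (hLp : 0 < L) {C : Finset Ed} (h : Cl N C)
    (hT : ∑ e ∈ C, Tr q H0 (low C e) e.a e.c e.d ≤ L * N) :
    Real.exp (-θ * (3 * N)) ≤ WW θ L q H0 C := by
  unfold WW wt
  simp only [← Real.exp_add]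
  rw [← Real.exp_sum]
  apply Real.exp_le_exp.mpr
  have h1 : ∑ e ∈ C, (-θ * (ph (low C e) e.y e.a e.d : ℝ) + (-θ * ((alv (low C e) e.a e.b).card : ℝ) +
      -θ * (Tr q H0 (low C e) e.a e.c e.d / L))) =
      -θ * (∑ e ∈ C, (ph (low C e) e.y e.a e.d : ℝ) + ∑ e ∈ C, ((alv (low C e) e.a e.b).card : ℝ) +
      (∑ e ∈ C, Tr q H0 (low C e) e.a e.c e.d) / L) := by
    rw [Finset.sum_div, ← Finset.sum_add_distrib, ← Finset.sum_add_distrib, Finset.mul_sum]
    refine Finset.sum_congr rfl fun e _ => by ring
  rw [h1]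
  have h2 : ∑ e ∈ C, (ph (low C e) e.y e.a e.d : ℝ) ≤ N := by exact_mod_cast sum_ph h
  have h3 : ∑ e ∈ C, ((alv (low C e) e.a e.b).card : ℝ) ≤ N := by exact_mod_cast sum_alv h
  have h4 : (∑ e ∈ C, Tr q H0 (low C e) e.a e.c e.d) / L ≤ N := by
    rw [div_le_iff₀ hLp]; linarith
  nlinarith

/-- **Counting theorem.** -/
theorem card_CC {θ L : ℝ} {q H0 N : ℕ} (hθ : 0 < θ) (hL : θ ≤ L)
    (hq : N * Real.exp (-θ * q) ≤ L / θ) (hH : (H0 : ℝ) ≤ L / θ)
    (hT : ∀ C, Cl N C → ∑ e ∈ C, Tr q H0 (low C e) e.a e.c e.d ≤ L * N) (k : ℕ) :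
    ((CC N k N).card : ℝ) ≤ Real.exp (θ * (3 * N)) * ((N.choose k : ℝ) * (3 * N * L / θ ^ 3) ^ k) := by
  have hLp : 0 < L := lt_of_lt_of_le hθ hL
  have h1 := sum_CC hθ hL hq hH N k le_rfl
  have h2 : ((CC N k N).card : ℝ) * Real.exp (-θ * (3 * N)) ≤ ∑ C ∈ CC N k N, WW θ L q H0 C := by
    calc _ = ∑ C ∈ CC N k N, Real.exp (-θ * (3 * N)) := by rw [Finset.sum_const, nsmul_eq_mul]
      _ ≤ _ := Finset.sum_le_sum fun C hC => WW_ge hθ hLp (mem_CC.mp hC).1 (hT C (mem_CC.mp hC).1)
  have h3 : Real.exp (θ * (3 * N)) * Real.exp (-θ * (3 * N)) = 1 := by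
    rw [← Real.exp_add]; simp
  calc ((CC N k N).card : ℝ) = Real.exp (θ * (3 * N)) *
        (((CC N k N).card : ℝ) * Real.exp (-θ * (3 * N))) := by
        rw [mul_left_comm, h3, mul_one]
    _ ≤ _ := mul_le_mul_of_nonneg_left (h2.trans h1) (Real.exp_pos _).le

end Pool.Agent.H70.NC
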