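import Mathlib

/-!
# Energy (dyadic variance) lemma

A decreasing family of sets `X m` of positions; a position `v ∈ X m` sees a hole at scale `m` if
there is an interval of length comparable to `2^m` to the left of `v`, within distance `2^(m+1)`,
which is nearly disjoint from `X (m+1)`. The total number of (position, scale) pairs is small
compared with (number of positions) × (number of scales).
-/

set_option autoImplicit false

namespace Pool.Agent.H70.NC

open Finset

/-- number of elements of `X` in the dyadic interval `[t 2^j, (t+1) 2^j)` -/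
def cnt (j : ℕ) (X : Finset ℕ) (t : ℕ) : ℕ := (X.filter (fun v => v / 2 ^ j = t)).card

/-- energy of `X` at dyadic level `j` -/
noncomputable def en (M j : ℕ) (X : Finset ℕ) : ℝ :=
  ∑ t ∈ range (2 ^ (M - j)), ((cnt j X t : ℝ)) ^ 2 / 2 ^ j

/-- dyadic sub-intervals at level `l` of the interval `t` at level `u` -/
def fib (M l u t : ℕ) : Finset ℕ := (range (2 ^ (M - l))).filter (fun s => s / 2 ^ (u - l) = t)

lemma div_lt_of_mem {M j v : ℕ} (hj : j ≤ M) (hv : v < 2 ^ M) : v / 2 ^ j < 2 ^ (M - j) := by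
  rw [Nat.div_lt_iff_lt_mul (by positivity), ← pow_add, Nat.sub_add_cancel hj]
  exact hv

lemma div_div_pow {l u : ℕ} (h : l ≤ u) (v : ℕ) : v / 2 ^ l / 2 ^ (u - l) = v / 2 ^ u := by
  rw [Nat.div_div_eq_div_mul, ← pow_add, Nat.add_sub_cancel' h]

lemma cnt_sum {M l u : ℕ} (hlu : l ≤ u) (huM : u ≤ M) {X : Finset ℕ}
    (hX : ∀ v ∈ X, v < 2 ^ M) (t : ℕ) :
    cnt u X t = ∑ s ∈ fib M l u t, cnt l X s := by
  unfold cnt
  rw [Finset.card_eq_sum_card_fiberwise (f := fun v => v / 2 ^ l) (t := fib M l u t)]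
  · refine Finset.sum_congr rfl fun s hs => ?_
    congr 1
    ext v
    simp only [mem_filter]
    constructor
    · rintro ⟨⟨h1, h2⟩, h3⟩
      exact ⟨h1, h3⟩
    · rintro ⟨h1, h3⟩
      refine ⟨⟨h1, ?_⟩, h3⟩
      rw [← div_div_pow hlu v, h3]
      exact (mem_filter.mp hs).2
  · intro v hv
    simp only [coe_filter, Set.mem_ofPred_eq] at hv
    simp only [fib, coe_filter, mem_range, Set.mem_ofPred_eq]
    exact ⟨div_lt_of_mem (hlu.trans huM) (hX v hv.1), by rw [div_div_pow hlu, hv.2]⟩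

lemma card_fib_le (M l u t : ℕ) : (fib M l u t).card ≤ 2 ^ (u - l) := by
  have h : fib M l u t ⊆ Ico (t * 2 ^ (u - l)) ((t + 1) * 2 ^ (u - l)) := by
    intro s hs
    have h2 := (mem_filter.mp hs).2
    rw [mem_Ico]
    constructor
    · rw [← h2]; exact Nat.div_mul_le_self _ _
    · rw [← h2, add_mul, one_mul]
      have := Nat.lt_div_mul_add (a := s) (b := 2 ^ (u - l)) (by positivity)
      exact this
  calc (fib M l u t).card ≤ (Ico (t * 2 ^ (u - l)) ((t + 1) * 2 ^ (u - l))).card := card_le_card h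
    _ = 2 ^ (u - l) := by rw [Nat.card_Ico]; rw [add_mul, one_mul, Nat.add_sub_cancel_left]

/-- variance inequality -/
lemma var_ineq {S : Finset ℕ} {R : ℝ} (hR : 0 < R) (hS : (S.card : ℝ) ≤ R) (x : ℕ → ℝ)
    {s0 : ℕ} (hs0 : s0 ∈ S) :
    (x s0 - (∑ s ∈ S, x s) / R) ^ 2 ≤ ∑ s ∈ S, x s ^ 2 - (∑ s ∈ S, x s) ^ 2 / R := by
  set y := (∑ s ∈ S, x s) / R with hy
  have h1 : (x s0 - y) ^ 2 ≤ ∑ s ∈ S, (x s - y) ^ 2 :=
    Finset.single_le_sum (f := fun s => (x s - y) ^ 2) (fun s _ => sq_nonneg _) hs0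
  have h2 : ∑ s ∈ S, (x s - y) ^ 2 = ∑ s ∈ S, x s ^ 2 - 2 * y * ∑ s ∈ S, x s + S.card * y ^ 2 := by
    rw [Finset.mul_sum, ← Finset.sum_sub_distrib]
    rw [← nsmul_eq_mul, ← Finset.sum_const, ← Finset.sum_add_distrib]
    refine Finset.sum_congr rfl fun s _ => by ring
  have h3 : (∑ s ∈ S, x s) = y * R := by rw [hy]; field_simp
  have h4 : (S.card : ℝ) * y ^ 2 ≤ R * y ^ 2 := mul_le_mul_of_nonneg_right hS (sq_nonneg _)
  rw [h2] at h1
  rw [h3] at h1 ⊢
  have h5 : (y * R) ^ 2 / R = y ^ 2 * R := by field_simp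
  rw [h5]
  nlinarith

/-- energy drop inside one coarse interval -/
noncomputable def drop (M l u : ℕ) (X : Finset ℕ) (t : ℕ) : ℝ :=
  ∑ s ∈ fib M l u t, (cnt l X s : ℝ) ^ 2 / 2 ^ l - (cnt u X t : ℝ) ^ 2 / 2 ^ u

lemma drop_ge {M l u : ℕ} (hlu : l ≤ u) (huM : u ≤ M) {X : Finset ℕ}
    (hX : ∀ v ∈ X, v < 2 ^ M) {t s0 : ℕ} (hs0 : s0 ∈ fib M l u t) :
    ((cnt l X s0 : ℝ) - (cnt u X t : ℝ) / 2 ^ (u - l)) ^ 2 / 2 ^ l ≤ drop M l u X t := by
  have hv := var_ineq (S := fib M l u t) (R := (2 : ℝ) ^ (u - l)) (by positivity)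
    (by exact_mod_cast card_fib_le M l u t) (fun s => (cnt l X s : ℝ)) hs0
  have hc : (∑ s ∈ fib M l u t, (cnt l X s : ℝ)) = (cnt u X t : ℝ) := by
    rw [cnt_sum hlu huM hX t]; push_cast; rfl
  simp only [hc] at hv
  have hpow : (2 : ℝ) ^ u = 2 ^ l * 2 ^ (u - l) := by rw [← pow_add, Nat.add_sub_cancel' hlu]
  have : drop M l u X t = (∑ s ∈ fib M l u t, (cnt l X s : ℝ) ^ 2
      - (cnt u X t : ℝ) ^ 2 / 2 ^ (u - l)) / 2 ^ l := by
    unfold drop
    rw [hpow, sub_div, ← Finset.sum_div, div_div, mul_comm ((2 : ℝ) ^ l)]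
  rw [this]
  exact div_le_div_of_nonneg_right hv (by positivity)

lemma fib_nonempty {M l u t : ℕ} (hlu : l ≤ u) (huM : u ≤ M) (ht : t < 2 ^ (M - u)) :
    (fib M l u t).Nonempty := by
  refine ⟨t * 2 ^ (u - l), ?_⟩
  simp only [fib, mem_filter, mem_range]
  refine ⟨?_, by rw [Nat.mul_div_cancel _ (by positivity)]⟩
  have : 2 ^ (M - l) = 2 ^ (M - u) * 2 ^ (u - l) := by rw [← pow_add]; congr 1; omega
  rw [this]
  exact Nat.mul_lt_mul_of_pos_right ht (by positivity)

lemma drop_nonneg {M l u : ℕ} (hlu : l ≤ u) (huM : u ≤ M) {X : Finset ℕ}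
    (hX : ∀ v ∈ X, v < 2 ^ M) {t : ℕ} (ht : t < 2 ^ (M - u)) : 0 ≤ drop M l u X t := by
  obtain ⟨s0, hs0⟩ := fib_nonempty hlu huM ht
  exact le_trans (by positivity) (drop_ge hlu huM hX hs0)

lemma sum_drop {M l u : ℕ} (hlu : l ≤ u) (huM : u ≤ M) (X : Finset ℕ) :
    ∑ t ∈ range (2 ^ (M - u)), drop M l u X t = en M l X - en M u X := by
  unfold drop en
  rw [Finset.sum_sub_distrib]
  congr 1
  rw [← Finset.sum_fiberwise_of_maps_to (s := range (2 ^ (M - l))) (t := range (2 ^ (M - u)))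
    (g := fun s => s / 2 ^ (u - l))]
  · rfl
  · intro s hs
    rw [mem_range] at hs ⊢
    rw [Nat.div_lt_iff_lt_mul (by positivity), ← pow_add]
    convert hs using 2
    omega

lemma en_level {M l u : ℕ} (hlu : l ≤ u) (huM : u ≤ M) {X : Finset ℕ}
    (hX : ∀ v ∈ X, v < 2 ^ M) : en M u X ≤ en M l X := by
  have h := sum_drop hlu huM X
  have h2 : 0 ≤ ∑ t ∈ range (2 ^ (M - u)), drop M l u X t :=
    Finset.sum_nonneg fun t ht => drop_nonneg hlu huM hX (mem_range.mp ht)
  linarith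

lemma en_mono {M j : ℕ} {X Y : Finset ℕ} (h : X ⊆ Y) : en M j X ≤ en M j Y := by
  unfold en
  refine Finset.sum_le_sum fun t _ => ?_
  have : cnt j X t ≤ cnt j Y t := card_le_card (filter_subset_filter _ h)
  gcongr

lemma en_nonneg (M j : ℕ) (X : Finset ℕ) : 0 ≤ en M j X :=
  Finset.sum_nonneg fun _ _ => by positivity

lemma en_zero_le {M : ℕ} (X : Finset ℕ) : en M 0 X ≤ 2 ^ M := by
  unfold en
  calc ∑ t ∈ range (2 ^ (M - 0)), ((cnt 0 X t : ℝ)) ^ 2 / 2 ^ 0
      ≤ ∑ t ∈ range (2 ^ M), (1 : ℝ) := by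
        refine Finset.sum_le_sum fun t _ => ?_
        have : cnt 0 X t ≤ 1 := by
          unfold cnt
          rw [Finset.card_le_one]
          intro a ha b hb
          simp only [pow_zero, Nat.div_one, mem_filter] at ha hb
          omega
        have h2 : (cnt 0 X t : ℝ) ≤ 1 := by exact_mod_cast this
        simp only [pow_zero, div_one]
        have h0 : (0 : ℝ) ≤ cnt 0 X t := by positivity
        nlinarith
    _ = 2 ^ M := by simp

/-- bound on the number of elements in a coarse interval containing a hole -/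
lemma cnt_le_of_hole {M l u : ℕ} (hlu : l ≤ u) (huM : u ≤ M) {X : Finset ℕ}
    (hX : ∀ v ∈ X, v < 2 ^ M) {t s0 : ℕ} (hs0 : s0 ∈ fib M l u t) {q : ℕ} {ε : ℝ} (hε : 0 < ε)
    (hq : (cnt l X s0) ≤ q) (hqε : 2 * (q : ℝ) ≤ ε * 2 ^ l) :
    (cnt u X t : ℝ) ≤ ε * 2 ^ u + 4 * 2 ^ (u - l) / ε * drop M l u X t := by
  have hd := drop_ge hlu huM hX hs0
  set n : ℝ := (cnt u X t : ℝ) with hn
  set x0 : ℝ := (cnt l X s0 : ℝ) with hx0
  set R : ℝ := (2 : ℝ) ^ (u - l) with hR
  have hRpos : 0 < R := by positivity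
  set B : ℝ := (2 : ℝ) ^ l with hB
  have hBpos : 0 < B := by positivity
  have hpow : (2 : ℝ) ^ u = B * R := by rw [hB, hR, ← pow_add, Nat.add_sub_cancel' hlu]
  rw [hpow]
  have hx0q : x0 ≤ q := by rw [hx0]; exact_mod_cast hq
  have hx0n : 0 ≤ x0 := by positivity
  have hdn : 0 ≤ drop M l u X t := le_trans (by positivity) hd
  by_cases h : n < ε * (B * R)
  · have : 0 ≤ 4 * R / ε * drop M l u X t := by positivity
    linarith
  · push Not at h
    have h1 : ε * B ≤ n / R := by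
      rw [le_div_iff₀ hRpos]; linarith
    have h2 : n / R / 2 ≤ n / R - x0 := by linarith
    have hnR : 0 ≤ n / R := by positivity
    have h3 : (n / R / 2) ^ 2 ≤ (x0 - n / R) ^ 2 := by
      have : (x0 - n / R) ^ 2 = (n / R - x0) ^ 2 := by ring
      rw [this]
      exact pow_le_pow_left₀ (by positivity) h2 2
    have h4 : (n / R / 2) ^ 2 / B ≤ drop M l u X t :=
      (div_le_div_of_nonneg_right h3 hBpos.le).trans hd
    have h5 : n ≤ 4 * R / ε * ((n / R / 2) ^ 2 / B) := by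
      have : 4 * R / ε * ((n / R / 2) ^ 2 / B) = n * (n / R) / (ε * B) := by
        field_simp
        ring
      rw [this, le_div_iff₀ (by positivity)]
      have hn0 : 0 ≤ n := by positivity
      nlinarith
    have h6 : 4 * R / ε * ((n / R / 2) ^ 2 / B) ≤ 4 * R / ε * drop M l u X t :=
      mul_le_mul_of_nonneg_left h4 (by positivity)
    have h7 : 0 ≤ ε * (B * R) := by positivity
    linarith

/-- the number of positions too close to the left end of their coarse interval -/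
lemma card_bad {M u m : ℕ} (huM : u ≤ M) (hm : m ≤ u) :
    ((range (2 ^ M)).filter (fun v => v % 2 ^ u < 2 ^ m)).card ≤ 2 ^ (M - u) * 2 ^ m := by
  have hinj : Set.InjOn (fun v => (v / 2 ^ u, v % 2 ^ u))
      ((range (2 ^ M)).filter (fun v => v % 2 ^ u < 2 ^ m) : Set ℕ) := by
    intro v _ w _ h
    simp only [Prod.mk.injEq] at h
    rw [← Nat.div_add_mod v (2 ^ u), ← Nat.div_add_mod w (2 ^ u), h.1, h.2]
  have hmaps : ∀ v ∈ (range (2 ^ M)).filter (fun v => v % 2 ^ u < 2 ^ m),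
      (v / 2 ^ u, v % 2 ^ u) ∈ (range (2 ^ (M - u)) ×ˢ range (2 ^ m)) := by
    intro v hv
    rw [mem_filter, mem_range] at hv
    rw [mem_product, mem_range, mem_range]
    exact ⟨div_lt_of_mem huM hv.1, hv.2⟩
  calc _ ≤ (range (2 ^ (M - u)) ×ˢ range (2 ^ m)).card := Finset.card_le_card_of_injOn _ hmaps hinj
    _ = 2 ^ (M - u) * 2 ^ m := by rw [card_product, card_range, card_range]

/-- `v` sees a hole at scale `m` (parameter `g'`), tolerance `q` -/
def Hole (X : ℕ → Finset ℕ) (q g' m v : ℕ) : Prop :=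
  ∃ s, s + 2 ^ (m - g' + 1) ≤ v ∧ v < s + 2 ^ (m + 1) ∧
    ((X (m + 1)).filter (fun w => s ≤ w ∧ w < s + 2 ^ (m - g' + 1))).card ≤ q

lemma hole_scale {M g g' m q : ℕ} {ε : ℝ} (hε : 0 < ε) (hg : 1 ≤ g) (hg'm : g' ≤ m)
    (hmM : m + g ≤ M) (X : ℕ → Finset ℕ) (hanti : ∀ i j, i ≤ j → X j ⊆ X i)
    (hX : ∀ i, ∀ v ∈ X i, v < 2 ^ M) (hqε : 2 * (q : ℝ) ≤ ε * 2 ^ (m - g'))
    (H : Finset ℕ) (hH : ∀ v ∈ H, v ∈ X m ∧ Hole X q g' m v) :
    (H.card : ℝ) ≤ 2 ^ (M - (m + g)) * 2 ^ (m + 1) + ((X m).card - (X (m + g)).card) + ε * 2 ^ M +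
      4 * 2 ^ (g + g') / ε * (en M (m - g') (X (m - g')) - en M (m + g) (X (m + g))) := by
  classical
  set l := m - g' with hl
  set u := m + g with hu
  set Y := X u with hY
  have hlu : l ≤ u := by omega
  have hYX : ∀ v ∈ Y, v < 2 ^ M := hX u
  -- decomposition
  set Bad := (range (2 ^ M)).filter (fun v => v % 2 ^ u < 2 ^ (m + 1)) with hBad
  set Q := (range (2 ^ (M - u))).filter (fun t => ∃ s0 ∈ fib M l u t, cnt l Y s0 ≤ q) with hQ
  have hsub : H ⊆ Bad ∪ (X m \ Y) ∪ Q.biUnion (fun t => Y.filter (fun v => v / 2 ^ u = t)) := by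
    intro v hv
    obtain ⟨hvX, s, hs1, hs2, hs3⟩ := hH v hv
    have hvM : v < 2 ^ M := hX m v hvX
    simp only [mem_union, mem_biUnion, mem_filter, mem_sdiff]
    by_cases hb : v % 2 ^ u < 2 ^ (m + 1)
    · exact Or.inl (Or.inl (by rw [hBad, mem_filter, mem_range]; exact ⟨hvM, hb⟩))
    by_cases hy : v ∈ Y
    · right
      refine ⟨v / 2 ^ u, ?_, hy, rfl⟩
      rw [hQ, mem_filter, mem_range]
      refine ⟨div_lt_of_mem hmM hvM, ?_⟩
      -- the dyadic interval inside the hole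
      set s0 := s / 2 ^ l + 1 with hs0
      have hp : 0 < 2 ^ l := by positivity
      have e1 : s < s0 * 2 ^ l := by
        rw [hs0, add_mul, one_mul]
        exact Nat.lt_div_mul_add hp
      have e2 : s0 * 2 ^ l ≤ s + 2 ^ l := by
        rw [hs0, add_mul, one_mul]
        exact Nat.add_le_add_right (Nat.div_mul_le_self _ _) _
      have e3 : 2 ^ (m - g' + 1) = 2 ^ l + 2 ^ l := by rw [← hl, pow_succ]; ring
      rw [e3] at hs1 hs3
      push Not at hb
      have hvdm := Nat.div_add_mod v (2 ^ u)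
      have hmod : v % 2 ^ u < 2 ^ u := Nat.mod_lt _ (by positivity)
      -- left end of the coarse interval is at most s0 * 2^l
      have hL : 2 ^ u * (v / 2 ^ u) ≤ s := by omega
      have hexp : (s0 + 1) * 2 ^ l = s0 * 2 ^ l + 2 ^ l := by ring
      have hRt : (s0 + 1) * 2 ^ l ≤ v := by rw [hexp]; omega
      have hfiber : s0 / 2 ^ (u - l) = v / 2 ^ u := by
        have h2u : 2 ^ u = 2 ^ l * 2 ^ (u - l) := by rw [← pow_add, Nat.add_sub_cancel' hlu]
        have : (s0 * 2 ^ l) / 2 ^ u = s0 / 2 ^ (u - l) := by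
          rw [h2u, mul_comm s0, Nat.mul_div_mul_left _ _ hp]
        rw [← this]
        have hexp2 : (v / 2 ^ u + 1) * 2 ^ u = 2 ^ u * (v / 2 ^ u) + 2 ^ u := by ring
        rw [hexp] at hRt
        apply Nat.div_eq_of_lt_le
        · rw [mul_comm (v / 2 ^ u)]; omega
        · rw [hexp2]; omega
      refine ⟨s0, ?_, ?_⟩
      · rw [fib, mem_filter, mem_range]
        refine ⟨?_, hfiber⟩
        have h1 : (s0 + 1) * 2 ^ l < 2 ^ (M - l) * 2 ^ l := by
          rw [← pow_add, Nat.sub_add_cancel (by omega)]; omega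
        have h2 := Nat.lt_of_mul_lt_mul_right h1
        omega
      · refine le_trans (card_le_card ?_) hs3
        intro w hw
        rw [mem_filter] at hw ⊢
        refine ⟨hanti (m + 1) u (by omega) hw.1, ?_⟩
        have hw2 := hw.2
        have h1 : s0 * 2 ^ l ≤ w := by rw [← hw2]; exact Nat.div_mul_le_self _ _
        have h2 : w < s0 * 2 ^ l + 2 ^ l := by
          rw [← hw2]; exact Nat.lt_div_mul_add hp
        omega
    · exact Or.inl (Or.inr ⟨hvX, hy⟩)
  have hcard : (H.card : ℝ) ≤ (Bad.card : ℝ) + ((X m \ Y).card : ℝ) +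
      ∑ t ∈ Q, (cnt u Y t : ℝ) := by
    have h1 : H.card ≤ Bad.card + (X m \ Y).card +
        ∑ t ∈ Q, (Y.filter (fun v => v / 2 ^ u = t)).card := by
      refine (card_le_card hsub).trans ((card_union_le _ _).trans ?_)
      refine Nat.add_le_add (card_union_le _ _) card_biUnion_le
    exact_mod_cast h1
  have hBadc : (Bad.card : ℝ) ≤ 2 ^ (M - (m + g)) * 2 ^ (m + 1) := by
    exact_mod_cast card_bad (M := M) (u := u) (m := m + 1) hmM (by omega)
  have hdiff : ((X m \ Y).card : ℝ) = (X m).card - (X (m + g)).card := by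
    have hYm : Y ⊆ X m := hanti m u (by omega)
    have := Finset.card_sdiff_add_card_eq_card hYm
    rw [← hY]
    have h2 : (((X m \ Y).card + Y.card : ℕ) : ℝ) = (X m).card := by exact_mod_cast this
    push_cast at h2
    linarith
  have hQs : ∑ t ∈ Q, (cnt u Y t : ℝ) ≤
      ε * 2 ^ M + 4 * 2 ^ (g + g') / ε * (en M l (X l) - en M u (X u)) := by
    have hG : u - l = g + g' := by omega
    calc ∑ t ∈ Q, (cnt u Y t : ℝ)
        ≤ ∑ t ∈ Q, (ε * 2 ^ u + 4 * 2 ^ (u - l) / ε * drop M l u Y t) := by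
          refine Finset.sum_le_sum fun t ht => ?_
          obtain ⟨_, s0, hs0, hs0q⟩ := mem_filter.mp ht
          exact cnt_le_of_hole hlu hmM hYX hs0 hε hs0q hqε
      _ ≤ ∑ t ∈ range (2 ^ (M - u)), (ε * 2 ^ u + 4 * 2 ^ (u - l) / ε * drop M l u Y t) := by
          refine Finset.sum_le_sum_of_subset_of_nonneg (filter_subset _ _) fun t ht _ => ?_
          have := drop_nonneg hlu hmM hYX (mem_range.mp ht)
          positivity
      _ = ε * 2 ^ M + 4 * 2 ^ (u - l) / ε * (en M l Y - en M u Y) := by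
          rw [Finset.sum_add_distrib, Finset.sum_const, card_range, nsmul_eq_mul,
            ← Finset.mul_sum, sum_drop hlu hmM]
          congr 1
          push_cast
          have : (2 : ℝ) ^ M = 2 ^ (M - u) * 2 ^ u := by
            rw [← pow_add, Nat.sub_add_cancel hmM]
          rw [this]; ring
      _ ≤ ε * 2 ^ M + 4 * 2 ^ (g + g') / ε * (en M l (X l) - en M u (X u)) := by
          rw [hG]
          have : en M l Y ≤ en M l (X l) := en_mono (hanti l u hlu)
          gcongr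
  linarith

/-- telescoping of windows -/
lemma window_sum {f : ℕ → ℝ} (hf : ∀ i j, i ≤ j → f j ≤ f i) (hpos : ∀ i, 0 ≤ f i) (w : ℕ) (n : ℕ) :
    ∑ i ∈ range n, (f i - f (i + w)) ≤ w * f 0 := by
  induction w with
  | zero => simp
  | succ w ih =>
    have h1 : ∀ i ∈ range n, f i - f (i + (w + 1)) = (f i - f (i + w)) + (f (i + w) - f (i + w + 1)) := by
      intro i _; rw [← add_assoc]; ring
    rw [Finset.sum_congr rfl h1, Finset.sum_add_distrib]
    have h2 : ∑ i ∈ range n, (f (i + w) - f (i + w + 1)) = f w - f (n + w) := by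
      have := Finset.sum_range_sub' (fun i => f (i + w)) n
      simp only [zero_add] at this
      rw [← this]
      refine Finset.sum_congr rfl fun i _ => ?_
      ring_nf
    rw [h2]
    have h3 := hf 0 w (Nat.zero_le _)
    have h4 := hpos (n + w)
    push_cast
    linarith

/-- **Energy lemma.** -/
lemma energy_lemma {M g g' m0 q : ℕ} {ε : ℝ} (hε : 0 < ε) (hg : 1 ≤ g) (hg' : g' ≤ m0)
    (X : ℕ → Finset ℕ) (hanti : ∀ i j, i ≤ j → X j ⊆ X i)
    (hX : ∀ i, ∀ v ∈ X i, v < 2 ^ M) (hqε : 2 * (q : ℝ) ≤ ε * 2 ^ (m0 - g'))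
    (H : ℕ → Finset ℕ) (hH : ∀ m, m0 ≤ m → ∀ v ∈ H m, v ∈ X m ∧ Hole X q g' m v) :
    ∑ m ∈ Ico m0 (M + 1), ((H m).card : ℝ) ≤
      (2 ^ M : ℝ) * ((M + 1) * (2 / 2 ^ g + ε) + (2 * g + 4 * 2 ^ (g + g') / ε * (g + g'))) := by
  classical
  -- split at M - g
  have hHM : ∀ m, m0 ≤ m → ((H m).card : ℝ) ≤ 2 ^ M := by
    intro m hm
    have : (H m).card ≤ (range (2 ^ M)).card :=
      card_le_card fun v hv => mem_range.mpr (hX m v (hH m hm v hv).1)
    rw [card_range] at this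
    exact_mod_cast this
  set A := (Ico m0 (M + 1)).filter (fun m => m + g ≤ M) with hA
  set B := (Ico m0 (M + 1)).filter (fun m => ¬ m + g ≤ M) with hB
  have hsplit : ∑ m ∈ Ico m0 (M + 1), ((H m).card : ℝ) =
      ∑ m ∈ A, ((H m).card : ℝ) + ∑ m ∈ B, ((H m).card : ℝ) :=
    (Finset.sum_filter_add_sum_filter_not _ _ _).symm
  have hBc : B.card ≤ g := by
    have : B ⊆ Ico (M + 1 - g) (M + 1) := by
      intro m hm
      rw [hB, mem_filter, mem_Ico] at hm
      rw [mem_Ico]; omega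
    have h2 := card_le_card this
    rw [Nat.card_Ico] at h2
    omega
  have hBs : ∑ m ∈ B, ((H m).card : ℝ) ≤ g * 2 ^ M := by
    calc ∑ m ∈ B, ((H m).card : ℝ) ≤ ∑ m ∈ B, (2 ^ M : ℝ) := by
          refine Finset.sum_le_sum fun m hm => hHM m ?_
          rw [hB, mem_filter, mem_Ico] at hm; exact hm.1.1
      _ = B.card * 2 ^ M := by rw [Finset.sum_const, nsmul_eq_mul]
      _ ≤ g * 2 ^ M := by
          have : (B.card : ℝ) ≤ g := by exact_mod_cast hBc
          gcongr
  have hAc : (A.card : ℝ) ≤ M + 1 := by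
    have : A.card ≤ M + 1 := by
      refine (card_le_card (filter_subset _ _)).trans ?_
      rw [Nat.card_Ico]; omega
    exact_mod_cast this
  -- the two telescoping sums
  set f1 : ℕ → ℝ := fun i => ((X i).card : ℝ) with hf1
  set f2 : ℕ → ℝ := fun i => if i ≤ M then en M i (X i) else 0 with hf2
  have hf1a : ∀ i j, i ≤ j → f1 j ≤ f1 i := fun i j h => by
    simp only [hf1]; exact_mod_cast card_le_card (hanti i j h)
  have hf2a : ∀ i j, i ≤ j → f2 j ≤ f2 i := by
    intro i j h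
    simp only [hf2]
    by_cases hj : j ≤ M
    · rw [if_pos hj, if_pos (h.trans hj)]
      exact (en_level h hj (hX j)).trans (en_mono (hanti i j h))
    · rw [if_neg hj]
      split_ifs
      · exact en_nonneg _ _ _
      · exact le_refl _
  have hf1p : ∀ i, 0 ≤ f1 i := fun i => by simp only [hf1]; positivity
  have hf2p : ∀ i, 0 ≤ f2 i := fun i => by
    simp only [hf2]; split_ifs
    · exact en_nonneg _ _ _
    · exact le_refl _
  have hX0 : f1 0 ≤ 2 ^ M := by
    simp only [hf1]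
    have : (X 0).card ≤ (range (2 ^ M)).card := card_le_card fun v hv => mem_range.mpr (hX 0 v hv)
    rw [card_range] at this
    exact_mod_cast this
  have hE0 : f2 0 ≤ 2 ^ M := by
    simp only [hf2]; rw [if_pos (Nat.zero_le _)]; exact en_zero_le _
  have hS1 : ∑ m ∈ A, (f1 m - f1 (m + g)) ≤ g * 2 ^ M := by
    calc ∑ m ∈ A, (f1 m - f1 (m + g)) ≤ ∑ m ∈ range (M + 1), (f1 m - f1 (m + g)) := by
          refine Finset.sum_le_sum_of_subset_of_nonneg ?_ fun m _ _ => ?_
          · intro m hm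
            rw [hA, mem_filter, mem_Ico] at hm
            rw [mem_range]; exact hm.1.2
          · have := hf1a m (m + g) (by omega); linarith
      _ ≤ g * f1 0 := window_sum hf1a hf1p g (M + 1)
      _ ≤ g * 2 ^ M := by gcongr
  have hS2 : ∑ m ∈ A, (f2 (m - g') - f2 (m + g)) ≤ (g + g' : ℕ) * 2 ^ M := by
    have himg : ∑ m ∈ A, (f2 (m - g') - f2 (m + g)) =
        ∑ i ∈ A.image (fun m => m - g'), (f2 i - f2 (i + (g + g'))) := by
      rw [Finset.sum_image]
      · refine Finset.sum_congr rfl fun m hm => ?_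
        rw [hA, mem_filter, mem_Ico] at hm
        congr 2; omega
      · intro a ha b hb hab
        simp only [hA, coe_filter, mem_Ico, Set.mem_ofPred_eq] at ha hb
        simp only at hab
        omega
    rw [himg]
    calc ∑ i ∈ A.image (fun m => m - g'), (f2 i - f2 (i + (g + g')))
        ≤ ∑ i ∈ range (M + 1), (f2 i - f2 (i + (g + g'))) := by
          refine Finset.sum_le_sum_of_subset_of_nonneg ?_ fun m _ _ => ?_
          · intro i hi
            rw [mem_image] at hi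
            obtain ⟨m, hm, rfl⟩ := hi
            rw [hA, mem_filter, mem_Ico] at hm
            rw [mem_range]; omega
          · have := hf2a m (m + (g + g')) (by omega); linarith
      _ ≤ (g + g' : ℕ) * f2 0 := window_sum hf2a hf2p (g + g') (M + 1)
      _ ≤ (g + g' : ℕ) * 2 ^ M := by gcongr
  have hmain : ∀ m ∈ A, ((H m).card : ℝ) ≤ (2 ^ M * (2 / 2 ^ g + ε)) + (f1 m - f1 (m + g)) +
      4 * 2 ^ (g + g') / ε * (f2 (m - g') - f2 (m + g)) := by
    intro m hm
    rw [hA, mem_filter, mem_Ico] at hm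
    have hqm : 2 * (q : ℝ) ≤ ε * 2 ^ (m - g') := by
      refine hqε.trans ?_
      have : (2 : ℝ) ^ (m0 - g') ≤ 2 ^ (m - g') := by
        apply pow_le_pow_right₀ (by norm_num); omega
      gcongr
    have h := hole_scale hε hg (by omega) hm.2 X hanti hX hqm (H m) (hH m hm.1.1)
    have e1 : f2 (m - g') = en M (m - g') (X (m - g')) := by
      simp only [hf2]; rw [if_pos (by omega)]
    have e2 : f2 (m + g) = en M (m + g) (X (m + g)) := by
      simp only [hf2]; rw [if_pos hm.2]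
    have e3 : (2 : ℝ) ^ (M - (m + g)) * 2 ^ (m + 1) = 2 ^ M * (2 / 2 ^ g) := by
      have : (2 : ℝ) ^ M = 2 ^ (M - (m + g)) * 2 ^ m * 2 ^ g := by
        rw [← pow_add, ← pow_add]; congr 1; omega
      rw [this, pow_succ]; field_simp
    rw [e1, e2]
    rw [e3] at h
    simp only [hf1]
    linarith
  have hAs : ∑ m ∈ A, ((H m).card : ℝ) ≤ (M + 1) * (2 ^ M * (2 / 2 ^ g + ε)) + g * 2 ^ M +
      4 * 2 ^ (g + g') / ε * ((g + g' : ℕ) * 2 ^ M) := by
    calc ∑ m ∈ A, ((H m).card : ℝ) ≤ ∑ m ∈ A, ((2 ^ M * (2 / 2 ^ g + ε)) + (f1 m - f1 (m + g)) +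
          4 * 2 ^ (g + g') / ε * (f2 (m - g') - f2 (m + g))) := Finset.sum_le_sum hmain
      _ = A.card * (2 ^ M * (2 / 2 ^ g + ε)) + ∑ m ∈ A, (f1 m - f1 (m + g)) +
          4 * 2 ^ (g + g') / ε * ∑ m ∈ A, (f2 (m - g') - f2 (m + g)) := by
          rw [Finset.sum_add_distrib, Finset.sum_add_distrib, Finset.sum_const, nsmul_eq_mul,
            Finset.mul_sum]
      _ ≤ _ := by gcongr
  rw [hsplit]
  push_cast at hAs
  nlinarith [hAs, hBs]

end Pool.Agent.H70.NC
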