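import Pool.Agent.H70.NC.Patterns

/-!
# The multiscale system of boxes
-/

set_option autoImplicit false

namespace Pool.Agent.H70.NC

open Finset
open scoped Classical
open Model

/-- length of a cell of scale `s` -/
def len (t w s : ℕ) : ℕ := 2 ^ (t - s + 1) * w * (2 * t - s)

/-- margin of a cell of scale `s` -/
def mar (t w s : ℕ) : ℕ := 2 ^ (t - s) * w

/-- left end of the cell `(s, j)` -/
def st (t w : ℕ) : ℕ → ℕ → ℕ
  | 0, j => j * len t w 0
  | s + 1, j => st t w s (j / 2) + mar t w s + (j % 2) * len t w (s + 1)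

def us (t w s : ℕ) : ℕ := w * (2 * t - s - 1)

lemma len_succ {t w s : ℕ} (h : s < t) : len t w s = 2 * len t w (s + 1) + 2 * mar t w s := by
  obtain ⟨k, rfl⟩ := Nat.exists_eq_add_of_lt h
  unfold len mar
  have e1 : s + k + 1 - s = k + 1 := by omega
  have e2 : s + k + 1 - (s + 1) = k := by omega
  have e3 : 2 * (s + k + 1) - s = s + 2 * k + 2 := by omega
  have e4 : 2 * (s + k + 1) - (s + 1) = s + 2 * k + 1 := by omega
  rw [e1, e2, e3, e4]
  ring

lemma len_us {t w s : ℕ} (h : s < t) : len t w (s + 1) = 2 ^ (t - s) * us t w s := by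
  unfold len us
  have e1 : t - (s + 1) + 1 = t - s := by omega
  have e2 : 2 * t - (s + 1) = 2 * t - s - 1 := by omega
  rw [e1, e2]
  ring

lemma st_left (t w s j : ℕ) : st t w (s + 1) (2 * j) = st t w s j + mar t w s := by
  rw [st]
  have e1 : 2 * j / 2 = j := by omega
  have e2 : 2 * j % 2 = 0 := by omega
  rw [e1, e2]; ring

lemma st_right (t w s j : ℕ) : st t w (s + 1) (2 * j + 1) =
    st t w s j + mar t w s + len t w (s + 1) := by
  rw [st]
  have e1 : (2 * j + 1) / 2 = j := by omega
  have e2 : (2 * j + 1) % 2 = 1 := by omega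
  rw [e1, e2]; ring

lemma st_sep {t w s : ℕ} (h : s ≤ t) : ∀ j, st t w s j + len t w s ≤ st t w s (j + 1) := by
  induction s with
  | zero => intro j; rw [st, st]; apply le_of_eq; ring
  | succ s ih =>
    intro j
    rcases Nat.even_or_odd' j with ⟨i, rfl | rfl⟩
    · rw [st_left, st_right]
    · have h1 := ih (by omega) i
      have h2 : 2 * i + 1 + 1 = 2 * (i + 1) := by ring
      rw [h2, st_left, st_right]
      have h3 := len_succ (t := t) (w := w) (s := s) (by omega)
      omega

lemma st_sep' {t w s j j' : ℕ} (h : s ≤ t) (hj : j < j') : st t w s j + len t w s ≤ st t w s j' := by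
  induction j', hj using Nat.le_induction with
  | base => exact st_sep h j
  | succ j' hj' ih =>
    have := st_sep (w := w) h j'
    omega

lemma st_sub {t w s : ℕ} (k : ℕ) : ∀ j', s + k ≤ t → st t w s (j' / 2 ^ k) ≤ st t w (s + k) j' ∧
    st t w (s + k) j' + len t w (s + k) ≤ st t w s (j' / 2 ^ k) + len t w s := by
  induction k with
  | zero => intro j' _; simp
  | succ k ih =>
    intro j' hk
    have h1 := ih (j' / 2) (by omega)
    have h2 : j' / 2 / 2 ^ k = j' / 2 ^ (k + 1) := by
      rw [Nat.div_div_eq_div_mul, pow_succ, mul_comm]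
    rw [h2] at h1
    have h3 := len_succ (t := t) (w := w) (s := s + k) (by omega)
    have h4 : st t w (s + (k + 1)) j' = st t w (s + k) (j' / 2) + mar t w (s + k) +
      (j' % 2) * len t w (s + k + 1) := rfl
    have h5 : (j' % 2) * len t w (s + k + 1) ≤ len t w (s + k + 1) := by
      calc (j' % 2) * len t w (s + k + 1) ≤ 1 * len t w (s + k + 1) :=
            Nat.mul_le_mul_right _ (by omega)
        _ = _ := one_mul _
    rw [h4, ← add_assoc]
    constructor <;> omega

/-- membership of an edge in the box `i` of the cell `(s, j)` -/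
structure InBox (t w s j i : ℕ) (e : Ed) : Prop where
  a1 : st t w s j + i * w ≤ e.a
  a2 : e.a < st t w s j + i * w + w
  b1 : st t w s j + mar t w s ≤ e.b
  b2 : e.b < st t w s j + mar t w s + len t w (s + 1)
  c1 : st t w s j + mar t w s + len t w (s + 1) + (2 ^ (t - s) - 1 - i) * us t w s ≤ e.c
  c2 : e.c < st t w s j + mar t w s + len t w (s + 1) + (2 ^ (t - s) - 1 - i) * us t w s + us t w s
  d1 : st t w s j + mar t w s + 2 * len t w (s + 1) + (2 ^ (t - s) - 1 - i) * w ≤ e.d
  d2 : e.d < st t w s j + mar t w s + 2 * len t w (s + 1) + (2 ^ (t - s) - 1 - i) * w + w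
  y1 : len t w 0 + (t - 1 - s) * (2 ^ t * w) + (2 ^ (t - s) - 1 - i) * (2 ^ s * w) ≤ e.y
  y2 : e.y < len t w 0 + (t - 1 - s) * (2 ^ t * w) + (2 ^ (t - s) - 1 - i) * (2 ^ s * w) + 2 ^ s * w

/-- valid indices -/
def Valid (t s j i : ℕ) : Prop := s < t ∧ j < 2 ^ s ∧ i < 2 ^ (t - s)

lemma rmul {K i : ℕ} (hi : i < K) (x : ℕ) : (K - 1 - i) * x + x + i * x = K * x := by
  obtain ⟨r, rfl⟩ := Nat.exists_eq_add_of_lt hi
  have : i + r + 1 - 1 - i = r := by omega
  rw [this]; ring

/-- coarse information -/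
lemma InBox.coarse {t w s j i : ℕ} {e : Ed} (h : InBox t w s j i e) (hv : Valid t s j i) :
    st t w s j ≤ e.a ∧ e.a < st t w s j + mar t w s ∧
    st t w s j + mar t w s ≤ e.b ∧ e.b < st t w s j + mar t w s + len t w (s + 1) ∧
    st t w s j + mar t w s + len t w (s + 1) ≤ e.c ∧
    e.c < st t w s j + mar t w s + 2 * len t w (s + 1) ∧
    st t w s j + mar t w s + 2 * len t w (s + 1) ≤ e.d ∧ e.d < st t w s j + len t w s ∧
    len t w 0 + (t - 1 - s) * (2 ^ t * w) ≤ e.y ∧
    e.y < len t w 0 + (t - s) * (2 ^ t * w) := by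
  obtain ⟨hs, hj, hi⟩ := hv
  obtain ⟨a1, a2, b1, b2, c1, c2, d1, d2, y1, y2⟩ := h
  have h1 := rmul hi w
  have h2 := rmul hi (us t w s)
  have h3 := rmul hi (2 ^ s * w)
  have h4 := len_succ (t := t) (w := w) hs
  have h5 := len_us (t := t) (w := w) hs
  have h6 : mar t w s = 2 ^ (t - s) * w := rfl
  have h7 : 2 ^ (t - s) * (2 ^ s * w) = 2 ^ t * w := by
    rw [← mul_assoc, ← pow_add]; congr 2; omega
  have h8 : (t - s) * (2 ^ t * w) = (t - 1 - s) * (2 ^ t * w) + 2 ^ t * w := by
    have : t - s = t - 1 - s + 1 := by omega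
    rw [this]; ring
  rw [h7] at h3
  rw [h8]
  have hw : 0 ≤ i * w := Nat.zero_le _
  refine ⟨by omega, by omega, by omega, by omega, by omega, by omega, by omega, by omega, by omega,
    by omega⟩

/-- `e` and `f` are nicely related, `e` first or outside -/
def Rel (e f : Ed) : Prop :=
  e.d < f.a ∨ (e.a < f.a ∧ f.d < e.d ∧ f.y < e.y ∧ (f.a < e.b → e.c < f.d → e.b < f.c ∧ f.c < e.c))

lemma rel_same {t w s j i i' : ℕ} {e f : Ed} (hv : Valid t s j i) (hv' : Valid t s j i')
    (he : InBox t w s j i e) (hf : InBox t w s j i' f) (hi : i < i') : Rel e f := by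
  have hc := he.coarse hv
  have hc' := hf.coarse hv'
  obtain ⟨a1, a2, b1, b2, c1, c2, d1, d2, y1, y2⟩ := he
  obtain ⟨a1', a2', b1', b2', c1', c2', d1', d2', y1', y2'⟩ := hf
  right
  have key : ∀ x, (2 ^ (t - s) - 1 - i') * x + x ≤ (2 ^ (t - s) - 1 - i) * x := by
    intro x
    have h1 : 2 ^ (t - s) - 1 - i' + 1 ≤ 2 ^ (t - s) - 1 - i := by
      have := hv'.2.2
      omega
    calc (2 ^ (t - s) - 1 - i') * x + x = (2 ^ (t - s) - 1 - i' + 1) * x := by ring
      _ ≤ _ := Nat.mul_le_mul_right _ h1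
  have k1 := key w
  have k2 := key (us t w s)
  have k3 := key (2 ^ s * w)
  have k4 : i * w + w ≤ i' * w := by
    calc i * w + w = (i + 1) * w := by ring
      _ ≤ _ := Nat.mul_le_mul_right _ hi
  refine ⟨by omega, by omega, by omega, fun _ _ => ⟨by omega, by omega⟩⟩

lemma rel_sep {t w s j j' i i' : ℕ} {e f : Ed} (hv : Valid t s j i) (hv' : Valid t s j' i')
    (he : InBox t w s j i e) (hf : InBox t w s j' i' f) (hj : j < j') : Rel e f := by
  have hc := he.coarse hv
  have hc' := hf.coarse hv'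
  have := st_sep' (w := w) (s := s) hv.1.le hj
  left; omega

lemma rel_cross {t w s s' j j' i i' : ℕ} {e f : Ed} (hv : Valid t s j i) (hv' : Valid t s' j' i')
    (he : InBox t w s j i e) (hf : InBox t w s' j' i' f) (hs : s < s') : Rel e f ∨ Rel f e := by
  have hc := he.coarse hv
  have hc' := hf.coarse hv'
  have hs't := hv'.1
  obtain ⟨k, rfl⟩ := Nat.exists_eq_add_of_lt hs
  -- the child containing the small cell
  set c := j' / 2 ^ k with hcdef
  have h1 := st_sub (t := t) (w := w) (s := s + 1) k j' (by omega)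
  have e1 : s + 1 + k = s + k + 1 := by ring
  rw [e1, ← hcdef] at h1
  have h2 := st_sub (t := t) (w := w) (s := s) 1 c (by omega)
  rw [pow_one] at h2
  rcases Nat.lt_trichotomy (c / 2) j with hlt | heq | hgt
  · right; left
    have := st_sep' (w := w) (s := s) (t := t) (by omega) hlt
    omega
  · left; right
    have hlen := len_succ (t := t) (w := w) (s := s) (by omega)
    have hy : f.y < e.y := by
      have h3 : (t - (s + k + 1)) * (2 ^ t * w) ≤ (t - 1 - s) * (2 ^ t * w) :=
        Nat.mul_le_mul_right _ (by omega)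
      omega
    rcases Nat.even_or_odd' c with ⟨i0, h4 | h4⟩
    · have h5 : i0 = j := by omega
      rw [h4, h5, st_left] at h1
      refine ⟨by omega, by omega, hy, fun _ _ => ?_⟩
      omega
    · have h5 : i0 = j := by omega
      rw [h4, h5, st_right] at h1
      refine ⟨by omega, by omega, hy, fun _ _ => ?_⟩
      omega
  · left; left
    have := st_sep' (w := w) (s := s) (t := t) (by omega) hgt
    omega

/-- distinct boxes are nicely related -/
lemma rel_all {t w s s' j j' i i' : ℕ} {e f : Ed} (hv : Valid t s j i) (hv' : Valid t s' j' i')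
    (he : InBox t w s j i e) (hf : InBox t w s' j' i' f) (hne : (s, j, i) ≠ (s', j', i')) :
    Rel e f ∨ Rel f e := by
  rcases Nat.lt_trichotomy s s' with h | h | h
  · exact rel_cross hv hv' he hf h
  · subst h
    rcases Nat.lt_trichotomy j j' with h | h | h
    · exact Or.inl (rel_sep hv hv' he hf h)
    · subst h
      rcases Nat.lt_trichotomy i i' with h | h | h
      · exact Or.inl (rel_same hv hv' he hf h)
      · subst h; exact absurd rfl hne
      · exact Or.inr (rel_same hv' hv hf he h)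
    · exact Or.inr (rel_sep hv' hv hf he h)
  · exact (rel_cross hv' hv hf he h).symm

/-- hulls are below `len 0`, top vertices above, all below `len 0 + t 2^t w` -/
lemma InBox.range {t w s j i : ℕ} {e : Ed} (h : InBox t w s j i e) (hv : Valid t s j i) :
    e.a < e.b ∧ e.b < e.c ∧ e.c < e.d ∧ e.d < len t w 0 ∧ len t w 0 ≤ e.y ∧
      e.y < len t w 0 + t * (2 ^ t * w) := by
  have hc := h.coarse hv
  have h1 := st_sub (t := t) (w := w) (s := 0) s j (by have := hv.1; omega)
  have h2 : j / 2 ^ s = 0 := Nat.div_eq_of_lt hv.2.1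
  rw [h2, zero_add] at h1
  have h3 : st t w 0 0 = 0 := by rw [st]; ring
  rw [h3] at h1
  have h4 : (t - s) * (2 ^ t * w) ≤ t * (2 ^ t * w) := Nat.mul_le_mul_right _ (by omega)
  omega

end Pool.Agent.H70.NC
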