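import Pool.Agent.H70.NC.Geometry

/-!
# Lower bound for `z (PP0 ∪ QQ0)`
-/

set_option autoImplicit false

namespace Pool.Agent.H70.NC

open Finset
open scoped Classical
open Model

/-! ### hitting a set of edges -/

lemma card_mem (n : ℕ) (hn : 1 ≤ n) (e : Fin 5 ↪o Fin (5 * n)) :
    (((PM (univ : Finset (Fin (5 * n)))).filter (fun M => e ∈ M)).card : ℝ) = Fr (n - 1) := by
  have h4 : (PM (univ : Finset (Fin (5 * n)))).filter (fun M => e ∈ M) =
      (PM (univ : Finset (Fin (5 * n)))).filter (fun M => {e} ⊆ M) := by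
    refine Finset.filter_congr fun M _ => ?_
    rw [Finset.singleton_subset_iff]
  rw [h4, PM_remove (isMatching_singleton e) (fun e _ => subset_univ _), card_PM (n - 1)]
  rw [Finset.card_sdiff_of_subset (subset_univ _), card_cov (isMatching_singleton e), card_univ,
    Fintype.card_fin, card_singleton]
  omega

lemma card_mem_two (n : ℕ) (hn : 2 ≤ n) (e f : Fin 5 ↪o Fin (5 * n)) (hne : e ≠ f) :
    (((PM (univ : Finset (Fin (5 * n)))).filter (fun M => e ∈ M ∧ f ∈ M)).card : ℝ) ≤ Fr (n - 2) := by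
  by_cases hM : IsMatching ({e, f} : Finset (Fin 5 ↪o Fin (5 * n)))
  · have h4 : (PM (univ : Finset (Fin (5 * n)))).filter (fun M => e ∈ M ∧ f ∈ M) =
        (PM (univ : Finset (Fin (5 * n)))).filter (fun M => {e, f} ⊆ M) := by
      refine Finset.filter_congr fun M _ => ?_
      rw [Finset.insert_subset_iff, Finset.singleton_subset_iff]
    apply le_of_eq
    rw [h4, PM_remove hM (fun e _ => subset_univ _), card_PM (n - 2)]
    rw [Finset.card_sdiff_of_subset (subset_univ _), card_cov hM, card_univ,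
      Fintype.card_fin, Finset.card_pair hne]
    omega
  · have : (PM (univ : Finset (Fin (5 * n)))).filter (fun M => e ∈ M ∧ f ∈ M) = ∅ := by
      rw [Finset.filter_eq_empty_iff]
      intro M hM' hef
      apply hM
      have h1 := (mem_PM.mp hM').1
      intro x hx y hy hxy
      have hx' : x ∈ M := by
        rcases mem_insert.mp hx with h | h
        · rw [h]; exact hef.1
        · rw [mem_singleton.mp h]; exact hef.2
      have hy' : y ∈ M := by
        rcases mem_insert.mp hy with h | h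
        · rw [h]; exact hef.1
        · rw [mem_singleton.mp h]; exact hef.2
      exact h1 x hx' y hy' hxy
    rw [this]
    simp only [card_empty, Nat.cast_zero]
    exact (Fr_pos _).le

lemma hit_indicator (X : ℕ) : (X : ℝ) - (X : ℝ) * ((X : ℝ) - 1) / 2 ≤ if 0 < X then 1 else 0 := by
  rcases X with _ | _ | X
  · simp
  · norm_num
  · rw [if_pos (by omega)]
    push_cast
    have : (0 : ℝ) ≤ X := by positivity
    nlinarith

/-- Bonferroni -/
lemma hit_lower (n : ℕ) (hn : 2 ≤ n) (B : Finset (Fin 5 ↪o Fin (5 * n))) :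
    (B.card : ℝ) * Fr (n - 1) - (B.card : ℝ) ^ 2 * Fr (n - 2) / 2 ≤
    (((PM (univ : Finset (Fin (5 * n)))).filter (fun M => ∃ e ∈ M, e ∈ B)).card : ℝ) := by
  set Ω := PM (univ : Finset (Fin (5 * n))) with hΩ
  have h1 : ((Ω.filter (fun M => ∃ e ∈ M, e ∈ B)).card : ℝ) =
      ∑ M ∈ Ω, if 0 < (M ∩ B).card then (1 : ℝ) else 0 := by
    rw [Finset.card_filter]
    push_cast
    refine Finset.sum_congr rfl fun M _ => ?_
    have : (∃ e ∈ M, e ∈ B) ↔ 0 < (M ∩ B).card := by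
      rw [Finset.card_pos]
      constructor
      · rintro ⟨e, h1, h2⟩; exact ⟨e, mem_inter.mpr ⟨h1, h2⟩⟩
      · rintro ⟨e, h⟩; exact ⟨e, (mem_inter.mp h).1, (mem_inter.mp h).2⟩
    by_cases h : ∃ e ∈ M, e ∈ B
    · rw [if_pos h, if_pos (this.mp h)]
    · rw [if_neg h, if_neg (fun h' => h (this.mpr h'))]
  have h2 : ∑ M ∈ Ω, ((M ∩ B).card : ℝ) = (B.card : ℝ) * Fr (n - 1) := by
    have e1 : ∀ M : Finset (Fin 5 ↪o Fin (5 * n)), ((M ∩ B).card : ℝ) =
        ∑ e ∈ B, if e ∈ M then (1 : ℝ) else 0 := by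
      intro M
      rw [Finset.sum_ite_mem, Finset.sum_const, nsmul_eq_mul, mul_one, inter_comm]
    simp only [e1]
    rw [Finset.sum_comm]
    rw [Finset.sum_congr rfl (g := fun _ => Fr (n - 1))]
    · rw [Finset.sum_const, nsmul_eq_mul]
    · intro e _
      rw [← card_mem n (by omega) e, Finset.card_filter]
      push_cast; rfl
  have h3 : ∑ M ∈ Ω, ((M ∩ B).card : ℝ) * (((M ∩ B).card : ℝ) - 1) ≤ (B.card : ℝ) ^ 2 * Fr (n - 2) := by
    have e1 : ∀ M : Finset (Fin 5 ↪o Fin (5 * n)),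
        ((M ∩ B).card : ℝ) * (((M ∩ B).card : ℝ) - 1) =
        ∑ p ∈ B.offDiag, if p.1 ∈ M ∧ p.2 ∈ M then (1 : ℝ) else 0 := by
      intro M
      have e2 : ((M ∩ B).offDiag) = B.offDiag.filter (fun p => p.1 ∈ M ∧ p.2 ∈ M) := by
        ext p
        simp only [mem_offDiag, mem_inter, mem_filter]
        tauto
      rw [← Finset.sum_filter, ← e2, Finset.sum_const, nsmul_eq_mul, mul_one, Finset.offDiag_card]
      rw [Nat.cast_sub (Nat.le_mul_self _)]
      push_cast; ring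
    simp only [e1]
    rw [Finset.sum_comm]
    calc _ ≤ ∑ p ∈ B.offDiag, Fr (n - 2) := by
          refine Finset.sum_le_sum fun p hp => ?_
          rw [mem_offDiag] at hp
          have := card_mem_two n hn p.1 p.2 hp.2.2
          rw [Finset.card_filter] at this
          push_cast at this
          exact this
      _ = (B.offDiag.card : ℝ) * Fr (n - 2) := by rw [Finset.sum_const, nsmul_eq_mul]
      _ ≤ (B.card : ℝ) ^ 2 * Fr (n - 2) := by
          refine mul_le_mul_of_nonneg_right ?_ (Fr_pos _).le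
          rw [Finset.offDiag_card, sq]
          exact_mod_cast Nat.sub_le _ _
  rw [h1]
  calc (B.card : ℝ) * Fr (n - 1) - (B.card : ℝ) ^ 2 * Fr (n - 2) / 2
      ≤ ∑ M ∈ Ω, ((M ∩ B).card : ℝ) -
        (∑ M ∈ Ω, ((M ∩ B).card : ℝ) * (((M ∩ B).card : ℝ) - 1)) / 2 := by
        rw [h2]; linarith
    _ = ∑ M ∈ Ω, (((M ∩ B).card : ℝ) - ((M ∩ B).card : ℝ) * (((M ∩ B).card : ℝ) - 1) / 2) := by
        rw [Finset.sum_sub_distrib, Finset.sum_div]
    _ ≤ _ := Finset.sum_le_sum fun M _ => hit_indicator _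

/-! ### estimates for `rho` -/

lemma rho_upper {n : ℕ} (hn : 4 ≤ n) : rho n * (n : ℝ) ^ 4 ≤ 3 / 32 := by
  unfold rho
  have h : (4 : ℝ) ≤ n := by exact_mod_cast hn
  have a1 : 4 * (n : ℝ) ≤ 5 * (n : ℝ) - 1 := by linarith
  have a2 : 4 * (n : ℝ) ≤ 5 * (n : ℝ) - 2 := by linarith
  have a3 : 4 * (n : ℝ) ≤ 5 * (n : ℝ) - 3 := by linarith
  have a4 : 4 * (n : ℝ) ≤ 5 * (n : ℝ) - 4 := by linarith
  have b1 : 0 ≤ 5 * (n : ℝ) - 1 := by linarith
  have b2 : 0 ≤ 5 * (n : ℝ) - 2 := by linarith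
  have b3 : 0 ≤ 5 * (n : ℝ) - 3 := by linarith
  have h1 : (4 * (n : ℝ)) * (4 * (n : ℝ)) * (4 * (n : ℝ)) * (4 * (n : ℝ)) ≤
      (5 * (n : ℝ) - 1) * (5 * n - 2) * (5 * n - 3) * (5 * n - 4) :=
    mul_le_mul (mul_le_mul (mul_le_mul a1 a2 (by positivity) b1) a3 (by positivity)
          (mul_nonneg b1 b2)) a4 (by positivity) (mul_nonneg (mul_nonneg b1 b2) b3)
  have h2 : (0 : ℝ) < (4 * (n : ℝ)) * (4 * (n : ℝ)) * (4 * (n : ℝ)) * (4 * (n : ℝ)) := by positivity
  rw [div_mul_eq_mul_div, div_le_div_iff₀ (by linarith) (by norm_num)]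
  calc 24 * (n : ℝ) ^ 4 * 32 = 3 * ((4 * (n : ℝ)) * (4 * (n : ℝ)) * (4 * (n : ℝ)) * (4 * (n : ℝ))) := by
        ring
    _ ≤ _ := by linarith

lemma rho_lower {n : ℕ} (hn : 1 ≤ n) : 24 / 625 ≤ rho n * (n : ℝ) ^ 4 := by
  unfold rho
  have h : (1 : ℝ) ≤ n := by exact_mod_cast hn
  have a1 : 5 * (n : ℝ) - 1 ≤ 5 * n := by linarith
  have a2 : 5 * (n : ℝ) - 2 ≤ 5 * n := by linarith
  have a3 : 5 * (n : ℝ) - 3 ≤ 5 * n := by linarith
  have a4 : 5 * (n : ℝ) - 4 ≤ 5 * n := by linarith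
  have b1 : 0 < 5 * (n : ℝ) - 1 := by linarith
  have b2 : 0 < 5 * (n : ℝ) - 2 := by linarith
  have b3 : 0 < 5 * (n : ℝ) - 3 := by linarith
  have b4 : 0 < 5 * (n : ℝ) - 4 := by linarith
  have h1 : (5 * (n : ℝ) - 1) * (5 * n - 2) * (5 * n - 3) * (5 * n - 4) ≤
      (5 * (n : ℝ)) * (5 * (n : ℝ)) * (5 * (n : ℝ)) * (5 * (n : ℝ)) :=
    mul_le_mul (mul_le_mul (mul_le_mul a1 a2 b2.le (by positivity)) a3 b3.le
          (by positivity)) a4 b4.le (by positivity)
  rw [div_mul_eq_mul_div, div_le_div_iff₀ (by norm_num) (by positivity)]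
  calc 24 * ((5 * (n : ℝ) - 1) * (5 * n - 2) * (5 * n - 3) * (5 * n - 4)) ≤
      24 * ((5 * (n : ℝ)) * (5 * (n : ℝ)) * (5 * (n : ℝ)) * (5 * (n : ℝ))) := by linarith
    _ = 24 * (n : ℝ) ^ 4 * 625 := by ring

lemma rho_ratio {n : ℕ} (hn : 10 ≤ n) : rho (n - 1) ≤ 2 * rho n := by
  obtain ⟨m, rfl⟩ := Nat.exists_eq_add_of_le hn
  have e : 10 + m - 1 = m + 9 := by omega
  rw [e]
  unfold rho
  push_cast
  have hm : (0 : ℝ) ≤ m := by positivity
  have c1 : (0 : ℝ) < 5 * ((m : ℝ) + 9) - 1 := by linarith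
  have c2 : (0 : ℝ) < 5 * ((m : ℝ) + 9) - 2 := by linarith
  have c3 : (0 : ℝ) < 5 * ((m : ℝ) + 9) - 3 := by linarith
  have c4 : (0 : ℝ) < 5 * ((m : ℝ) + 9) - 4 := by linarith
  have d1 : (0 : ℝ) < 5 * (10 + (m : ℝ)) - 1 := by linarith
  have d2 : (0 : ℝ) < 5 * (10 + (m : ℝ)) - 2 := by linarith
  have d3 : (0 : ℝ) < 5 * (10 + (m : ℝ)) - 3 := by linarith
  have d4 : (0 : ℝ) < 5 * (10 + (m : ℝ)) - 4 := by linarith
  rw [← mul_div_assoc, div_le_div_iff₀ (by positivity) (by positivity)]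
  have h1 : (5 * (10 + (m : ℝ)) - 1) * (5 * (10 + (m : ℝ)) - 2) ≤
      (13 / 10) * ((5 * ((m : ℝ) + 9) - 1) * (5 * ((m : ℝ) + 9) - 2)) := by nlinarith
  have h2 : (5 * (10 + (m : ℝ)) - 3) * (5 * (10 + (m : ℝ)) - 4) ≤
      (13 / 10) * ((5 * ((m : ℝ) + 9) - 3) * (5 * ((m : ℝ) + 9) - 4)) := by nlinarith
  have h3 : ((5 * (10 + (m : ℝ)) - 1) * (5 * (10 + (m : ℝ)) - 2)) *
      ((5 * (10 + (m : ℝ)) - 3) * (5 * (10 + (m : ℝ)) - 4)) ≤
      ((13 / 10) * ((5 * ((m : ℝ) + 9) - 1) * (5 * ((m : ℝ) + 9) - 2))) *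
      ((13 / 10) * ((5 * ((m : ℝ) + 9) - 3) * (5 * ((m : ℝ) + 9) - 4))) :=
    mul_le_mul h1 h2 (by positivity) (by positivity)
  have h4 : 0 < ((5 * ((m : ℝ) + 9) - 1) * (5 * ((m : ℝ) + 9) - 2)) *
      ((5 * ((m : ℝ) + 9) - 3) * (5 * ((m : ℝ) + 9) - 4)) := by positivity
  nlinarith

/-- boxes with the right volume are hit with probability at least `1/50` -/
lemma hit_const (n : ℕ) (hn : 10 ≤ n) (B : Finset (Fin 5 ↪o Fin (5 * n)))
    (h1 : n ^ 4 ≤ B.card) (h2 : B.card ≤ 4 * n ^ 4) :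
    Fr n / 50 ≤ (((PM (univ : Finset (Fin (5 * n)))).filter (fun M => ∃ e ∈ M, e ∈ B)).card : ℝ) := by
  refine le_trans ?_ (hit_lower n (by omega) B)
  have hn0 : (0 : ℝ) < n := by
    have : 0 < n := by omega
    exact_mod_cast this
  have s1 : Fr (n - 1) = rho n * Fr n := by
    have := Fr_step (n - 1)
    have e : n - 1 + 1 = n := by omega
    rwa [e] at this
  have s2 : Fr (n - 2) = rho (n - 1) * (rho n * Fr n) := by
    have := Fr_step (n - 2)
    have e : n - 2 + 1 = n - 1 := by omega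
    rw [e, s1] at this
    exact this
  have r1 := rho_upper (n := n) (by omega)
  have r2 := rho_lower (n := n) (by omega)
  have r3 := rho_ratio hn
  have rp := rho_pos (m := n) (by omega)
  have F0 := Fr_pos n
  rw [s1, s2]
  set b : ℝ := (B.card : ℝ) with hb
  have b1 : (n : ℝ) ^ 4 ≤ b := by rw [hb]; exact_mod_cast h1
  have b2 : b ≤ 4 * (n : ℝ) ^ 4 := by rw [hb]; exact_mod_cast h2
  set μ := b * rho n with hμ
  have hb0 : 0 ≤ b := by positivity
  have m1 : 24 / 625 ≤ μ := by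
    calc 24 / 625 ≤ rho n * (n : ℝ) ^ 4 := r2
      _ ≤ rho n * b := by gcongr
      _ = μ := by rw [hμ]; ring
  have m2 : μ ≤ 3 / 8 := by
    calc μ ≤ (4 * (n : ℝ) ^ 4) * rho n := by rw [hμ]; gcongr
      _ = 4 * (rho n * (n : ℝ) ^ 4) := by ring
      _ ≤ 4 * (3 / 32) := by gcongr
      _ = 3 / 8 := by norm_num
  have m3 : b ^ 2 * (rho (n - 1) * (rho n * Fr n)) / 2 ≤ μ ^ 2 * Fr n := by
    calc b ^ 2 * (rho (n - 1) * (rho n * Fr n)) / 2 ≤ b ^ 2 * ((2 * rho n) * (rho n * Fr n)) / 2 := by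
          gcongr
      _ = μ ^ 2 * Fr n := by rw [hμ]; ring
  have m4 : b * (rho n * Fr n) = μ * Fr n := by rw [hμ]; ring
  rw [m4]
  have m5 : 1 / 50 ≤ μ - μ ^ 2 := by nlinarith
  calc Fr n / 50 = 1 / 50 * Fr n := by ring
    _ ≤ (μ - μ ^ 2) * Fr n := by gcongr
    _ = μ * Fr n - μ ^ 2 * Fr n := by ring
    _ ≤ _ := by linarith

/-! ### averaging -/

lemma average {α β : Type} (Ω : Finset α) (I : Finset β) (h : α → β → Prop) (F : ℝ)
    (hF : (Ω.card : ℝ) = F) (hI : 0 < I.card)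
    (hx : ∀ x ∈ I, F / 50 ≤ ((Ω.filter (fun M => h M x)).card : ℝ)) :
    F / 100 ≤ ((Ω.filter (fun M => (I.card : ℝ) / 100 ≤ ((I.filter (fun x => h M x)).card : ℝ))).card : ℝ)
    := by
  have h1 : (I.card : ℝ) * (F / 50) ≤ ∑ M ∈ Ω, ((I.filter (fun x => h M x)).card : ℝ) := by
    calc (I.card : ℝ) * (F / 50) = ∑ x ∈ I, F / 50 := by rw [Finset.sum_const, nsmul_eq_mul]
      _ ≤ ∑ x ∈ I, ((Ω.filter (fun M => h M x)).card : ℝ) := Finset.sum_le_sum hx
      _ = ∑ x ∈ I, ∑ M ∈ Ω, (if h M x then (1 : ℝ) else 0) := by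
          refine Finset.sum_congr rfl fun x _ => ?_
          rw [Finset.card_filter]; push_cast; rfl
      _ = ∑ M ∈ Ω, ∑ x ∈ I, (if h M x then (1 : ℝ) else 0) := Finset.sum_comm
      _ = _ := by
          refine Finset.sum_congr rfl fun M _ => ?_
          rw [Finset.card_filter]; push_cast; rfl
  set K : ℝ := (I.card : ℝ) / 100 with hK
  set G := Ω.filter (fun M => K ≤ ((I.filter (fun x => h M x)).card : ℝ)) with hG
  have hI' : (0 : ℝ) < I.card := by exact_mod_cast hI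
  have h2 : ∑ M ∈ Ω, ((I.filter (fun x => h M x)).card : ℝ) ≤ (G.card : ℝ) * I.card + F * K := by
    rw [← Finset.sum_filter_add_sum_filter_not Ω
      (fun M => K ≤ ((I.filter (fun x => h M x)).card : ℝ)), ← hG]
    have e1 : ∑ M ∈ G, ((I.filter (fun x => h M x)).card : ℝ) ≤ (G.card : ℝ) * I.card := by
      calc _ ≤ ∑ M ∈ G, (I.card : ℝ) := by
            refine Finset.sum_le_sum fun M _ => ?_
            exact_mod_cast card_filter_le _ _
        _ = _ := by rw [Finset.sum_const, nsmul_eq_mul]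
    have e2 : ∑ M ∈ Ω.filter (fun M => ¬ K ≤ ((I.filter (fun x => h M x)).card : ℝ)),
        ((I.filter (fun x => h M x)).card : ℝ) ≤ F * K := by
      calc _ ≤ ∑ M ∈ Ω.filter (fun M => ¬ K ≤ ((I.filter (fun x => h M x)).card : ℝ)), K := by
            refine Finset.sum_le_sum fun M hM => ?_
            rw [mem_filter] at hM
            exact (not_le.mp hM.2).le
        _ = ((Ω.filter (fun M => ¬ K ≤ ((I.filter (fun x => h M x)).card : ℝ))).card : ℝ) * K := by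
            rw [Finset.sum_const, nsmul_eq_mul]
        _ ≤ F * K := by
            refine mul_le_mul_of_nonneg_right ?_ (by positivity)
            rw [← hF]
            exact_mod_cast card_filter_le _ _
    linarith
  have h3 : (I.card : ℝ) * (F / 50) ≤ (G.card : ℝ) * I.card + F * K := h1.trans h2
  rw [hK] at h3
  have h4 : (I.card : ℝ) * (F / 100) ≤ (I.card : ℝ) * (G.card : ℝ) := by linarith
  exact le_of_mul_le_mul_left h4 hI'

/-! ### the boxes -/

/-- edges of the box `x = (s, j, i)` -/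
noncomputable def box (n t w : ℕ) (x : ℕ × ℕ × ℕ) : Finset (Fin 5 ↪o Fin (5 * n)) :=
  univ.filter (fun e => InBox t w x.1 x.2.1 x.2.2 (toEd e))

lemma exists_edge {m a b c d y : ℕ} (h1 : a < b) (h2 : b < c) (h3 : c < d) (h4 : d < y) (h5 : y < m) :
    ∃ e : Fin 5 ↪o Fin m, toEd e = ⟨a, b, c, d, y⟩ := by
  have hmono : StrictMono (![⟨a, by omega⟩, ⟨b, by omega⟩, ⟨c, by omega⟩, ⟨d, by omega⟩, ⟨y, h5⟩] :
      Fin 5 → Fin m) := by
    rw [Fin.strictMono_iff_lt_succ]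
    intro i
    fin_cases i
    · exact h1
    · exact h2
    · exact h3
    · exact h4
  exact ⟨OrderEmbedding.ofStrictMono _ hmono, rfl⟩

lemma card_box (n t w s j i : ℕ) (hv : Valid t s j i) (hn : len t w 0 + t * (2 ^ t * w) ≤ 5 * n) :
    (box n t w (s, j, i)).card = w * (len t w (s + 1) * (us t w s * (w * (2 ^ s * w)))) := by
  set A := st t w s j + i * w with hA
  set B := st t w s j + mar t w s with hB
  set C := st t w s j + mar t w s + len t w (s + 1) + (2 ^ (t - s) - 1 - i) * us t w s with hC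
  set D := st t w s j + mar t w s + 2 * len t w (s + 1) + (2 ^ (t - s) - 1 - i) * w with hD
  set Y := len t w 0 + (t - 1 - s) * (2 ^ t * w) + (2 ^ (t - s) - 1 - i) * (2 ^ s * w) with hY
  set T : Finset (ℕ × ℕ × ℕ × ℕ × ℕ) := Ico A (A + w) ×ˢ (Ico B (B + len t w (s + 1)) ×ˢ
    (Ico C (C + us t w s) ×ˢ (Ico D (D + w) ×ˢ Ico Y (Y + 2 ^ s * w)))) with hT
  have hTc : T.card = w * (len t w (s + 1) * (us t w s * (w * (2 ^ s * w)))) := by
    simp only [hT, card_product, Nat.card_Ico, Nat.add_sub_cancel_left]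
  rw [← hTc]
  refine Finset.card_bij (fun e _ => ((toEd e).a, (toEd e).b, (toEd e).c, (toEd e).d, (toEd e).y))
    ?_ ?_ ?_
  · intro e he
    rw [box, mem_filter] at he
    obtain ⟨a1, a2, b1, b2, c1, c2, d1, d2, y1, y2⟩ := he.2
    simp only [hT, mem_product, mem_Ico]
    exact ⟨⟨a1, a2⟩, ⟨b1, b2⟩, ⟨c1, c2⟩, ⟨d1, d2⟩, y1, y2⟩
  · intro e _ f _ h
    apply toEd_inj
    simp only [Prod.mk.injEq] at h
    exact Ed.ext h.1 h.2.1 h.2.2.1 h.2.2.2.1 h.2.2.2.2
  · rintro ⟨a, b, c, d, y⟩ hT'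
    simp only [hT, mem_product, mem_Ico] at hT'
    obtain ⟨⟨a1, a2⟩, ⟨b1, b2⟩, ⟨c1, c2⟩, ⟨d1, d2⟩, y1, y2⟩ := hT'
    have hbox : InBox t w s j i ⟨a, b, c, d, y⟩ := ⟨a1, a2, b1, b2, c1, c2, d1, d2, y1, y2⟩
    have hr := hbox.range hv
    simp only at hr
    obtain ⟨e, he⟩ := exists_edge (m := 5 * n) hr.1 hr.2.1 hr.2.2.1 (lt_of_lt_of_le hr.2.2.2.1 hr.2.2.2.2.1)
      (by omega)
    refine ⟨e, ?_, ?_⟩
    · rw [box, mem_filter]
      refine ⟨mem_univ _, ?_⟩
      rw [he]; exact hbox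
    · rw [he]

/-- index set -/
def idx (t : ℕ) : Finset (ℕ × ℕ × ℕ) :=
  (range t).biUnion (fun s => ((range (2 ^ s)) ×ˢ (range (2 ^ (t - s)))).image (fun p => (s, p.1, p.2)))

lemma mem_idx {t : ℕ} {x : ℕ × ℕ × ℕ} : x ∈ idx t ↔ Valid t x.1 x.2.1 x.2.2 := by
  obtain ⟨s, j, i⟩ := x
  simp only [idx, mem_biUnion, mem_range, mem_image, mem_product, Prod.mk.injEq, Valid, Prod.exists]
  constructor
  · rintro ⟨s', hs, j', i', ⟨hj, hi⟩, rfl, rfl, rfl⟩
    exact ⟨hs, hj, hi⟩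
  · rintro ⟨hs, hj, hi⟩
    exact ⟨s, hs, j, i, ⟨hj, hi⟩, rfl, rfl, rfl⟩

lemma card_idx (t : ℕ) : (idx t).card = t * 2 ^ t := by
  unfold idx
  rw [Finset.card_biUnion]
  · rw [Finset.sum_congr rfl (g := fun _ => 2 ^ t)]
    · rw [Finset.sum_const, card_range, smul_eq_mul]
    · intro s hs
      rw [mem_range] at hs
      rw [Finset.card_image_of_injective, card_product, card_range, card_range, ← pow_add]
      · congr 1; omega
      · intro p q h
        simp only [Prod.mk.injEq] at h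
        exact Prod.ext h.2.1 h.2.2
  · intro s _ s' _ hne
    change Disjoint _ _
    rw [Finset.disjoint_left]
    intro x hx hx'
    simp only [mem_image] at hx hx'
    obtain ⟨p, -, rfl⟩ := hx
    obtain ⟨q, -, h⟩ := hx'
    simp only [Prod.mk.injEq] at h
    exact hne h.1.symm

/-- the pattern of two edges below -/
lemma isPattern_tbl {m : ℕ} {e f : Fin 5 ↪o Fin m} (hd : ∀ i j, e i ≠ f j) (h0 : e 0 < f 0) :
    IsPattern (tbl e f) := by
  refine ⟨e.trans (Fin.valOrderEmb m), f.trans (Fin.valOrderEmb m), ?_, ?_, ?_⟩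
  · intro i j h
    exact hd i j (Fin.ext h)
  · exact h0
  · funext i j
    rfl

lemma forms_of_rel {m : ℕ} {e f : Fin 5 ↪o Fin m} (hd : ∀ i j, e i ≠ f j)
    (hR : Rel (toEd e) (toEd f)) (h1 : (toEd e).d < (toEd f).y) (h2 : (toEd f).d < (toEd e).y) :
    Forms (PP0 ∪ QQ0) e f := by
  have he : (e 0 : ℕ) < (e 3 : ℕ) := e.strictMono (by decide)
  have h0 : e 0 < f 0 := by
    rw [Fin.lt_def]
    rcases hR with h | h
    · simp only [toEd] at h; omega
    · exact h.1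
  left
  refine ⟨h0, ?_⟩
  rw [mem_union_PQ]
  refine ⟨isPattern_tbl hd h0, ?_⟩
  simp only [Rp, tbl, Fin.lt_def]
  simp only [toEd] at h1 h2
  refine ⟨by omega, h1, ?_⟩
  rcases hR with h | ⟨ha, hb, hc, hd'⟩
  · exact Or.inl h
  · right
    simp only [toEd] at ha hb hc hd'
    refine ⟨by omega, by omega, fun h3 h4 => ?_⟩
    have h5 : (f 0 : ℕ) ≠ (e 1 : ℕ) := fun h => hd 1 0 (Fin.ext h.symm)
    have h6 := hd' (by omega) h4
    exact ⟨h6.1, by omega⟩

/-- a matching hitting many boxes contains a large clique -/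
lemma z_ge_hits (n t w : ℕ) (M : Finset (Fin 5 ↪o Fin (5 * n))) (hM : IsMatching M) :
    ((idx t).filter (fun x => ∃ e ∈ M, e ∈ box n t w x)).card ≤ z (PP0 ∪ QQ0) M := by
  set J := (idx t).filter (fun x => ∃ e ∈ M, e ∈ box n t w x) with hJ
  have hch : ∀ x ∈ J, ∃ e : Fin 5 ↪o Fin (5 * n), e ∈ M ∧ e ∈ box n t w x := by
    intro x hx
    rw [hJ, mem_filter] at hx
    obtain ⟨-, e, he⟩ := hx
    exact ⟨e, he⟩
  choose g hgM hgB using hch
  have hgI : ∀ x (hx : x ∈ J), InBox t w x.1 x.2.1 x.2.2 (toEd (g x hx)) ∧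
      Valid t x.1 x.2.1 x.2.2 := by
    intro x hx
    have h1 := hgB x hx
    rw [box, mem_filter] at h1
    have h2 := hx
    rw [hJ, mem_filter, mem_idx] at h2
    exact ⟨h1.2, h2.1⟩
  have hrel : ∀ x (hx : x ∈ J) x' (hx' : x' ∈ J), x ≠ x' →
      Rel (toEd (g x hx)) (toEd (g x' hx')) ∨ Rel (toEd (g x' hx')) (toEd (g x hx)) := by
    intro x hx x' hx' hne
    obtain ⟨h1, h2⟩ := hgI x hx
    obtain ⟨h3, h4⟩ := hgI x' hx'
    exact rel_all h2 h4 h1 h3 hne
  set S : Finset (Fin 5 ↪o Fin (5 * n)) := J.attach.image (fun x => g x.1 x.2) with hS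
  have hcard : S.card = J.card := by
    rw [hS, Finset.card_image_of_injective, card_attach]
    rintro ⟨x, hx⟩ ⟨x', hx'⟩ heq
    simp only at heq
    by_contra hne
    have hne' : x ≠ x' := fun h => hne (Subtype.ext h)
    have hr := hrel x hx x' hx' hne'
    rw [heq] at hr
    have ho := ord_toEd (le_refl (5 * n)) (g x' hx')
    unfold Ord at ho
    rcases hr with h | h <;> rcases h with h | h <;> omega
  have hclq : IsClique (PP0 ∪ QQ0) S := by
    intro e he f hf hne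
    rw [hS, mem_image] at he hf
    obtain ⟨⟨x, hx⟩, -, rfl⟩ := he
    obtain ⟨⟨x', hx'⟩, -, rfl⟩ := hf
    simp only at hne ⊢
    have hxx : x ≠ x' := by
      rintro rfl
      exact hne rfl
    have hd := hM _ (hgM x hx) _ (hgM x' hx') hne
    obtain ⟨h1, h2⟩ := hgI x hx
    obtain ⟨h3, h4⟩ := hgI x' hx'
    have r1 := h1.range h2
    have r2 := h3.range h4
    rcases hrel x hx x' hx' hxx with h | h
    · exact forms_of_rel hd h (by omega) (by omega)
    · exact Forms.symm' (forms_of_rel (fun i j => (hd j i).symm) h (by omega) (by omega))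
  have hSM : S ⊆ M := by
    intro e he
    rw [hS, mem_image] at he
    obtain ⟨⟨x, hx⟩, -, rfl⟩ := he
    exact hgM x hx
  rw [← hcard]
  unfold z
  exact Finset.le_sup (f := Finset.card) (by rw [mem_filter, mem_powerset]; exact ⟨hSM, hclq⟩)

/-- **Lower bound.** -/
theorem lower (t : ℕ) (ht : 3 ≤ t) :
    Fr (t ^ 3 * 16 ^ t) / 100 ≤ (((PM (univ : Finset (Fin (5 * (t ^ 3 * 16 ^ t))))).filter
      (fun M => ((t * 2 ^ t : ℕ) : ℝ) / 100 ≤ (z (PP0 ∪ QQ0) M : ℝ))).card : ℝ) := by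
  set n := t ^ 3 * 16 ^ t with hn
  set w := t ^ 2 * 8 ^ t with hw
  have h8 : (16 : ℕ) ^ t = 2 ^ t * 8 ^ t := by rw [← mul_pow]; norm_num
  have hnw : n = t * (2 ^ t * w) := by rw [hn, hw, h8]; ring
  have htot : len t w 0 + t * (2 ^ t * w) ≤ 5 * n := by
    apply le_of_eq
    unfold len
    rw [hnw]
    have e1 : t - 0 + 1 = t + 1 := by omega
    rw [e1]
    simp only [Nat.sub_zero]
    ring
  have hn10 : 10 ≤ n := by
    have h1 : 3 ^ 3 ≤ t ^ 3 := Nat.pow_le_pow_left ht 3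
    have h2 : 1 ≤ 16 ^ t := Nat.one_le_pow _ _ (by norm_num)
    calc 10 ≤ 3 ^ 3 * 1 := by norm_num
      _ ≤ t ^ 3 * 16 ^ t := Nat.mul_le_mul h1 h2
  have hbox : ∀ x ∈ idx t, Fr n / 50 ≤
      (((PM (univ : Finset (Fin (5 * n)))).filter (fun M => ∃ e ∈ M, e ∈ box n t w x)).card : ℝ) := by
    intro x hx
    rw [mem_idx] at hx
    obtain ⟨s, j, i⟩ := x
    simp only at hx
    have hc := card_box n t w s j i hx htot
    have hvol : (box n t w (s, j, i)).card = w ^ 5 * 2 ^ t * (2 * t - s - 1) ^ 2 := by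
      rw [hc, len_us hx.1]
      have e1 : 2 ^ (t - s) * 2 ^ s = 2 ^ t := by rw [← pow_add]; congr 1; have := hx.1; omega
      unfold us
      rw [← e1]; ring
    have hn4 : n ^ 4 = w ^ 5 * 2 ^ t * t ^ 2 := by
      rw [hn, hw, h8]
      have e8 : (8 : ℕ) ^ t = (2 ^ t) ^ 3 := by rw [← pow_mul, mul_comm, pow_mul]; norm_num
      rw [e8]; ring
    have hst := hx.1
    apply hit_const n hn10
    · rw [hvol, hn4]
      apply Nat.mul_le_mul_left
      exact Nat.pow_le_pow_left (by omega) 2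
    · rw [hvol, hn4]
      calc w ^ 5 * 2 ^ t * (2 * t - s - 1) ^ 2 ≤ w ^ 5 * 2 ^ t * (2 * t) ^ 2 := by
            apply Nat.mul_le_mul_left
            exact Nat.pow_le_pow_left (by omega) 2
        _ = 4 * (w ^ 5 * 2 ^ t * t ^ 2) := by ring
  have hPM : ((PM (univ : Finset (Fin (5 * n)))).card : ℝ) = Fr n :=
    card_PM n _ (by rw [card_univ, Fintype.card_fin])
  have hIpos : 0 < (idx t).card := by
    rw [card_idx]
    have : 0 < t := by omega
    positivity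
  have := average (PM (univ : Finset (Fin (5 * n)))) (idx t) (fun M x => ∃ e ∈ M, e ∈ box n t w x)
    (Fr n) hPM hIpos (by intro x hx; convert hbox x hx)
  refine this.trans ?_
  have hsub : (PM (univ : Finset (Fin (5 * n)))).filter (fun M => ((idx t).card : ℝ) / 100 ≤
      (((idx t).filter (fun x => ∃ e ∈ M, e ∈ box n t w x)).card : ℝ)) ⊆
      (PM (univ : Finset (Fin (5 * n)))).filter
      (fun M => ((t * 2 ^ t : ℕ) : ℝ) / 100 ≤ (z (PP0 ∪ QQ0) M : ℝ)) := by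
    intro M hM
    rw [mem_filter] at hM ⊢
    refine ⟨hM.1, ?_⟩
    have h1 := z_ge_hits n t w M (mem_PM.mp hM.1).1
    have h2 : (((idx t).filter (fun x => ∃ e ∈ M, e ∈ box n t w x)).card : ℝ) ≤
      (z (PP0 ∪ QQ0) M : ℝ) := by exact_mod_cast h1
    have h3 := hM.2
    rw [card_idx] at h3
    exact h3.trans h2
  have h10 := (Nat.cast_le (α := ℝ)).mpr (card_le_card hsub)
  convert h10
  rfl

end Pool.Agent.H70.NC
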