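import Mathlib

/-!
# Patterns, cliques and random ordered matchings

The definitions used in the statement of the result.
-/

set_option autoImplicit false

namespace Pool.Agent.H70.NC.Model

/-- An `r`-pattern, given by its comparison table: the pattern formed by two disjoint edges `e`, `f`
with `min e < min f` is recorded as the relation `i, j ↦ [i-th vertex of e < j-th vertex of f]`. The
table determines, and is determined by, the word in the letters `A`, `B`. -/
abbrev Pattern (r : ℕ) := Fin r → Fin r → Prop

section Cliques

variable {r : ℕ} {V : Type} [LinearOrder V]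

/-- An edge on the linearly ordered vertex set `V` is an `r`-element subset of `V`, listed
increasingly: an order embedding `Fin r ↪o V`. `tbl e f` is the comparison table of `e` and `f`. -/
def tbl (e f : Fin r ↪o V) : Pattern r := fun i j => e i < f j

/-- Ordered `r`-matchings: finite sets of pairwise disjoint edges. -/
def IsMatching (M : Finset (Fin r ↪o V)) : Prop :=
  ∀ e ∈ M, ∀ f ∈ M, e ≠ f → ∀ i j, e i ≠ f j

/-- `e` and `f` form a pattern in `P` (the edge with the smaller minimum comes first). -/
def Forms [NeZero r] (P : Set (Pattern r)) (e f : Fin r ↪o V) : Prop :=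
  (e 0 < f 0 ∧ tbl e f ∈ P) ∨ (f 0 < e 0 ∧ tbl f e ∈ P)

/-- `P`-cliques: every pair of edges forms a pattern in `P`. -/
def IsClique [NeZero r] (P : Set (Pattern r)) (S : Finset (Fin r ↪o V)) : Prop :=
  ∀ e ∈ S, ∀ f ∈ S, e ≠ f → Forms P e f

open Classical in
/-- `z P M` is the largest size of a `P`-clique contained in `M`. -/
noncomputable def z [NeZero r] (P : Set (Pattern r)) (M : Finset (Fin r ↪o V)) : ℕ :=
  (M.powerset.filter (fun S => IsClique P S)).sup Finset.card

end Cliques

/-- `p` is an `r`-pattern: it is formed by two disjoint edges. -/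
def IsPattern {r : ℕ} [NeZero r] (p : Pattern r) : Prop :=
  ∃ e f : Fin r ↪o ℕ, (∀ i j, e i ≠ f j) ∧ e 0 < f 0 ∧ tbl e f = p

/-- A pattern is collectable if there are `{p}`-cliques of every size. -/
def Collectable {r : ℕ} [NeZero r] (p : Pattern r) : Prop :=
  ∀ k : ℕ, ∃ S : Finset (Fin r ↪o ℕ), IsMatching S ∧ IsClique {p} S ∧ S.card = k

/-- The ordered `r`-matchings of size `n` on the vertex set `Fin (r * n)`. -/
def RM (r n : ℕ) : Set (Finset (Fin r ↪o Fin (r * n))) :=
  {M | IsMatching M ∧ M.card = n}

/-- The probability that the uniformly random ordered `r`-matching of size `n` satisfies `E`. -/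
noncomputable def prob (r n : ℕ) (E : Finset (Fin r ↪o Fin (r * n)) → Prop) : ℝ :=
  ({M ∈ RM r n | E M}.ncard : ℝ) / ((RM r n).ncard : ℝ)

end Pool.Agent.H70.NC.Model
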