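import Pool.Agent.H70.NC.Model

/-!
# Counting perfect ordered matchings (edges of size five)
-/

set_option autoImplicit false
set_option linter.unusedSectionVars false

namespace Pool.Agent.H70.NC

open Finset
open scoped Classical
open Model

section

variable {ι : Type} [LinearOrder ι] [Fintype ι]

/-- vertex set of an edge -/
def vs (e : Fin 5 ↪o ι) : Finset ι := univ.map e.toEmbedding

lemma mem_vs {e : Fin 5 ↪o ι} {x : ι} : x ∈ vs e ↔ ∃ i, e i = x := by
  simp [vs]

lemma vs_card (e : Fin 5 ↪o ι) : (vs e).card = 5 := by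
  simp [vs]

lemma vs_inj {e f : Fin 5 ↪o ι} (h : vs e = vs f) : e = f := by
  have h1 := Finset.orderEmbOfFin_unique (s := vs f) (vs_card f) (f := e)
    (fun x => by rw [← h]; exact mem_vs.mpr ⟨x, rfl⟩) e.strictMono
  have h2 := Finset.orderEmbOfFin_unique (s := vs f) (vs_card f) (f := f)
    (fun x => mem_vs.mpr ⟨x, rfl⟩) f.strictMono
  apply DFunLike.coe_injective
  rw [h1, h2]

lemma vs_surj {s : Finset ι} (h : s.card = 5) : ∃ e : Fin 5 ↪o ι, vs e = s := by
  refine ⟨s.orderEmbOfFin h, ?_⟩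
  ext x
  rw [mem_vs]
  have := Finset.range_orderEmbOfFin s h
  constructor
  · rintro ⟨i, rfl⟩
    exact Finset.orderEmbOfFin_mem s h i
  · intro hx
    have h2 : x ∈ Set.range (s.orderEmbOfFin h) := by rw [this]; exact hx
    exact h2

lemma card_edges (V : Finset ι) :
    ((univ : Finset (Fin 5 ↪o ι)).filter (fun e => vs e ⊆ V)).card = V.card.choose 5 := by
  rw [← Finset.card_powersetCard]
  refine Finset.card_bij (fun e _ => vs e) ?_ ?_ ?_
  · intro e he
    rw [mem_filter] at he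
    rw [mem_powersetCard]
    exact ⟨he.2, vs_card e⟩
  · intro e _ f _ h
    exact vs_inj h
  · intro s hs
    rw [mem_powersetCard] at hs
    obtain ⟨e, he⟩ := vs_surj hs.2
    exact ⟨e, by rw [mem_filter, he]; exact ⟨mem_univ _, hs.1⟩, he⟩

lemma disj_vs {e f : Fin 5 ↪o ι} : Disjoint (vs e) (vs f) ↔ ∀ i j, e i ≠ f j := by
  rw [Finset.disjoint_left]
  constructor
  · intro h i j hij
    exact h (mem_vs.mpr ⟨i, rfl⟩) (mem_vs.mpr ⟨j, hij.symm⟩)
  · intro h x hx hy
    rw [mem_vs] at hx hy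
    obtain ⟨i, hi⟩ := hx
    obtain ⟨j, hj⟩ := hy
    exact h i j (by rw [hi, hj])

/-- vertices covered -/
noncomputable def cov (S : Finset (Fin 5 ↪o ι)) : Finset ι := S.biUnion vs

lemma card_cov {S : Finset (Fin 5 ↪o ι)} (hS : IsMatching S) : (cov S).card = 5 * S.card := by
  unfold cov
  rw [Finset.card_biUnion]
  · simp only [vs_card, Finset.sum_const, smul_eq_mul]; ring
  · intro e he f hf hne
    exact disj_vs.mpr (hS e he f hf hne)

/-- perfect matchings on the vertex set `V` -/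
noncomputable def PM (V : Finset ι) : Finset (Finset (Fin 5 ↪o ι)) :=
  univ.filter (fun M => IsMatching M ∧ (∀ e ∈ M, vs e ⊆ V) ∧ 5 * M.card = V.card)

lemma mem_PM {V : Finset ι} {M : Finset (Fin 5 ↪o ι)} :
    M ∈ PM V ↔ IsMatching M ∧ (∀ e ∈ M, vs e ⊆ V) ∧ 5 * M.card = V.card := by
  simp [PM]

lemma PM_remove {V : Finset ι} {S : Finset (Fin 5 ↪o ι)} (hS : IsMatching S)
    (hSV : ∀ e ∈ S, vs e ⊆ V) : ((PM V).filter (fun M => S ⊆ M)).card = (PM (V \ cov S)).card := by
  have hcov : cov S ⊆ V := by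
    intro x hx
    rw [cov, mem_biUnion] at hx
    obtain ⟨e, he, hx⟩ := hx
    exact hSV e he hx
  have hcard : (V \ cov S).card = V.card - 5 * S.card := by
    rw [Finset.card_sdiff_of_subset hcov, card_cov hS]
  have hle : 5 * S.card ≤ V.card := by
    rw [← card_cov hS]; exact card_le_card hcov
  refine Finset.card_bij' (fun M _ => M \ S) (fun M _ => M ∪ S) ?_ ?_ ?_ ?_
  · intro M hM
    rw [mem_filter, mem_PM] at hM
    obtain ⟨⟨h1, h2, h3⟩, h4⟩ := hM
    rw [mem_PM]
    refine ⟨fun e he f hf => h1 e (mem_sdiff.mp he).1 f (mem_sdiff.mp hf).1, fun e he => ?_, ?_⟩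
    · rw [mem_sdiff] at he
      intro x hx
      rw [mem_sdiff]
      refine ⟨h2 e he.1 hx, fun hx' => ?_⟩
      rw [cov, mem_biUnion] at hx'
      obtain ⟨f, hf, hx'⟩ := hx'
      have hne : e ≠ f := fun h => he.2 (h ▸ hf)
      exact Finset.disjoint_left.mp (disj_vs.mpr (h1 e he.1 f (h4 hf) hne)) hx hx'
    · rw [Finset.card_sdiff_of_subset h4, hcard]; omega
  · intro M hM
    rw [mem_PM] at hM
    obtain ⟨h1, h2, h3⟩ := hM
    have hdis : ∀ e ∈ M, ∀ f ∈ S, Disjoint (vs e) (vs f) := by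
      intro e he f hf
      rw [Finset.disjoint_left]
      intro x hx hx'
      have := h2 e he hx
      rw [mem_sdiff] at this
      exact this.2 (by rw [cov, mem_biUnion]; exact ⟨f, hf, hx'⟩)
    have hMS : Disjoint M S := by
      rw [Finset.disjoint_left]
      intro e he he'
      have := hdis e he e he'
      rw [disjoint_self, Finset.bot_eq_empty] at this
      have h5 := vs_card e
      rw [this] at h5
      simp at h5
    rw [mem_filter, mem_PM]
    refine ⟨⟨?_, ?_, ?_⟩, subset_union_right⟩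
    · intro e he f hf hne
      rw [mem_union] at he hf
      rcases he with he | he <;> rcases hf with hf | hf
      · exact h1 e he f hf hne
      · exact disj_vs.mp (hdis e he f hf)
      · exact disj_vs.mp (hdis f hf e he).symm
      · exact hS e he f hf hne
    · intro e he
      rw [mem_union] at he
      rcases he with he | he
      · exact (h2 e he).trans sdiff_subset
      · exact hSV e he
    · rw [card_union_of_disjoint hMS, mul_add, h3, hcard]; omega
  · intro M hM
    rw [mem_filter] at hM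
    exact Finset.sdiff_union_of_subset hM.2
  · intro M hM
    rw [mem_PM] at hM
    obtain ⟨h1, h2, h3⟩ := hM
    have hMS : Disjoint M S := by
      rw [Finset.disjoint_left]
      intro e he he'
      obtain ⟨x, hx⟩ := Finset.card_pos.mp (by rw [vs_card e]; norm_num : 0 < (vs e).card)
      have := h2 e he hx
      rw [mem_sdiff] at this
      exact this.2 (by rw [cov, mem_biUnion]; exact ⟨e, he', hx⟩)
    rw [Finset.union_sdiff_distrib, Finset.sdiff_self, Finset.union_empty,
      Finset.sdiff_eq_self_of_disjoint hMS]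

/-- number of perfect matchings on `5 m` vertices -/
noncomputable def Fr : ℕ → ℝ
  | 0 => 1
  | m + 1 => ((5 * (m + 1)).choose 5 : ℝ) / (m + 1) * Fr m

lemma Fr_pos (m : ℕ) : 0 < Fr m := by
  induction m with
  | zero => norm_num [Fr]
  | succ m ih =>
    unfold Fr
    have h1 : 0 < (5 * (m + 1)).choose 5 := Nat.choose_pos (by omega)
    have h2 : (0 : ℝ) < ((5 * (m + 1)).choose 5 : ℝ) := by exact_mod_cast h1
    positivity

lemma isMatching_singleton (e : Fin 5 ↪o ι) : IsMatching {e} := by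
  intro a ha b hb hne
  rw [mem_singleton] at ha hb
  exact absurd (ha.trans hb.symm) hne

lemma card_PM (m : ℕ) : ∀ V : Finset ι, V.card = 5 * m → ((PM V).card : ℝ) = Fr m := by
  induction m with
  | zero =>
    intro V hV
    have : PM V = {∅} := by
      ext M
      rw [mem_PM, mem_singleton]
      constructor
      · rintro ⟨-, -, h⟩
        exact card_eq_zero.mp (by omega)
      · rintro rfl
        exact ⟨by intro e he; simp at he, by simp, by rw [hV]; rfl⟩
    rw [this]; simp [Fr]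
  | succ m ih =>
    intro V hV
    have h1 : ∑ M ∈ PM V, (M.card : ℝ) = (m + 1) * ((PM V).card : ℝ) := by
      rw [Finset.sum_congr rfl (g := fun _ => ((m + 1 : ℕ) : ℝ))]
      · rw [Finset.sum_const, nsmul_eq_mul]; push_cast; ring
      · intro M hM
        rw [mem_PM] at hM
        have : M.card = m + 1 := by omega
        rw [this]
    have h2 : ∑ M ∈ PM V, (M.card : ℝ) =
        ∑ e ∈ (univ : Finset (Fin 5 ↪o ι)), (((PM V).filter (fun M => e ∈ M)).card : ℝ) := by
      have e1 : ∀ M : Finset (Fin 5 ↪o ι), (M.card : ℝ) = ∑ e, if e ∈ M then (1 : ℝ) else 0 := by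
        intro M; simp
      have e2 : ∀ e : (Fin 5 ↪o ι), (((PM V).filter (fun M => e ∈ M)).card : ℝ) =
          ∑ M ∈ PM V, if e ∈ M then (1 : ℝ) else 0 := by
        intro e; rw [Finset.card_filter]; push_cast; rfl
      simp only [e1, e2]
      exact Finset.sum_comm
    have h3 : ∀ e : (Fin 5 ↪o ι), (((PM V).filter (fun M => e ∈ M)).card : ℝ) =
        if vs e ⊆ V then Fr m else 0 := by
      intro e
      by_cases he : vs e ⊆ V
      · rw [if_pos he]
        have h4 : (PM V).filter (fun M => e ∈ M) = (PM V).filter (fun M => {e} ⊆ M) := by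
          refine Finset.filter_congr fun M _ => ?_
          rw [Finset.singleton_subset_iff]
        rw [h4, PM_remove (isMatching_singleton e) (by simpa using he)]
        apply ih
        have hcov : cov {e} = vs e := by simp [cov]
        rw [hcov, Finset.card_sdiff_of_subset he, vs_card, hV]; omega
      · rw [if_neg he]
        have : (PM V).filter (fun M => e ∈ M) = ∅ := by
          rw [Finset.filter_eq_empty_iff]
          intro M hM heM
          rw [mem_PM] at hM
          exact he (hM.2.1 e heM)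
        rw [this]; simp
    have h4 : ∑ e ∈ (univ : Finset (Fin 5 ↪o ι)), (((PM V).filter (fun M => e ∈ M)).card : ℝ) =
        ((5 * (m + 1)).choose 5 : ℝ) * Fr m := by
      simp only [h3]
      rw [← Finset.sum_filter, Finset.sum_const, card_edges, hV, nsmul_eq_mul]
    have h5 : (m + 1 : ℝ) * ((PM V).card : ℝ) = ((5 * (m + 1)).choose 5 : ℝ) * Fr m := by
      rw [← h1, h2, h4]
    have h6 : (0 : ℝ) < (m : ℝ) + 1 := by positivity
    unfold Fr
    rw [div_mul_eq_mul_div, eq_div_iff h6.ne', ← h5]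
    ring

end

/-! ### ratios -/

noncomputable def rho (m : ℕ) : ℝ :=
  24 / ((5 * m - 1) * (5 * m - 2) * (5 * m - 3) * (5 * m - 4))

lemma choose_five (m : ℕ) : ((5 * (m + 1)).choose 5 : ℝ) * 24 =
    ((m : ℝ) + 1) * ((5 * ((m : ℝ) + 1) - 1) * (5 * ((m : ℝ) + 1) - 2) * (5 * ((m : ℝ) + 1) - 3) *
      (5 * ((m : ℝ) + 1) - 4)) := by
  have h := Nat.descFactorial_eq_factorial_mul_choose (5 * (m + 1)) 5
  have h2 : (5 * (m + 1)).descFactorial 5 = (5 * m + 1) * ((5 * m + 2) * ((5 * m + 3) *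
      ((5 * m + 4) * (5 * m + 5)))) := by
    simp only [Nat.descFactorial_succ, Nat.descFactorial_zero]
    have e1 : 5 * (m + 1) - 4 = 5 * m + 1 := by omega
    have e2 : 5 * (m + 1) - 3 = 5 * m + 2 := by omega
    have e3 : 5 * (m + 1) - 2 = 5 * m + 3 := by omega
    have e4 : 5 * (m + 1) - 1 = 5 * m + 4 := by omega
    have e5 : 5 * (m + 1) - 0 = 5 * m + 5 := by omega
    rw [e1, e2, e3, e4, e5, mul_one]
  rw [h2] at h
  have h3 : ((5 * m + 1 : ℝ)) * ((5 * m + 2) * ((5 * m + 3) * ((5 * m + 4) * (5 * m + 5)))) =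
      120 * ((5 * (m + 1)).choose 5 : ℝ) := by
    have h4 : Nat.factorial 5 = 120 := rfl
    rw [h4] at h
    exact_mod_cast h
  linarith

lemma Fr_step (m : ℕ) : Fr m = rho (m + 1) * Fr (m + 1) := by
  have h := choose_five m
  rw [Fr, rho]
  push_cast
  have h1 : (0 : ℝ) < (m : ℝ) + 1 := by positivity
  have hm : (0 : ℝ) ≤ m := by positivity
  have h2 : (0 : ℝ) < (5 * ((m : ℝ) + 1) - 1) * (5 * ((m : ℝ) + 1) - 2) * (5 * ((m : ℝ) + 1) - 3) *
      (5 * ((m : ℝ) + 1) - 4) := by
    have a1 : (0 : ℝ) < 5 * ((m : ℝ) + 1) - 1 := by linarith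
    have a2 : (0 : ℝ) < 5 * ((m : ℝ) + 1) - 2 := by linarith
    have a3 : (0 : ℝ) < 5 * ((m : ℝ) + 1) - 3 := by linarith
    have a4 : (0 : ℝ) < 5 * ((m : ℝ) + 1) - 4 := by linarith
    positivity
  set Q := (5 * ((m : ℝ) + 1) - 1) * (5 * ((m : ℝ) + 1) - 2) * (5 * ((m : ℝ) + 1) - 3) *
      (5 * ((m : ℝ) + 1) - 4) with hQ
  have h3 : ((5 * (m + 1)).choose 5 : ℝ) = ((m : ℝ) + 1) * Q / 24 := by
    rw [eq_div_iff (by norm_num)]; exact h
  rw [h3]
  field_simp

lemma rho_pos {m : ℕ} (hm : 1 ≤ m) : 0 < rho m := by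
  unfold rho
  have h : (1 : ℝ) ≤ m := by exact_mod_cast hm
  have a1 : (0 : ℝ) < 5 * (m : ℝ) - 1 := by linarith
  have a2 : (0 : ℝ) < 5 * (m : ℝ) - 2 := by linarith
  have a3 : (0 : ℝ) < 5 * (m : ℝ) - 3 := by linarith
  have a4 : (0 : ℝ) < 5 * (m : ℝ) - 4 := by linarith
  positivity

lemma rho_le {m : ℕ} (hm : 1 ≤ m) : rho m ≤ 1 / (m : ℝ) ^ 4 := by
  unfold rho
  have h : (1 : ℝ) ≤ m := by exact_mod_cast hm
  have a1 : 4 * (m : ℝ) ≤ 5 * (m : ℝ) - 1 := by linarith
  have a2 : 3 * (m : ℝ) ≤ 5 * (m : ℝ) - 2 := by linarith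
  have a3 : 2 * (m : ℝ) ≤ 5 * (m : ℝ) - 3 := by linarith
  have a4 : (m : ℝ) ≤ 5 * (m : ℝ) - 4 := by linarith
  have h1 : 24 * (m : ℝ) ^ 4 ≤
      (5 * (m : ℝ) - 1) * (5 * m - 2) * (5 * m - 3) * (5 * m - 4) := by
    calc 24 * (m : ℝ) ^ 4 = 4 * (m : ℝ) * (3 * m) * (2 * m) * m := by ring
      _ ≤ _ := by
        have b1 : 0 ≤ 5 * (m : ℝ) - 1 := by linarith
        have b2 : 0 ≤ 5 * (m : ℝ) - 2 := by linarith
        have b3 : 0 ≤ 5 * (m : ℝ) - 3 := by linarith
        exact mul_le_mul (mul_le_mul (mul_le_mul a1 a2 (by positivity) b1) a3 (by positivity)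
          (mul_nonneg b1 b2)) a4 (by positivity) (mul_nonneg (mul_nonneg b1 b2) b3)
  have h2 : (0 : ℝ) < (m : ℝ) ^ 4 := by positivity
  rw [div_le_div_iff₀ (by linarith) h2]
  linarith

/-- upper bound for the probability that `k` given disjoint edges are in the matching -/
lemma Fr_upper (n k : ℕ) (hk : 2 * k ≤ n) : Fr (n - k) ≤ Fr n * (16 / (n : ℝ) ^ 4) ^ k := by
  induction k with
  | zero => simp
  | succ k ih =>
    have hn : (0 : ℝ) < n := by
      have : 0 < n := by omega
      exact_mod_cast this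
    have h1 : n - k = (n - (k + 1)) + 1 := by omega
    have h2 := Fr_step (n - (k + 1))
    rw [← h1] at h2
    rw [h2, pow_succ]
    have h3 := rho_le (m := n - k) (by omega)
    have h4 : (1 : ℝ) / ((n - k : ℕ) : ℝ) ^ 4 ≤ 16 / (n : ℝ) ^ 4 := by
      have h5 : (n : ℝ) / 2 ≤ ((n - k : ℕ) : ℝ) := by
        rw [div_le_iff₀ (by norm_num)]
        have : n ≤ (n - k) * 2 := by omega
        exact_mod_cast this
      have h6 : ((n : ℝ) / 2) ^ 4 ≤ ((n - k : ℕ) : ℝ) ^ 4 := by gcongr
      calc (1 : ℝ) / ((n - k : ℕ) : ℝ) ^ 4 ≤ 1 / ((n : ℝ) / 2) ^ 4 := by gcongr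
        _ = 16 / (n : ℝ) ^ 4 := by field_simp; norm_num
    calc rho (n - k) * Fr (n - k) ≤ (16 / (n : ℝ) ^ 4) * (Fr n * (16 / (n : ℝ) ^ 4) ^ k) := by
          apply mul_le_mul (h3.trans h4) (ih (by omega)) (Fr_pos _).le (by positivity)
      _ = Fr n * ((16 / (n : ℝ) ^ 4) ^ k * (16 / (n : ℝ) ^ 4)) := by ring

end Pool.Agent.H70.NC
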