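import Pool.Agent.H70.NC.Model
import Pool.Agent.H70.NC.Count
import Pool.Agent.H70.NC.Prob

/-!
# The sets of patterns and the link with abstract cliques
-/

set_option autoImplicit false

namespace Pool.Agent.H70.NC

open Finset
open scoped Classical
open Model

/-- vertices of `e` are `e 0 < e 1 < e 2 < e 3 < e 4`. -/
def Rp (p : Pattern 5) : Prop :=
  ¬ p 4 3 ∧ p 3 4 ∧ (p 3 0 ∨ (¬ p 3 3 ∧ ¬ p 4 4 ∧ (¬ p 1 0 → p 2 3 → p 1 2 ∧ ¬ p 2 2)))

def PP0 : Set (Pattern 5) := {p | IsPattern p ∧ Collectable p ∧ Rp p}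

def QQ0 : Set (Pattern 5) := {p | IsPattern p ∧ ¬ Collectable p ∧ Rp p}

lemma mem_union_PQ {p : Pattern 5} : p ∈ PP0 ∪ QQ0 ↔ IsPattern p ∧ Rp p := by
  simp only [PP0, QQ0, Set.mem_union, Set.mem_setOf_eq]
  tauto

/-- the non-collectable patterns -/
lemma not_collectable {p : Pattern 5} (h1 : p 1 0) (h2 : ¬ p 2 0) (h3 : p 2 1) :
    ¬ Collectable p := by
  intro h
  obtain ⟨S, -, hS, hcard⟩ := h 3
  obtain ⟨x, y, w, hxy, hxw, hyw, rfl⟩ := Finset.card_eq_three.mp hcard
  -- no chain of length three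
  have key : ∀ e f g : Fin 5 ↪o ℕ, tbl e f = p → tbl f g = p → tbl e g = p → False := by
    intro e f g hef hfg heg
    have a1 : e 2 < f 1 := by rw [← hef] at h3; exact h3
    have a2 : f 1 < g 0 := by rw [← hfg] at h1; exact h1
    have a3 : ¬ (e 2 < g 0) := by rw [← heg] at h2; exact h2
    omega
  have hxy' := hS x (by simp) y (by simp) hxy
  have hxw' := hS x (by simp) w (by simp) hxw
  have hyw' := hS y (by simp) w (by simp) hyw
  simp only [Forms, Set.mem_singleton_iff] at hxy' hxw' hyw'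
  rcases hxy' with ⟨o1, t1⟩ | ⟨o1, t1⟩ <;> rcases hxw' with ⟨o2, t2⟩ | ⟨o2, t2⟩ <;>
    rcases hyw' with ⟨o3, t3⟩ | ⟨o3, t3⟩
  · exact key x y w t1 t3 t2
  · exact key x w y t2 t3 t1
  · omega
  · exact key w x y t2 t1 t3
  · exact key y x w t1 t2 t3
  · omega
  · exact key y w x t3 t2 t1
  · exact key w y x t3 t1 t2

/-- edge to quintuple -/
def toEd {m : ℕ} (e : Fin 5 ↪o Fin m) : Ed := ⟨e 0, e 1, e 2, e 3, e 4⟩

lemma toEd_inj {m : ℕ} : Function.Injective (toEd (m := m)) := by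
  intro e f h
  simp only [toEd, Ed.mk.injEq] at h
  obtain ⟨h0, h1, h2, h3, h4⟩ := h
  apply DFunLike.coe_injective
  funext i
  fin_cases i
  · exact Fin.ext h0
  · exact Fin.ext h1
  · exact Fin.ext h2
  · exact Fin.ext h3
  · exact Fin.ext h4

lemma ord_toEd {m N : ℕ} (hm : m ≤ N) (e : Fin 5 ↪o Fin m) : Ord N (toEd e) := by
  have h01 : e 0 < e 1 := e.strictMono (by decide)
  have h12 : e 1 < e 2 := e.strictMono (by decide)
  have h23 : e 2 < e 3 := e.strictMono (by decide)
  have h34 : e 3 < e 4 := e.strictMono (by decide)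
  have h4 := (e 4).isLt
  simp only [Fin.lt_def] at h01 h12 h23 h34
  exact ⟨h01, h12, h23, h34, by simp only [toEd]; omega⟩

lemma cmp_of_forms {m : ℕ} {e f : Fin 5 ↪o Fin m} (hd : ∀ i j, e i ≠ f j)
    (hy : f 4 < e 4) (h : Forms PP0 e f) : Cmp (toEd f) (toEd e) := by
  have hd' : ∀ i j, (e i : ℕ) ≠ (f j : ℕ) := fun i j h => hd i j (Fin.ext h)
  have fo : ∀ i j : Fin 5, i < j → (f i : ℕ) < (f j : ℕ) := fun i j h => f.strictMono h
  have eo : ∀ i j : Fin 5, i < j → (e i : ℕ) < (e j : ℕ) := fun i j h => e.strictMono h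
  rcases h with ⟨h0, hP⟩ | ⟨h0, hP⟩
  · obtain ⟨hpat, hcol, -, -, hR⟩ := hP
    simp only [tbl, Fin.lt_def] at hR
    rw [Fin.lt_def] at h0 hy
    rcases hR with hR | ⟨hR1, hR2, hR3⟩
    · exact Or.inr (Or.inl hR)
    · refine Or.inr (Or.inr ⟨h0, ?_, ?_, ?_⟩)
      · have := hd' 3 3
        simp only [toEd]; omega
      · simp only [toEd]
        rintro ⟨h1, h2⟩
        have hbf : (e 1 : ℕ) < (f 0 : ℕ) := by
          by_contra hc
          have h3 := fo 1 2 (by decide)
          have h4 := fo 2 3 (by decide)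
          have := hR3 hc (by omega)
          exact this.2 (by omega)
        refine not_collectable (p := tbl e f) ?_ ?_ ?_ hcol
        · exact Fin.lt_def.mpr hbf
        · intro h3
          have := Fin.lt_def.mp h3
          omega
        · exact Fin.lt_def.mpr h2
      · simp only [toEd]
        intro h1 h2
        by_contra hc
        have h4 := fo 2 3 (by decide)
        have := hR3 hc (by omega)
        exact this.2 h2
  · obtain ⟨hpat, hcol, -, -, hR⟩ := hP
    simp only [tbl, Fin.lt_def] at hR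
    rw [Fin.lt_def] at h0 hy
    rcases hR with hR | ⟨hR1, hR2, hR3⟩
    · exact Or.inl hR
    · exact absurd hy hR2

lemma Forms.symm' {r : ℕ} [NeZero r] {V : Type} [LinearOrder V] {P : Set (Pattern r)}
    {e f : Fin r ↪o V} (h : Forms P e f) : Forms P f e := by
  rcases h with h | h
  · exact Or.inr h
  · exact Or.inl h

lemma cl_of_clique {m N : ℕ} (hm : m ≤ N) {S : Finset (Fin 5 ↪o Fin m)} (hM : IsMatching S)
    (hS : IsClique PP0 S) : Cl N (S.image toEd) := by
  refine ⟨?_, ?_, ?_⟩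
  · intro x hx
    rw [mem_image] at hx
    obtain ⟨e, -, rfl⟩ := hx
    exact ord_toEd hm e
  · intro x hx y hy hxy
    rw [mem_image] at hx hy
    obtain ⟨e, he, rfl⟩ := hx
    obtain ⟨f, hf, rfl⟩ := hy
    by_contra hne
    have hne' : e ≠ f := fun h => hne (by rw [h])
    exact hM e he f hf hne' 4 4 (Fin.ext hxy)
  · intro x hx y hy hxy
    rw [mem_image] at hx hy
    obtain ⟨f, hf, rfl⟩ := hx
    obtain ⟨e, he, rfl⟩ := hy
    have hne : e ≠ f := fun h => by rw [h] at hxy; exact lt_irrefl _ hxy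
    exact cmp_of_forms (hM e he f hf hne) (Fin.lt_def.mpr hxy) (hS e he f hf hne)

/-- the `PP0`-cliques of size `k` which are matchings -/
noncomputable def KK (m k : ℕ) : Finset (Finset (Fin 5 ↪o Fin m)) :=
  univ.filter (fun S => IsMatching S ∧ IsClique PP0 S ∧ S.card = k)

lemma card_KK_le {m N k : ℕ} (hm : m ≤ N) : (KK m k).card ≤ (CC N k N).card := by
  refine Finset.card_le_card_of_injOn (fun S => S.image toEd) ?_ ?_
  · intro S hS
    rw [Finset.mem_coe, KK, mem_filter] at hS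
    obtain ⟨-, h1, h2, h3⟩ := hS
    rw [Finset.mem_coe, mem_CC]
    refine ⟨cl_of_clique hm h1 h2, ?_, fun e he => ?_⟩
    · rw [Finset.card_image_of_injective _ toEd_inj, h3]
    · exact ((cl_of_clique hm h1 h2).ord e he).2.2.2.2
  · intro S _ S' _ h
    exact Finset.image_injective toEd_inj h

end Pool.Agent.H70.NC
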