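import Pool.Agent.H70.NC.Basic
import Pool.Agent.H70.NC.Energy

/-!
# The third resource is sublinear per scale
-/

set_option autoImplicit false

namespace Pool.Agent.H70.NC

open Finset
open scoped Classical

noncomputable def sc (e : Ed) : ℕ := Nat.log 2 (e.d - e.a)

variable {N : ℕ} {C : Finset Ed}

lemma Cl.lt_ad (h : Cl N C) {e : Ed} (he : e ∈ C) : e.a < e.d := by
  have := h.ord e he; unfold Ord at this; omega

lemma Cl.d_lt (h : Cl N C) {e : Ed} (he : e ∈ C) : e.d < N := by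
  have := h.ord e he; unfold Ord at this; omega

lemma sc_le (h : Cl N C) {e : Ed} (he : e ∈ C) : 2 ^ sc e ≤ e.d - e.a :=
  Nat.pow_log_le_self 2 (by have := h.lt_ad he; omega)

lemma lt_sc (e : Ed) : e.d - e.a < 2 ^ (sc e + 1) := Nat.lt_pow_succ_log_self (by norm_num) _

lemma sc_mono {e f : Ed} (h : f.d - f.a ≤ e.d - e.a) : sc f ≤ sc e := Nat.log_mono_right h

lemma lam (h : Cl N C) {e f : Ed} (he : e ∈ C) (hf : f ∈ C) {x : ℕ} (hxe : e.a ≤ x) (hxe' : x ≤ e.d)
    (hxf : f.a ≤ x) (hxf' : x ≤ f.d) (hy : f.y < e.y) : e.a < f.a ∧ f.d < e.d := by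
  rcases h.cmp f hf e he hy with h1 | h1 | h1
  · omega
  · omega
  · exact ⟨h1.1, h1.2.1⟩

lemma lam_sc (h : Cl N C) {e f : Ed} (he : e ∈ C) (hf : f ∈ C) {x : ℕ} (hxe : e.a ≤ x)
    (hxe' : x ≤ e.d) (hxf : f.a ≤ x) (hxf' : x ≤ f.d) (hs : sc f < sc e) : f.y < e.y := by
  by_contra hc
  push Not at hc
  rcases Nat.lt_or_ge e.y f.y with h1 | h1
  · have := lam h hf he hxf hxf' hxe hxe' h1
    have h2 : sc e ≤ sc f := sc_mono (by omega)
    omega
  · have : e = f := h.inj e he f hf (by omega)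
    rw [this] at hs
    omega

lemma mem_low {e f : Ed} : f ∈ low C e ↔ f ∈ C ∧ f.y < e.y := by simp [low]

lemma mem_pr {q : ℕ} {D : Finset Ed} {a c : ℕ} {p : ℕ × ℕ} : p ∈ pr q D a c ↔
    a < p.1 ∧ p.1 < p.2 ∧ p.2 < c ∧ Alive D p.2 ∧ Cheap q D a p.1 ∧ Unc D p.1 p.2 := by
  simp only [pr, mem_filter, mem_product, mem_Ioo]
  constructor
  · rintro ⟨⟨⟨h1, h2⟩, h3, h4⟩, h5, h6, h7, h8⟩
    exact ⟨h1, h5, h4, h6, h7, h8⟩
  · rintro ⟨h1, h2, h3, h4, h5, h6⟩
    exact ⟨⟨⟨h1, by omega⟩, by omega, h3⟩, h2, h4, h5, h6⟩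

lemma pr_disj (_h : Cl N C) (q : ℕ) {e f : Ed} (hf : f ∈ C) (hy : f.y < e.y) :
    Disjoint (pr q (low C e) e.a e.c) (pr q (low C f) f.a f.c) := by
  rw [Finset.disjoint_left]
  intro p hp hp'
  rw [mem_pr] at hp hp'
  exact hp.2.2.2.2.2 f (mem_low.mpr ⟨hf, hy⟩) ⟨hp'.1, hp'.2.2.1⟩

/-- all pairs of scale `m` -/
noncomputable def PP (q : ℕ) (C : Finset Ed) (m : ℕ) : Finset (ℕ × ℕ) :=
  (C.filter (fun e => sc e = m)).biUnion (fun e => pr q (low C e) e.a e.c)

lemma card_PP (h : Cl N C) (q m : ℕ) :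
    (PP q C m).card = ∑ e ∈ C.filter (fun e => sc e = m), (pr q (low C e) e.a e.c).card := by
  unfold PP
  rw [Finset.card_biUnion]
  intro e he f hf hne
  rw [Finset.mem_coe, mem_filter] at he hf
  rcases Nat.lt_trichotomy e.y f.y with h1 | h1 | h1
  · exact (pr_disj h q he.1 h1).symm
  · exact absurd (h.inj e he.1 f hf.1 h1) hne
  · exact pr_disj h q hf.1 h1

/-- counting pairs with partners on the right -/
lemma card_right (S : Finset ℕ) (B : ℕ) (P : Finset (ℕ × ℕ))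
    (hP : ∀ p ∈ P, p.1 ∈ S ∧ p.1 < p.2 ∧ p.2 < p.1 + B) : P.card ≤ S.card * B := by
  have hmaps : ∀ p ∈ P, (p.1, p.2 - p.1) ∈ S ×ˢ range B := by
    intro p hp
    obtain ⟨h1, h2, h3⟩ := hP p hp
    rw [mem_product, mem_range]
    exact ⟨h1, by simp only; omega⟩
  have hinj : Set.InjOn (fun p : ℕ × ℕ => (p.1, p.2 - p.1)) (P : Set (ℕ × ℕ)) := by
    intro p hp r hr hpr
    obtain ⟨h1, h2, h3⟩ := hP p hp
    obtain ⟨h4, h5, h6⟩ := hP r hr
    simp only [Prod.mk.injEq] at hpr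
    exact Prod.ext hpr.1 (by omega)
  calc P.card ≤ (S ×ˢ range B).card := Finset.card_le_card_of_injOn _ hmaps hinj
    _ = S.card * B := by rw [card_product, card_range]

/-- counting pairs with partners on the left -/
lemma card_left (S : Finset ℕ) (B : ℕ) (P : Finset (ℕ × ℕ))
    (hP : ∀ p ∈ P, p.2 ∈ S ∧ p.1 < p.2 ∧ p.2 < p.1 + B) : P.card ≤ S.card * B := by
  have hmaps : ∀ p ∈ P, (p.2, p.2 - p.1) ∈ S ×ˢ range B := by
    intro p hp
    obtain ⟨h1, h2, h3⟩ := hP p hp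
    rw [mem_product, mem_range]
    exact ⟨h1, by simp only; omega⟩
  have hinj : Set.InjOn (fun p : ℕ × ℕ => (p.2, p.2 - p.1)) (P : Set (ℕ × ℕ)) := by
    intro p hp r hr hpr
    obtain ⟨h1, h2, h3⟩ := hP p hp
    obtain ⟨h4, h5, h6⟩ := hP r hr
    simp only [Prod.mk.injEq] at hpr
    exact Prod.ext (by omega) hpr.1
  calc P.card ≤ (S ×ˢ range B).card := Finset.card_le_card_of_injOn _ hmaps hinj
    _ = S.card * B := by rw [card_product, card_range]

/-- small elements of the intervals of scale `m` -/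
noncomputable def Sm (C : Finset Ed) (M g1 m : ℕ) : Finset ℕ :=
  (range (2 ^ M)).filter (fun x => ∃ e ∈ C, sc e = m ∧ e.a < x ∧ x < e.a + 2 ^ (m - 2 * g1))

noncomputable def Xm (C : Finset Ed) (M m : ℕ) : Finset ℕ :=
  (range (2 ^ M)).filter (fun w => ∀ f ∈ C, f.a < w → w < f.b → m ≤ sc f)

noncomputable def Hm (C : Finset Ed) (M q g' m : ℕ) : Finset ℕ :=
  (Xm C M m).filter (fun v => Hole (Xm C M) q g' m v)

lemma Xm_anti (C : Finset Ed) (M : ℕ) (i j : ℕ) (hij : i ≤ j) : Xm C M j ⊆ Xm C M i := by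
  intro w hw
  simp only [Xm, mem_filter] at hw ⊢
  exact ⟨hw.1, fun f hf h1 h2 => hij.trans (hw.2 f hf h1 h2)⟩

lemma Xm_lt (C : Finset Ed) (M : ℕ) (i : ℕ) : ∀ v ∈ Xm C M i, v < 2 ^ M := by
  intro w hw
  simp only [Xm, mem_filter, mem_range] at hw
  exact hw.1

/-- every pair of scale `m` is short or long -/
lemma pair_cases {M : ℕ} (h : Cl (2 ^ M) C) (q g1 m : ℕ) (hm : 2 * g1 + 2 ≤ m) {p : ℕ × ℕ}
    (hp : p ∈ PP q C m) :
    p.1 ∈ Sm C M g1 m ∨ p.2 ∈ Hm C M q (2 * g1 + 2) m := by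
  simp only [PP, mem_biUnion, mem_filter] at hp
  obtain ⟨e, ⟨he, hes⟩, hp⟩ := hp
  rw [mem_pr] at hp
  obtain ⟨h1, h2, h3, h4, h5, h6⟩ := hp
  have hsc := lt_sc e
  rw [hes] at hsc
  have hord := h.ord e he
  unfold Ord at hord
  have hlt : p.2 < 2 ^ M := by omega
  by_cases hs : p.1 < e.a + 2 ^ (m - 2 * g1)
  · left
    simp only [Sm, mem_filter, mem_range]
    exact ⟨by omega, e, he, hes, h1, hs⟩
  · right
    push Not at hs
    simp only [Hm, mem_filter]
    constructor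
    · simp only [Xm, mem_filter, mem_range]
      refine ⟨hlt, fun f hf h7 h8 => ?_⟩
      by_contra hc
      push Not at hc
      have hfo := h.ord f hf
      unfold Ord at hfo
      have hy := lam_sc h he hf (x := p.2) (by omega) (by omega) (by omega) (by omega)
        (by rw [hes]; exact hc)
      exact h4 f (mem_low.mpr ⟨hf, hy⟩) ⟨h7, h8⟩
    · have hpow : 2 ^ (m - 2 * g1) = 2 ^ (m - (2 * g1 + 2) + 1) * 2 := by
        rw [← pow_succ]
        congr 1
        omega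
      have hpos : 0 < 2 ^ (m - (2 * g1 + 2) + 1) := by positivity
      refine ⟨e.a + 1, by omega, by omega, ?_⟩
      refine le_trans (card_le_card ?_) h5
      intro w hw
      simp only [Xm, mem_filter, mem_range] at hw
      simp only [alv, mem_filter, mem_Ioo]
      refine ⟨by omega, fun f hf hfw => ?_⟩
      rw [mem_low] at hf
      have hfo := h.ord f hf.1
      unfold Ord at hfo
      have h9 := hw.1.2 f hf.1 hfw.1 hfw.2
      have h10 := lam h he hf.1 (x := w) (by omega) (by omega) (by omega) (by omega) hf.2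
      have h11 : sc f ≤ sc e := sc_mono (by omega)
      omega

lemma pair_bd {M : ℕ} (h : Cl (2 ^ M) C) (q m : ℕ) {p : ℕ × ℕ} (hp : p ∈ PP q C m) :
    p.1 < 2 ^ M ∧ p.1 < p.2 ∧ p.2 < p.1 + 2 ^ (m + 1) := by
  simp only [PP, mem_biUnion, mem_filter] at hp
  obtain ⟨e, ⟨he, hes⟩, hp⟩ := hp
  rw [mem_pr] at hp
  obtain ⟨h1, h2, h3, h4, h5, h6⟩ := hp
  have hsc := lt_sc e
  rw [hes] at hsc
  have hord := h.ord e he
  unfold Ord at hord
  omega

lemma card_PP_triv {M : ℕ} (h : Cl (2 ^ M) C) (q m : ℕ) :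
    (PP q C m).card ≤ 2 ^ M * 2 ^ (m + 1) := by
  have := card_right (range (2 ^ M)) (2 ^ (m + 1)) (PP q C m) (fun p hp => by
    have := pair_bd h q m hp
    rw [mem_range]; exact this)
  rwa [card_range] at this

lemma card_PP_le {M : ℕ} (h : Cl (2 ^ M) C) (q g1 m : ℕ) (hm : 2 * g1 + 2 ≤ m) :
    (PP q C m).card ≤ ((Sm C M g1 m).card + (Hm C M q (2 * g1 + 2) m).card) * 2 ^ (m + 1) := by
  set P1 := (PP q C m).filter (fun p => p.1 ∈ Sm C M g1 m) with hP1
  set P2 := (PP q C m).filter (fun p => ¬ p.1 ∈ Sm C M g1 m) with hP2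
  have h1 : P1.card ≤ (Sm C M g1 m).card * 2 ^ (m + 1) := card_right _ _ _ (fun p hp => by
    rw [hP1, mem_filter] at hp
    exact ⟨hp.2, (pair_bd h q m hp.1).2⟩)
  have h2 : P2.card ≤ (Hm C M q (2 * g1 + 2) m).card * 2 ^ (m + 1) := card_left _ _ _ (fun p hp => by
    rw [hP2, mem_filter] at hp
    refine ⟨?_, (pair_bd h q m hp.1).2⟩
    rcases pair_cases h q g1 m hm hp.1 with h3 | h3
    · exact absurd h3 hp.2
    · exact h3)
  have h3 : P1.card + P2.card = (PP q C m).card := Finset.card_filter_add_card_filter_not _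
  rw [add_mul]
  omega

/-! ### short pairs -/

noncomputable def Jm (C : Finset Ed) (M g1 m : ℕ) : Finset ℕ :=
  (range (2 ^ M)).filter (fun x => (∃ e ∈ C, sc e = m ∧ e.a ≤ x ∧ x ≤ e.d) ∧
    ∀ f ∈ C, m - g1 ≤ sc f → sc f < m → ¬ (f.a ≤ x ∧ x ≤ f.d))

noncomputable def Fm (C : Finset Ed) (M g1 m : ℕ) : Finset ℕ :=
  (range (2 ^ M)).filter (fun x => (∃ e ∈ C, sc e = m ∧ e.a < x ∧ x < e.a + 2 ^ (m - 2 * g1)) ∧
    ∃ f ∈ C, m - g1 ≤ sc f ∧ sc f < m ∧ f.a ≤ x ∧ x ≤ f.d)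

lemma Sm_sub {M : ℕ} (h : Cl (2 ^ M) C) (g1 m : ℕ) : Sm C M g1 m ⊆ Jm C M g1 m ∪ Fm C M g1 m := by
  intro x hx
  simp only [Sm, mem_filter, mem_range] at hx
  obtain ⟨hx1, e, he, hes, h1, h2⟩ := hx
  simp only [mem_union, Jm, Fm, mem_filter, mem_range]
  by_cases hf : ∃ f ∈ C, m - g1 ≤ sc f ∧ sc f < m ∧ f.a ≤ x ∧ x ≤ f.d
  · exact Or.inr ⟨hx1, ⟨e, he, hes, h1, h2⟩, hf⟩
  · left
    push Not at hf
    refine ⟨hx1, ⟨e, he, hes, by omega, ?_⟩, fun f hf1 hf2 hf3 hf4 => ?_⟩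
    · have h3 := sc_le h he
      rw [hes] at h3
      have h4 : 2 ^ (m - 2 * g1) ≤ 2 ^ m := Nat.pow_le_pow_right (by norm_num) (by omega)
      omega
    · have := hf f hf1 hf2 hf3 hf4.1
      omega

lemma sep_card (G M : ℕ) (hG : 1 ≤ G) (A : Finset ℕ) (hA : ∀ m ∈ A, m < M + 1)
    (hsep : ∀ m ∈ A, ∀ m' ∈ A, m < m' → m + G ≤ m') : A.card ≤ M / G + 1 := by
  have hinj : Set.InjOn (fun m => m / G) (A : Set ℕ) := by
    intro m hm m' hm' heq
    simp only at heq
    by_contra hne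
    rcases Nat.lt_or_gt_of_ne hne with h1 | h1
    · have := hsep m hm m' hm' h1
      have h2 : (m + G) / G ≤ m' / G := Nat.div_le_div_right this
      rw [Nat.add_div_right _ (by omega)] at h2
      omega
    · have := hsep m' hm' m hm h1
      have h2 : (m' + G) / G ≤ m / G := Nat.div_le_div_right this
      rw [Nat.add_div_right _ (by omega)] at h2
      omega
  have hmaps : ∀ m ∈ A, m / G ∈ range (M / G + 1) := by
    intro m hm
    rw [mem_range]
    have := hA m hm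
    have h2 : m / G ≤ M / G := Nat.div_le_div_right (by omega)
    omega
  calc A.card ≤ (range (M / G + 1)).card := Finset.card_le_card_of_injOn _ hmaps hinj
    _ = M / G + 1 := card_range _

lemma sum_Jm (M g1 : ℕ) : ∑ m ∈ range (M + 1), (Jm C M g1 m).card ≤
    2 ^ M * (M / (g1 + 1) + 1) := by
  have h1 : ∀ m, (Jm C M g1 m).card = ∑ x ∈ range (2 ^ M), if x ∈ Jm C M g1 m then 1 else 0 := by
    intro m
    rw [Finset.sum_ite_mem, Finset.sum_const, smul_eq_mul, mul_one]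
    congr 1
    rw [Finset.inter_eq_right.mpr]
    exact filter_subset _ _
  simp only [h1]
  rw [Finset.sum_comm]
  calc ∑ x ∈ range (2 ^ M), ∑ m ∈ range (M + 1), (if x ∈ Jm C M g1 m then 1 else 0)
      ≤ ∑ x ∈ range (2 ^ M), (M / (g1 + 1) + 1) := by
        refine Finset.sum_le_sum fun x _ => ?_
        rw [← Finset.card_filter]
        refine sep_card (g1 + 1) M (by omega) _ (fun m hm => ?_) (fun m hm m' hm' hlt => ?_)
        · rw [mem_filter, mem_range] at hm; exact hm.1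
        · rw [mem_filter] at hm hm'
          simp only [Jm, mem_filter] at hm hm'
          obtain ⟨-, -, ⟨e, he, hes, he1, he2⟩, -⟩ := hm
          obtain ⟨-, -, -, h3⟩ := hm'
          by_contra hc
          push Not at hc
          exact h3 e he (by omega) (by omega) ⟨he1, he2⟩
    _ = 2 ^ M * (M / (g1 + 1) + 1) := by rw [Finset.sum_const, card_range, smul_eq_mul]

/-- maximal hulls of scale in `[m - g1, m)` -/
noncomputable def Gm (C : Finset Ed) (g1 m : ℕ) : Finset Ed :=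
  C.filter (fun g => sc g < m ∧ m - g1 ≤ sc g ∧
    ∀ g' ∈ C, sc g' < m → ¬ (g'.a < g.a ∧ g.d < g'.d))

lemma Fm_cover {M : ℕ} (h : Cl (2 ^ M) C) (g1 m : ℕ) :
    Fm C M g1 m ⊆ (Gm C g1 m).biUnion (fun g => Ico g.a (g.a + 2 ^ (m - 2 * g1))) := by
  intro x hx
  simp only [Fm, mem_filter, mem_range] at hx
  obtain ⟨hxM, ⟨e, he, hes, he1, he2⟩, f, hf, hf1, hf2, hf3, hf4⟩ := hx
  set A := C.filter (fun g => sc g < m ∧ g.a ≤ x ∧ x ≤ g.d) with hA
  have hne : A.Nonempty := ⟨f, by rw [hA, mem_filter]; exact ⟨hf, hf2, hf3, hf4⟩⟩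
  obtain ⟨g, hg, hmax⟩ := A.exists_max_image (fun g => g.y) hne
  have hfA : f ∈ A := by rw [hA, mem_filter]; exact ⟨hf, hf2, hf3, hf4⟩
  have hg' := hg
  rw [hA, mem_filter] at hg'
  obtain ⟨hgC, hgm, hgx1, hgx2⟩ := hg'
  have hxe : x ≤ e.d := by
    have h3 := sc_le h he
    rw [hes] at h3
    have h4 : 2 ^ (m - 2 * g1) ≤ 2 ^ m := Nat.pow_le_pow_right (by norm_num) (by omega)
    omega
  rw [mem_biUnion]
  refine ⟨g, ?_, ?_⟩
  · rw [Gm, mem_filter]
    refine ⟨hgC, hgm, ?_, fun g' hg' hgm' hnest => ?_⟩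
    · have hy := hmax f hfA
      rcases Nat.lt_or_ge f.y g.y with h1 | h1
      · have := lam h hgC hf hgx1 hgx2 hf3 hf4 h1
        have h2 : sc f ≤ sc g := sc_mono (by omega)
        omega
      · have : f = g := h.inj f hf g hgC (by omega)
        rw [← this]; exact hf1
    · have hgA : g' ∈ A := by rw [hA, mem_filter]; exact ⟨hg', hgm', by omega, by omega⟩
      have hy := hmax g' hgA
      rcases Nat.lt_or_ge g'.y g.y with h1 | h1
      · have := lam h hgC hg' hgx1 hgx2 (by omega : g'.a ≤ x) (by omega) h1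
        omega
      · have : g' = g := h.inj g' hg' g hgC (by omega)
        rw [this] at hnest; omega
  · rw [mem_Ico]
    refine ⟨hgx1, ?_⟩
    have hy := lam_sc h he hgC (x := x) (by omega) hxe hgx1 hgx2 (by omega)
    have := lam h he hgC (x := x) (by omega) hxe hgx1 hgx2 hy
    omega

lemma card_Fm {M : ℕ} (h : Cl (2 ^ M) C) (g1 m : ℕ) (hm : 2 * g1 ≤ m) :
    (Fm C M g1 m).card * 2 ^ g1 ≤ 2 ^ M := by
  have h1 : (Fm C M g1 m).card ≤ (Gm C g1 m).card * 2 ^ (m - 2 * g1) := by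
    calc (Fm C M g1 m).card ≤ _ := card_le_card (Fm_cover h g1 m)
      _ ≤ ∑ g ∈ Gm C g1 m, (Ico g.a (g.a + 2 ^ (m - 2 * g1))).card := card_biUnion_le
      _ = (Gm C g1 m).card * 2 ^ (m - 2 * g1) := by
        simp only [Nat.card_Ico, Nat.add_sub_cancel_left, Finset.sum_const, smul_eq_mul]
  have h2 : (Gm C g1 m).card * 2 ^ (m - g1) ≤ 2 ^ M := by
    calc (Gm C g1 m).card * 2 ^ (m - g1) = ∑ g ∈ Gm C g1 m, 2 ^ (m - g1) := by
          rw [Finset.sum_const, smul_eq_mul]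
      _ ≤ ∑ g ∈ Gm C g1 m, (Ico g.a g.d).card := by
          refine Finset.sum_le_sum fun g hg => ?_
          rw [Gm, mem_filter] at hg
          rw [Nat.card_Ico]
          refine le_trans ?_ (sc_le h hg.1)
          exact Nat.pow_le_pow_right (by norm_num) hg.2.2.1
      _ = ((Gm C g1 m).biUnion (fun g => Ico g.a g.d)).card := by
          rw [Finset.card_biUnion]
          intro g hg g' hg' hne
          rw [Finset.mem_coe, Gm, mem_filter] at hg hg'
          change Disjoint (Ico g.a g.d) (Ico g'.a g'.d)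
          rw [Finset.disjoint_left]
          intro x hx hx'
          rw [mem_Ico] at hx hx'
          rcases Nat.lt_trichotomy g.y g'.y with h3 | h3 | h3
          · have := lam h hg'.1 hg.1 (x := x) (by omega) (by omega) (by omega) (by omega) h3
            exact hg.2.2.2 g' hg'.1 hg'.2.1 this
          · exact hne (h.inj g hg.1 g' hg'.1 h3)
          · have := lam h hg.1 hg'.1 (x := x) (by omega) (by omega) (by omega) (by omega) h3
            exact hg'.2.2.2 g hg.1 hg.2.1 this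
      _ ≤ (range (2 ^ M)).card := by
          refine card_le_card fun x hx => ?_
          rw [mem_biUnion] at hx
          obtain ⟨g, hg, hx⟩ := hx
          rw [Gm, mem_filter] at hg
          have := h.d_lt hg.1
          rw [mem_Ico] at hx
          rw [mem_range]; omega
      _ = 2 ^ M := card_range _
  calc (Fm C M g1 m).card * 2 ^ g1 ≤ (Gm C g1 m).card * 2 ^ (m - 2 * g1) * 2 ^ g1 :=
        Nat.mul_le_mul_right _ h1
    _ = (Gm C g1 m).card * 2 ^ (m - g1) := by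
        rw [mul_assoc, ← pow_add]; congr 2; omega
    _ ≤ 2 ^ M := h2

lemma T_num {P M ε K C' G A : ℝ} (hP : 0 < P) (hM : 1 ≤ M) (hε : 0 < ε) (hG : 0 < G)
    (e1 : 1 / G ≤ ε / 64) (e2 : A ≤ M * (ε / 64)) (e3 : 2 * K + 2 + 2 * C' ≤ ε / 2 * M) :
    K * (2 * P) + 2 * (P * (A + 1)) + (M + 1) * (2 * (P / G)) +
      2 * (P * ((M + 1) * (2 / G + ε / 32) + C')) ≤ ε * M * P := by
  have e4 : (M + 1) * (1 / G) ≤ 2 * M * (ε / 64) := by
    have h1 : 0 ≤ 1 / G := by positivity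
    nlinarith
  have e5 : (M + 1) * (ε / 32) ≤ 2 * M * (ε / 32) := by nlinarith
  have hεM : 0 < ε * M := by positivity
  have key : K * 2 + 2 * (A + 1) + 2 * ((M + 1) * (1 / G)) +
      2 * (2 * ((M + 1) * (1 / G)) + (M + 1) * (ε / 32) + C') ≤ ε * M := by
    linarith
  calc K * (2 * P) + 2 * (P * (A + 1)) + (M + 1) * (2 * (P / G)) +
      2 * (P * ((M + 1) * (2 / G + ε / 32) + C'))
      = P * (K * 2 + 2 * (A + 1) + 2 * ((M + 1) * (1 / G)) +
      2 * (2 * ((M + 1) * (1 / G)) + (M + 1) * (ε / 32) + C')) := by ring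
    _ ≤ P * (ε * M) := mul_le_mul_of_nonneg_left key hP.le
    _ = ε * M * P := by ring

/-- **T-lemma.** -/
theorem T_lemma (ε : ℝ) (hε : 0 < ε) (Cq : ℕ) : ∃ M0 : ℕ, ∀ M ≥ M0, ∀ q H0 : ℕ, 
    q ≤ Cq * H0 → ∀ C : Finset Ed, Cl (2 ^ M) C →
    ∑ e ∈ C, Tr q H0 (low C e) e.a e.c e.d ≤ ε * M * 2 ^ M := by
  set g1 : ℕ := ⌈64 / ε⌉₊ + 1 with hg1
  set g' : ℕ := 2 * g1 + 2 with hg'
  set ε' : ℝ := ε / 32 with hε'
  have hε'p : 0 < ε' := by positivity
  obtain ⟨K', hK'⟩ := pow_unbounded_of_one_lt (4 * (Cq : ℝ) / ε') (by norm_num : (1 : ℝ) < 2)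
  set K := g' + K' with hK
  set C' : ℝ := 2 * g1 + 4 * 2 ^ (g1 + g') / ε' * (g1 + g') with hC'
  have hC'p : 0 ≤ C' := by positivity
  set M0 : ℕ := ⌈(2 * K + 2 + 2 * C') * 2 / ε⌉₊ + 1 with hM0
  have hg1r : 64 / ε ≤ g1 := by
    rw [hg1]; push_cast
    have := Nat.le_ceil (64 / ε)
    linarith
  have hpow : (64 : ℝ) / ε ≤ 2 ^ g1 := by
    have h1 : g1 < 2 ^ g1 := Nat.lt_two_pow_self
    have h2 : (g1 : ℝ) < 2 ^ g1 := by exact_mod_cast h1
    linarith
  refine ⟨M0, fun M hM q H0 hq C h => ?_⟩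
  have hM1 : (1 : ℝ) ≤ M := by
    have : 1 ≤ M := by omega
    exact_mod_cast this
  have hMr : (2 * K + 2 + 2 * C') * 2 / ε ≤ M := by
    have h1 := Nat.le_ceil ((2 * K + 2 + 2 * C') * 2 / ε)
    have h2 : (M0 : ℝ) ≤ M := by exact_mod_cast hM
    rw [hM0] at h2; push_cast at h2
    linarith
  set lo := Nat.log 2 H0 with hlo
  set m0 := lo + K with hm0
  -- step A
  have hscM : ∀ e ∈ C, sc e ∈ range (M + 1) := by
    intro e he
    rw [mem_range]
    have h1 := sc_le h he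
    have h2 := h.d_lt he
    have h3 : 2 ^ sc e < 2 ^ M := by omega
    have := (Nat.pow_lt_pow_iff_right (by norm_num : 1 < 2)).mp h3
    omega
  have hA : ∑ e ∈ C, Tr q H0 (low C e) e.a e.c e.d ≤
      ∑ m ∈ range (M + 1), if lo ≤ m then ((PP q C m).card : ℝ) / 2 ^ m else 0 := by
    calc ∑ e ∈ C, Tr q H0 (low C e) e.a e.c e.d
        ≤ ∑ e ∈ C, (if lo ≤ sc e then ((pr q (low C e) e.a e.c).card : ℝ) / 2 ^ (sc e) else 0) := by
          refine Finset.sum_le_sum fun e he => ?_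
          unfold Tr
          by_cases h1 : H0 ≤ e.d - e.a
          · have h2 : lo ≤ sc e := Nat.log_mono_right h1
            rw [if_pos h1, if_pos h2]
            have h3 := sc_le h he
            have h4 : (2 : ℝ) ^ sc e ≤ ((e.d - e.a : ℕ) : ℝ) := by exact_mod_cast h3
            gcongr
          · rw [if_neg h1]
            split_ifs
            · positivity
            · exact le_refl _
      _ = ∑ m ∈ range (M + 1), ∑ e ∈ C.filter (fun e => sc e = m),
            (if lo ≤ sc e then ((pr q (low C e) e.a e.c).card : ℝ) / 2 ^ (sc e) else 0) :=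
          (Finset.sum_fiberwise_of_maps_to hscM _).symm
      _ = ∑ m ∈ range (M + 1), if lo ≤ m then ((PP q C m).card : ℝ) / 2 ^ m else 0 := by
          refine Finset.sum_congr rfl fun m _ => ?_
          rw [card_PP h q m]
          by_cases h1 : lo ≤ m
          · rw [if_pos h1]
            push_cast
            rw [Finset.sum_div]
            refine Finset.sum_congr rfl fun e he => ?_
            rw [mem_filter] at he
            rw [he.2, if_pos h1]
          · rw [if_neg h1]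
            refine Finset.sum_eq_zero fun e he => ?_
            rw [mem_filter] at he
            rw [he.2, if_neg h1]
  -- step B
  have hB : ∀ m ∈ range (M + 1), (if lo ≤ m then ((PP q C m).card : ℝ) / 2 ^ m else 0) ≤
      (if m ∈ Ico lo m0 then (2 : ℝ) * 2 ^ M else 0) + 2 * ((Jm C M g1 m).card : ℝ) +
        2 * (2 ^ M / 2 ^ g1) + (if m ∈ Ico m0 (M + 1) then 2 * ((Hm C M q g' m).card : ℝ) else 0) := by
    intro m hm
    rw [mem_range] at hm
    have hpos : (0 : ℝ) ≤ 2 * ((Jm C M g1 m).card : ℝ) + 2 * (2 ^ M / 2 ^ g1) := by positivity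
    by_cases h1 : lo ≤ m
    · rw [if_pos h1]
      by_cases h2 : m < m0
      · rw [if_pos (mem_Ico.mpr ⟨h1, h2⟩), if_neg (by rw [mem_Ico]; omega)]
        have h3 : ((PP q C m).card : ℝ) ≤ 2 ^ M * 2 ^ (m + 1) := by
          exact_mod_cast card_PP_triv h q m
        have h4 : ((PP q C m).card : ℝ) / 2 ^ m ≤ 2 * 2 ^ M := by
          rw [div_le_iff₀ (by positivity)]
          rw [pow_succ] at h3
          linarith
        linarith
      · rw [if_neg (by rw [mem_Ico]; omega), if_pos (mem_Ico.mpr ⟨by omega, hm⟩)]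
        have hmg : 2 * g1 + 2 ≤ m := by omega
        have h3 : ((PP q C m).card : ℝ) ≤
            (((Sm C M g1 m).card : ℝ) + ((Hm C M q g' m).card : ℝ)) * 2 ^ (m + 1) := by
          exact_mod_cast card_PP_le h q g1 m hmg
        have h4 : ((Sm C M g1 m).card : ℝ) ≤ (Jm C M g1 m).card + (Fm C M g1 m).card := by
          exact_mod_cast (card_le_card (Sm_sub h g1 m)).trans (card_union_le _ _)
        have h5 : ((Fm C M g1 m).card : ℝ) ≤ 2 ^ M / 2 ^ g1 := by
          rw [le_div_iff₀ (by positivity)]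
          exact_mod_cast card_Fm h g1 m (by omega)
        have h6 : ((PP q C m).card : ℝ) / 2 ^ m ≤
            2 * (((Sm C M g1 m).card : ℝ) + ((Hm C M q g' m).card : ℝ)) := by
          rw [div_le_iff₀ (by positivity)]
          rw [pow_succ] at h3
          linarith
        linarith
    · rw [if_neg h1]
      have : (0 : ℝ) ≤ (if m ∈ Ico lo m0 then (2 : ℝ) * 2 ^ M else 0) := by positivity
      have : (0 : ℝ) ≤ (if m ∈ Ico m0 (M + 1) then 2 * ((Hm C M q g' m).card : ℝ) else 0) := by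
        positivity
      linarith
  have hS1 : ∑ m ∈ range (M + 1), (if m ∈ Ico lo m0 then (2 : ℝ) * 2 ^ M else 0) ≤
      K * (2 * 2 ^ M) := by
    rw [Finset.sum_ite_mem, Finset.sum_const, nsmul_eq_mul]
    have : ((range (M + 1) ∩ Ico lo m0).card : ℝ) ≤ K := by
      have h1 : (range (M + 1) ∩ Ico lo m0).card ≤ (Ico lo m0).card :=
        card_le_card inter_subset_right
      rw [Nat.card_Ico] at h1
      have h2 : (range (M + 1) ∩ Ico lo m0).card ≤ K := by omega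
      exact_mod_cast h2
    gcongr
  have hS2 : ∑ m ∈ range (M + 1), 2 * ((Jm C M g1 m).card : ℝ) ≤
      2 * (2 ^ M * (M / (g1 + 1) + 1)) := by
    rw [← Finset.mul_sum]
    have h1 := sum_Jm (C := C) M g1
    have h2 : (∑ m ∈ range (M + 1), ((Jm C M g1 m).card : ℝ)) ≤
        2 ^ M * (((M / (g1 + 1) : ℕ) : ℝ) + 1) := by exact_mod_cast h1
    have h3 : ((M / (g1 + 1) : ℕ) : ℝ) ≤ (M : ℝ) / (g1 + 1) := by
      have := @Nat.cast_div_le ℝ _ _ _ M (g1 + 1)
      push_cast at this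
      exact this
    have h4 : (2 : ℝ) ^ M * (((M / (g1 + 1) : ℕ) : ℝ) + 1) ≤ 2 ^ M * (M / (g1 + 1) + 1) := by
      gcongr
    linarith
  have hS3 : ∑ m ∈ range (M + 1), (2 * ((2 : ℝ) ^ M / 2 ^ g1)) = (M + 1) * (2 * (2 ^ M / 2 ^ g1)) := by
    rw [Finset.sum_const, card_range, nsmul_eq_mul]; push_cast; ring
  have hS4 : ∑ m ∈ range (M + 1),
      (if m ∈ Ico m0 (M + 1) then 2 * ((Hm C M q g' m).card : ℝ) else 0) ≤
      2 * ((2 ^ M : ℝ) * ((M + 1) * (2 / 2 ^ g1 + ε') + C')) := by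
    have hsub : range (M + 1) ∩ Ico m0 (M + 1) = Ico m0 (M + 1) := by
      rw [Finset.inter_eq_right]
      intro x hx
      rw [mem_Ico] at hx; rw [mem_range]; exact hx.2
    rw [Finset.sum_ite_mem, hsub, ← Finset.mul_sum]
    have hqε : 2 * (q : ℝ) ≤ ε' * 2 ^ (m0 - g') := by
      have h1 : m0 - g' = lo + K' := by omega
      have h2 : H0 < 2 ^ (lo + 1) := Nat.lt_pow_succ_log_self (by norm_num) _
      have h3 : (H0 : ℝ) ≤ 2 ^ (lo + 1) := by exact_mod_cast h2.le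
      have h4 : (q : ℝ) ≤ Cq * H0 := by exact_mod_cast hq
      have h5 : 4 * (Cq : ℝ) ≤ ε' * 2 ^ K' := by
        rw [div_lt_iff₀ hε'p] at hK'
        linarith
      rw [h1, pow_add]
      rw [pow_succ] at h3
      have h6 : (0 : ℝ) ≤ Cq := by positivity
      have h7 : (0 : ℝ) < 2 ^ lo := by positivity
      calc 2 * (q : ℝ) ≤ 2 * (Cq * (2 ^ lo * 2)) := by nlinarith
        _ = 4 * (Cq : ℝ) * 2 ^ lo := by ring
        _ ≤ ε' * 2 ^ K' * 2 ^ lo := by gcongr
        _ = ε' * (2 ^ lo * 2 ^ K') := by ring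
    have := energy_lemma (M := M) (g := g1) (g' := g') (m0 := m0) (q := q) hε'p (by omega) (by omega)
      (Xm C M) (Xm_anti C M) (Xm_lt C M) hqε (Hm C M q g')
      (fun m _ v hv => by
        simp only [Hm, mem_filter] at hv
        exact hv)
    have h2 : (2 ^ M : ℝ) * ((M + 1) * (2 / 2 ^ g1 + ε') + (2 * g1 + 4 * 2 ^ (g1 + g') / ε' *
      (g1 + g'))) = (2 ^ M : ℝ) * ((M + 1) * (2 / 2 ^ g1 + ε') + C') := by rw [hC']
    linarith
  have htot : ∑ e ∈ C, Tr q H0 (low C e) e.a e.c e.d ≤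
      K * (2 * 2 ^ M) + 2 * (2 ^ M * (M / (g1 + 1) + 1)) + (M + 1) * (2 * (2 ^ M / 2 ^ g1)) +
      2 * ((2 ^ M : ℝ) * ((M + 1) * (2 / 2 ^ g1 + ε') + C')) := by
    refine hA.trans ((Finset.sum_le_sum hB).trans ?_)
    rw [Finset.sum_add_distrib, Finset.sum_add_distrib, Finset.sum_add_distrib]
    linarith
  refine htot.trans ?_
  have e1 : (1 : ℝ) / 2 ^ g1 ≤ ε / 64 := by
    rw [div_le_div_iff₀ (by positivity) (by norm_num)]
    rw [div_le_iff₀ hε] at hpow
    linarith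
  have e2 : (M : ℝ) / (g1 + 1) ≤ M * (ε / 64) := by
    rw [div_le_iff₀ (by positivity)]
    rw [div_le_iff₀ hε] at hg1r
    nlinarith
  have e3 : 2 * K + 2 + 2 * C' ≤ ε / 2 * M := by
    rw [div_le_iff₀ hε] at hMr
    linarith
  have hfin := T_num (P := 2 ^ M) (K := K) (C' := C') (G := 2 ^ g1) (A := (M : ℝ) / (g1 + 1))
    (by positivity) hM1 hε (by positivity) e1 e2 e3
  exact hfin

end Pool.Agent.H70.NC
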