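import Pool.Agent.H70.NC.Patterns

/-!
# Upper bound for `z PP0`
-/

set_option autoImplicit false

namespace Pool.Agent.H70.NC

open Finset
open scoped Classical
open Model

lemma exists_clique {m k : ℕ} {P : Set (Pattern 5)} {M : Finset (Fin 5 ↪o Fin m)} (hk : 1 ≤ k)
    (h : k ≤ z P M) : ∃ S ⊆ M, IsClique P S ∧ S.card = k := by
  unfold z at h
  rw [Finset.le_sup_iff (by rw [Nat.bot_eq_zero]; exact hk)] at h
  obtain ⟨S, hS, hk'⟩ := h
  rw [mem_filter, mem_powerset] at hS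
  obtain ⟨S', hS', hcard⟩ := Finset.exists_subset_card_eq hk'
  exact ⟨S', hS'.trans hS.1, fun e he f hf hne => hS.2 e (hS' he) f (hS' hf) hne, hcard⟩

lemma card_bad_le (n k : ℕ) (hk : 1 ≤ k) :
    (((PM (univ : Finset (Fin (5 * n)))).filter (fun M => k ≤ z PP0 M)).card : ℝ) ≤
      ((KK (5 * n) k).card : ℝ) * Fr (n - k) := by
  have hsub : (PM (univ : Finset (Fin (5 * n)))).filter (fun M => k ≤ z PP0 M) ⊆
      (KK (5 * n) k).biUnion (fun S => (PM (univ : Finset (Fin (5 * n)))).filter (fun M => S ⊆ M)) := by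
    intro M hM
    rw [mem_filter] at hM
    obtain ⟨S, hSM, hS, hcard⟩ := exists_clique hk hM.2
    rw [mem_biUnion]
    refine ⟨S, ?_, ?_⟩
    · rw [KK, mem_filter]
      have := (mem_PM.mp hM.1).1
      exact ⟨mem_univ _, fun e he f hf => this e (hSM he) f (hSM hf), hS, hcard⟩
    · rw [mem_filter]; exact ⟨hM.1, hSM⟩
  have h1 : (((PM (univ : Finset (Fin (5 * n)))).filter (fun M => k ≤ z PP0 M)).card : ℝ) ≤
      ∑ S ∈ KK (5 * n) k, (((PM (univ : Finset (Fin (5 * n)))).filter (fun M => S ⊆ M)).card : ℝ) := by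
    exact_mod_cast (card_le_card hsub).trans card_biUnion_le
  refine h1.trans ?_
  have h2 : ∀ S ∈ KK (5 * n) k,
      (((PM (univ : Finset (Fin (5 * n)))).filter (fun M => S ⊆ M)).card : ℝ) ≤ Fr (n - k) := by
    intro S hS
    rw [KK, mem_filter] at hS
    obtain ⟨-, hS1, -, hS3⟩ := hS
    rw [PM_remove hS1 (fun e _ => subset_univ _)]
    have hle : 5 * S.card ≤ 5 * n := by
      rw [← card_cov hS1]
      have := card_le_univ (cov S)
      rwa [Fintype.card_fin] at this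
    rw [card_PM (n - k)]
    rw [Finset.card_sdiff_of_subset (subset_univ _), card_cov hS1, card_univ, Fintype.card_fin, hS3]
    omega
  calc _ ≤ ∑ S ∈ KK (5 * n) k, Fr (n - k) := Finset.sum_le_sum h2
    _ = ((KK (5 * n) k).card : ℝ) * Fr (n - k) := by rw [Finset.sum_const, nsmul_eq_mul]

lemma choose_bound (N k : ℕ) (hk : 1 ≤ k) :
    (N.choose k : ℝ) ≤ ((N : ℝ) * Real.exp 1 / k) ^ k := by
  have h1 := Nat.choose_le_pow_div (α := ℝ) k N
  have h2 := Real.pow_div_factorial_le_exp (k : ℝ) (by positivity) k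
  have hk0 : (0 : ℝ) < k := by exact_mod_cast hk
  have hf : (0 : ℝ) < (k.factorial : ℝ) := by exact_mod_cast Nat.factorial_pos k
  have h3 : Real.exp (k : ℝ) = Real.exp 1 ^ k := by rw [← Real.exp_nat_mul, mul_one]
  rw [h3, div_le_iff₀ hf] at h2
  refine h1.trans ?_
  rw [div_pow, mul_pow, div_le_div_iff₀ hf (by positivity)]
  calc (N : ℝ) ^ k * (k : ℝ) ^ k ≤ (N : ℝ) ^ k * (Real.exp 1 ^ k * k.factorial) := by gcongr
    _ = (N : ℝ) ^ k * Real.exp 1 ^ k * k.factorial := by ring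

/-- numerical form of the counting theorem -/
lemma count_num {N k q H0 : ℕ} {L : ℝ} (hk : 1 ≤ k) (hN : 1 ≤ N) (hL : (k : ℝ) / N ≤ L)
    (hq : N * Real.exp (-((k : ℝ) / N) * q) ≤ L / ((k : ℝ) / N)) (hH : (H0 : ℝ) ≤ L / ((k : ℝ) / N))
    (hT : ∀ C, Cl N C → ∑ e ∈ C, Tr q H0 (low C e) e.a e.c e.d ≤ L * N) :
    ((CC N k N).card : ℝ) ≤ (3 * Real.exp 1 ^ 4 * (N : ℝ) ^ 5 * L / (k : ℝ) ^ 4) ^ k := by
  have hk0 : (0 : ℝ) < k := by exact_mod_cast hk
  have hN0 : (0 : ℝ) < N := by exact_mod_cast hN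
  have hθ : (0 : ℝ) < (k : ℝ) / N := by positivity
  have hL0 : 0 < L := lt_of_lt_of_le hθ hL
  have h := card_CC hθ hL hq hH hT k
  refine h.trans ?_
  have e1 : Real.exp ((k : ℝ) / N * (3 * N)) = (Real.exp 1 ^ 3) ^ k := by
    rw [← pow_mul, ← Real.exp_nat_mul]
    congr 1
    push_cast
    field_simp
  have e2 := choose_bound N k hk
  have e3 : 3 * (N : ℝ) * L / ((k : ℝ) / N) ^ 3 = 3 * (N : ℝ) ^ 4 * L / (k : ℝ) ^ 3 := by
    field_simp
  rw [e1, e3]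
  calc (Real.exp 1 ^ 3) ^ k * ((N.choose k : ℝ) * (3 * (N : ℝ) ^ 4 * L / (k : ℝ) ^ 3) ^ k)
      ≤ (Real.exp 1 ^ 3) ^ k * (((N : ℝ) * Real.exp 1 / k) ^ k *
        (3 * (N : ℝ) ^ 4 * L / (k : ℝ) ^ 3) ^ k) := by gcongr
    _ = (3 * Real.exp 1 ^ 4 * (N : ℝ) ^ 5 * L / (k : ℝ) ^ 4) ^ k := by
      rw [← mul_pow, ← mul_pow]
      congr 1
      field_simp

lemma exp_four : Real.exp 1 ^ 4 ≤ 81 := by
  have h := Real.exp_one_lt_three
  have h0 := Real.exp_pos 1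
  calc Real.exp 1 ^ 4 ≤ 3 ^ 4 := by gcongr
    _ = 81 := by norm_num

lemma pow_fact (t : ℕ) (ht : 2 ≤ t) : 10 * t ^ 3 ≤ 16 ^ t := by
  induction t, ht using Nat.le_induction with
  | base => norm_num
  | succ t ht ih =>
    have h1 : 10 * (t + 1) ^ 3 ≤ 16 * (10 * t ^ 3) := by
      have : (t + 1) ≤ 2 * t := by omega
      calc 10 * (t + 1) ^ 3 ≤ 10 * (2 * t) ^ 3 := by gcongr
        _ = 8 * (10 * t ^ 3) := by ring
        _ ≤ 16 * (10 * t ^ 3) := by omega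
    calc 10 * (t + 1) ^ 3 ≤ 16 * (10 * t ^ 3) := h1
      _ ≤ 16 * 16 ^ t := by omega
      _ = 16 ^ (t + 1) := by rw [pow_succ]; ring

/-- the sequence of sizes -/
def nn (t : ℕ) : ℕ := t ^ 3 * 16 ^ t

theorem upper (κ : ℕ) : ∃ t0 : ℕ, ∀ t ≥ t0,
    (((PM (univ : Finset (Fin (5 * nn t)))).filter (fun M => t * 2 ^ (t - κ) ≤ z PP0 M)).card : ℝ) ≤
      Fr (nn t) * (1 / 2) ^ (t * 2 ^ (t - κ)) := by
  set ε : ℝ := 1 / (2 * 81 * 384 * 10 ^ 5 * 16 ^ κ) with hε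
  have hεp : 0 < ε := by positivity
  set Cq : ℕ := ⌈4 / ε⌉₊ with hCq
  obtain ⟨M0, hM0⟩ := T_lemma ε hεp Cq
  refine ⟨max (max M0 (κ + 2)) ⌈2 / ε⌉₊, fun t ht => ?_⟩
  have htM0 : M0 ≤ t := by omega
  have htκ : κ + 2 ≤ t := by omega
  have htε : 2 / ε ≤ t := by
    have h1 : ⌈2 / ε⌉₊ ≤ t := by omega
    exact (Nat.le_ceil _).trans (by exact_mod_cast h1)
  have hεt : 2 ≤ ε * t := by
    rw [div_le_iff₀ hεp] at htε; linarith
  set n := nn t with hn
  set k := t * 2 ^ (t - κ) with hk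
  have hk1 : 1 ≤ k := by
    have : 0 < 2 ^ (t - κ) := by positivity
    have ht0 : 0 < t := by omega
    exact Nat.mul_pos ht0 this
  -- size of n
  have hn1 : 1 ≤ n := by
    have ht0 : 0 < t := by omega
    exact Nat.mul_pos (pow_pos ht0 3) (by positivity)
  set M := Nat.clog 2 (5 * n) with hM
  set N := 2 ^ M with hN
  have hN5 : 5 * n ≤ N := Nat.le_pow_clog (by norm_num) _
  have hN1 : 1 ≤ N := Nat.one_le_two_pow
  have hMpos : 1 ≤ M := by
    by_contra hc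
    have : M = 0 := by omega
    rw [hN, this] at hN5
    omega
  have hN10 : N ≤ 10 * n := by
    have h1 := Nat.pow_pred_clog_lt_self (b := 2) (by norm_num) (x := 5 * n) (by omega)
    rw [← hM, Nat.pred_eq_sub_one] at h1
    have h2 : N = 2 * 2 ^ (M - 1) := by
      rw [hN, ← pow_succ']; congr 1; omega
    omega
  have hM8 : M ≤ 8 * t := by
    have h1 : 2 ^ M ≤ 2 ^ (8 * t) := by
      calc 2 ^ M ≤ 10 * n := hN10
        _ = (10 * t ^ 3) * 16 ^ t := by rw [hn, nn]; ring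
        _ ≤ 16 ^ t * 16 ^ t := Nat.mul_le_mul_right _ (pow_fact t (by omega))
        _ = 2 ^ (8 * t) := by
          rw [← mul_pow, pow_mul]; norm_num
    exact (Nat.pow_le_pow_iff_right (by norm_num)).mp h1
  have h16 : 16 ^ t ≤ n := by
    rw [hn, nn]
    exact Nat.le_mul_of_pos_left _ (pow_pos (by omega) 3)
  have hMt : t ≤ M := by
    have h1 : 2 ^ t ≤ 2 ^ M := by
      calc 2 ^ t ≤ 16 ^ t := Nat.pow_le_pow_left (by norm_num) t
        _ ≤ n := h16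
        _ ≤ N := by omega
    exact (Nat.pow_le_pow_iff_right (by norm_num)).mp h1
  have h2k : 2 * k ≤ n := by
    have e1 : 2 ^ (t - κ) ≤ 2 ^ t := Nat.pow_le_pow_right (by norm_num) (by omega)
    have e2 : 2 ≤ t := by omega
    have e3 : 2 * t ≤ t ^ 3 := by
      calc 2 * t ≤ t * t := Nat.mul_le_mul_right _ e2
        _ ≤ t * t * t := Nat.le_mul_of_pos_right _ (by omega)
        _ = t ^ 3 := by ring
    calc 2 * k = 2 * t * 2 ^ (t - κ) := by rw [hk]; ring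
      _ ≤ t ^ 3 * 16 ^ t :=
        Nat.mul_le_mul e3 (e1.trans (Nat.pow_le_pow_left (by norm_num) t))
      _ = n := rfl
  have hkN : k ≤ N := by omega
  set L : ℝ := ε * M with hL
  set θ : ℝ := (k : ℝ) / N with hθ
  have hNr : (0 : ℝ) < N := by exact_mod_cast hN1
  have hkr : (0 : ℝ) < k := by exact_mod_cast hk1
  have hθ0 : 0 < θ := by positivity
  have hθ1 : θ ≤ 1 := by
    rw [hθ, div_le_one hNr]; exact_mod_cast hkN
  have hMr : (t : ℝ) ≤ M := by exact_mod_cast hMt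
  have hL2 : 2 ≤ L := hεt.trans (by rw [hL]; gcongr)
  have hLθ : L ≤ L / θ := by
    rw [le_div_iff₀ hθ0]
    nlinarith
  have hM1r : (1 : ℝ) ≤ M := by exact_mod_cast hMpos
  have hMθ : 1 ≤ (M : ℝ) / θ := by
    rw [le_div_iff₀ hθ0]; linarith
  set q : ℕ := ⌈(M : ℝ) / θ⌉₊ with hq
  set H0 : ℕ := ⌊L / θ⌋₊ with hH0
  have hqge : (M : ℝ) / θ ≤ q := Nat.le_ceil _
  have hqle : (q : ℝ) ≤ 2 * ((M : ℝ) / θ) := by
    have := (Nat.ceil_lt_add_one (by positivity : 0 ≤ (M : ℝ) / θ)).le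
    linarith
  have hH0le : (H0 : ℝ) ≤ L / θ := Nat.floor_le (by positivity)
  have hH0ge : L / θ / 2 ≤ (H0 : ℝ) := by
    have := (Nat.lt_floor_add_one (L / θ)).le
    linarith
  have hqH : q ≤ Cq * H0 := by
    have h1 : (4 : ℝ) / ε ≤ Cq := Nat.le_ceil _
    have h2 : (q : ℝ) ≤ (Cq : ℝ) * H0 := by
      calc (q : ℝ) ≤ 2 * ((M : ℝ) / θ) := hqle
        _ = 4 / ε * (L / θ / 2) := by rw [hL]; field_simp; norm_num
        _ ≤ (Cq : ℝ) * H0 := by gcongr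
    exact_mod_cast h2
  have hT : ∀ C, Cl N C → ∑ e ∈ C, Tr q H0 (low C e) e.a e.c e.d ≤ L * N := by
    intro C hC
    have := hM0 M (by omega) q H0 hqH C hC
    rw [hL, hN]
    push_cast
    exact this
  have hqc : N * Real.exp (-θ * q) ≤ L / θ := by
    have h1 : (M : ℝ) ≤ θ * q := by
      rw [div_le_iff₀ hθ0] at hqge; linarith
    have h2 : Real.exp (-θ * q) ≤ Real.exp (-(M : ℝ)) := by
      apply Real.exp_le_exp.mpr; linarith
    have h3 : (N : ℝ) * Real.exp (-(M : ℝ)) ≤ 1 := by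
      rw [Real.exp_neg, ← div_eq_mul_inv, div_le_one (Real.exp_pos _)]
      have h4 : Real.exp (M : ℝ) = Real.exp 1 ^ M := by rw [← Real.exp_nat_mul, mul_one]
      rw [h4, hN]
      push_cast
      have h5 : (2 : ℝ) ≤ Real.exp 1 := by
        have := Real.add_one_le_exp (1 : ℝ)
        linarith
      gcongr
    calc N * Real.exp (-θ * q) ≤ N * Real.exp (-(M : ℝ)) := by gcongr
      _ ≤ 1 := h3
      _ ≤ L / θ := by linarith
  have hcount := count_num (N := N) (k := k) (q := q) (H0 := H0) (L := L) hk1 hN1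
    (hθ1.trans (by linarith)) hqc hH0le hT
  have hKK : ((KK (5 * n) k).card : ℝ) ≤
      (3 * Real.exp 1 ^ 4 * (N : ℝ) ^ 5 * L / (k : ℝ) ^ 4) ^ k := by
    refine le_trans ?_ hcount
    exact_mod_cast card_KK_le hN5
  have hbad := card_bad_le n k hk1
  have hFr := Fr_upper n k h2k
  have hnr : (0 : ℝ) < n := by exact_mod_cast hn1
  have hbase : 3 * Real.exp 1 ^ 4 * (N : ℝ) ^ 5 * L / (k : ℝ) ^ 4 * (16 / (n : ℝ) ^ 4) ≤ 1 / 2 := by
    have hNn : (N : ℝ) ≤ 10 * n := by exact_mod_cast hN10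
    have hL8 : L ≤ 8 * ε * t := by
      rw [hL]
      have : (M : ℝ) ≤ 8 * t := by exact_mod_cast hM8
      nlinarith
    have hke : (k : ℝ) ^ 4 * 16 ^ κ = t * n := by
      rw [hk, hn, nn]
      push_cast
      have : (2 : ℝ) ^ t = 2 ^ (t - κ) * 2 ^ κ := by
        rw [← pow_add]; congr 1; omega
      have h16' : (16 : ℝ) ^ t = (2 ^ t) ^ 4 := by
        rw [← pow_mul, mul_comm, pow_mul]; norm_num
      have h16'' : (16 : ℝ) ^ κ = (2 ^ κ) ^ 4 := by
        rw [← pow_mul, mul_comm, pow_mul]; norm_num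
      rw [h16', h16'', this]
      ring
    have hexp := exp_four
    have hexp0 : 0 < Real.exp 1 ^ 4 := by positivity
    rw [div_mul_div_comm, div_le_div_iff₀ (by positivity) (by norm_num)]
    have ht0 : (0 : ℝ) < t := by
      have : 0 < t := by omega
      exact_mod_cast this
    calc 3 * Real.exp 1 ^ 4 * (N : ℝ) ^ 5 * L * 16 * 2
        ≤ 3 * 81 * (10 * (n : ℝ)) ^ 5 * (8 * ε * t) * 16 * 2 := by gcongr
      _ = (2 * 81 * 384 * 10 ^ 5 * ε) * (t * n) * (n : ℝ) ^ 4 := by ring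
      _ = (2 * 81 * 384 * 10 ^ 5 * 16 ^ κ * ε) * (k : ℝ) ^ 4 * (n : ℝ) ^ 4 := by rw [← hke]; ring
      _ = 1 * ((k : ℝ) ^ 4 * (n : ℝ) ^ 4) := by
          have : 2 * 81 * 384 * 10 ^ 5 * 16 ^ κ * ε = 1 := by rw [hε]; field_simp
          rw [this]; ring
      _ ≤ 1 * ((k : ℝ) ^ 4 * (n : ℝ) ^ 4) := le_rfl
  calc _ ≤ ((KK (5 * n) k).card : ℝ) * Fr (n - k) := hbad
    _ ≤ (3 * Real.exp 1 ^ 4 * (N : ℝ) ^ 5 * L / (k : ℝ) ^ 4) ^ k *
        (Fr n * (16 / (n : ℝ) ^ 4) ^ k) :=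
        mul_le_mul hKK hFr (Fr_pos _).le (by positivity)
    _ = Fr n * (3 * Real.exp 1 ^ 4 * (N : ℝ) ^ 5 * L / (k : ℝ) ^ 4 * (16 / (n : ℝ) ^ 4)) ^ k := by
        rw [mul_pow]; ring
    _ ≤ Fr n * (1 / 2) ^ k := by
        have := (Fr_pos n).le
        gcongr

end Pool.Agent.H70.NC
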